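import Mathlib

/-!
Local consistency for expanding linear systems over `ZMod 2`, and the impossibility of
semantic refutations whose lines have, after fixing few coordinates, few relevant coordinates.
-/

namespace H542

open Finset

variable {M n : ℕ}

/-- `0` iff the equation `v` of the system is satisfied by `β` -/
def val (R : Fin M → Fin n → ZMod 2) (b : Fin M → ZMod 2) (β : Fin n → ZMod 2) (v : Fin M) :
    ZMod 2 := b v + ∑ i, R v i * β i

/-- expansion of the supports of sums of few equations -/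
def Expd (R : Fin M → Fin n → ZMod 2) (u0 : ℕ) : Prop :=
  ∀ U : Finset (Fin M), U.card ≤ u0 →
    4 * U.card ≤ (univ.filter fun i => ∑ v ∈ U, R v i ≠ 0).card

/-- local consistency of an assignment on the set `W` -/
def LC (R : Fin M → Fin n → ZMod 2) (b : Fin M → ZMod 2) (u0 : ℕ) (W : Finset (Fin n))
    (β : Fin n → ZMod 2) : Prop :=
  ∀ U : Finset (Fin M), U.card ≤ u0 → (∀ i, i ∉ W → ∑ v ∈ U, R v i = 0) →
    ∑ v ∈ U, val R b β v = 0

theorem sum_val (R : Fin M → Fin n → ZMod 2) (b : Fin M → ZMod 2) (β : Fin n → ZMod 2)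
    (U : Finset (Fin M)) :
    ∑ v ∈ U, val R b β v = ∑ v ∈ U, b v + ∑ i, (∑ v ∈ U, R v i) * β i := by
  unfold val
  rw [sum_add_distrib, sum_comm]
  congr 1
  exact sum_congr rfl fun i _ => by rw [sum_mul]

theorem LC.congr {R : Fin M → Fin n → ZMod 2} {b : Fin M → ZMod 2} {u0 : ℕ}
    {W : Finset (Fin n)} {β β' : Fin n → ZMod 2} (h : LC R b u0 W β)
    (hβ : ∀ i ∈ W, β' i = β i) : LC R b u0 W β' := by
  intro U hU hW
  have := h U hU hW
  rw [sum_val] at this ⊢
  rw [← this]
  congr 1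
  refine sum_congr rfl fun i _ => ?_
  by_cases hi : i ∈ W
  · rw [hβ i hi]
  · rw [hW i hi]; simp

theorem LC.mono {R : Fin M → Fin n → ZMod 2} {b : Fin M → ZMod 2} {u0 : ℕ}
    {W W' : Finset (Fin n)} {β : Fin n → ZMod 2} (h : LC R b u0 W β) (hW : W' ⊆ W) :
    LC R b u0 W' β :=
  fun U hU hs => h U hU fun i hi => hs i fun hi' => hi (hW hi')

theorem LC_empty {R : Fin M → Fin n → ZMod 2} {b : Fin M → ZMod 2} {u0 : ℕ}
    (hR : Expd R u0) (β : Fin n → ZMod 2) : LC R b u0 ∅ β := by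
  intro U hU hs
  have h1 := hR U hU
  have h2 : (univ.filter fun i => ∑ v ∈ U, R v i ≠ 0) = ∅ := by
    ext i
    simp [hs i (notMem_empty i)]
  rw [h2] at h1
  have h3 : U = ∅ := card_eq_zero.mp (by simpa using h1)
  simp [h3]

theorem zmod2_ne_zero {x : ZMod 2} (h : x ≠ 0) : x = 1 := by
  revert h; revert x; decide

theorem sum_symmDiff2 {ι : Type*} [DecidableEq ι] (A B : Finset ι) (f : ι → ZMod 2) :
    ∑ v ∈ symmDiff A B, f v = ∑ v ∈ A, f v + ∑ v ∈ B, f v := by
  have h1 : ∑ v ∈ symmDiff A B, f v = ∑ v ∈ A \ B, f v + ∑ v ∈ B \ A, f v := by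
    rw [symmDiff_def, sup_eq_union, sum_union]
    exact disjoint_sdiff_sdiff
  have h2 : ∑ v ∈ A, f v = ∑ v ∈ A \ B, f v + ∑ v ∈ A ∩ B, f v := by
    rw [← sum_union (disjoint_sdiff_inter A B), sdiff_union_inter]
  have h3 : ∑ v ∈ B, f v = ∑ v ∈ B \ A, f v + ∑ v ∈ A ∩ B, f v := by
    rw [inter_comm, ← sum_union (disjoint_sdiff_inter B A), sdiff_union_inter]
  rw [h1, h2, h3]
  have h4 : ∑ v ∈ A ∩ B, f v + ∑ v ∈ A ∩ B, f v = 0 := CharTwo.add_self_eq_zero _
  linear_combination -h4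

theorem LC.extend {R : Fin M → Fin n → ZMod 2} {b : Fin M → ZMod 2} {u0 : ℕ}
    (hR : Expd R u0) {W : Finset (Fin n)} {β : Fin n → ZMod 2} (h : LC R b u0 W β)
    (i : Fin n) (hW : W.card + 1 ≤ 2 * u0) :
    ∃ β' : Fin n → ZMod 2, (∀ j ∈ W, β' j = β j) ∧ LC R b u0 (insert i W) β' := by
  by_cases hi : i ∈ W
  · exact ⟨β, fun _ _ => rfl, by rwa [insert_eq_of_mem hi]⟩
  by_contra hcon
  push Not at hcon
  have hsmall : ∀ U : Finset (Fin M), U.card ≤ u0 →
      (∀ j, j ∉ insert i W → ∑ v ∈ U, R v j = 0) → 2 * U.card ≤ u0 := by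
    intro U hU hs
    have h1 := hR U hU
    have h2 : (univ.filter fun i => ∑ v ∈ U, R v i ≠ 0) ⊆ insert i W := by
      intro j hj
      by_contra hj'
      exact (mem_filter.mp hj).2 (hs j hj')
    have h3 := card_le_card h2
    rw [card_insert_of_notMem hi] at h3
    omega
  have c0 := hcon β (fun _ _ => rfl)
  have c1 := hcon (Function.update β i (β i + 1)) (fun j hj => by
    have : j ≠ i := fun e => hi (e ▸ hj)
    simp [this])
  unfold LC at c0 c1
  push Not at c0 c1
  obtain ⟨U0, hU0, hs0, hv0⟩ := c0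
  obtain ⟨U1, hU1, hs1, hv1⟩ := c1
  have k0 := hsmall U0 hU0 hs0
  have k1 := hsmall U1 hU1 hs1
  have hsup : ∀ U : Finset (Fin M), (∀ j, j ∉ insert i W → ∑ v ∈ U, R v j = 0) →
      ∑ v ∈ U, R v i = 0 → ∀ j, j ∉ W → ∑ v ∈ U, R v j = 0 := by
    intro U hs hi0 j hj
    by_cases hji : j = i
    · rw [hji]; exact hi0
    · exact hs j (by simp [hji, hj])
  have e0 : ∑ v ∈ U0, R v i = 1 := by
    apply zmod2_ne_zero
    intro h0
    exact hv0 (h U0 hU0 (hsup U0 hs0 h0))
  have hval1 : ∑ v ∈ U1, val R b (Function.update β i (β i + 1)) v =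
      ∑ v ∈ U1, val R b β v + ∑ v ∈ U1, R v i := by
    rw [sum_val, sum_val]
    have : ∑ j, (∑ v ∈ U1, R v j) * Function.update β i (β i + 1) j =
        ∑ j, ((∑ v ∈ U1, R v j) * β j + if j = i then (∑ v ∈ U1, R v i) else 0) := by
      refine sum_congr rfl fun j _ => ?_
      by_cases hji : j = i
      · subst hji; simp; ring
      · simp [hji]
    rw [this, sum_add_distrib]
    simp
    ring
  have e1 : ∑ v ∈ U1, R v i = 1 := by
    apply zmod2_ne_zero
    intro h0
    apply hv1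
    rw [hval1, h0, add_zero]
    exact h U1 hU1 (hsup U1 hs1 h0)
  have f0 := zmod2_ne_zero hv0
  have f1 := zmod2_ne_zero hv1
  rw [hval1, e1] at f1
  have f1' : ∑ v ∈ U1, val R b β v = 0 := by
    have : ∑ v ∈ U1, val R b β v + 1 - 1 = 0 := by rw [f1]; ring
    simpa using this
  have hcard : (symmDiff U0 U1).card ≤ u0 := by
    have : (symmDiff U0 U1) ⊆ U0 ∪ U1 := by
      intro v hv
      rw [mem_symmDiff] at hv
      rw [mem_union]
      tauto
    have h1 := card_le_card this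
    have h2 := card_union_le U0 U1
    omega
  have hfin := h (symmDiff U0 U1) hcard (by
    intro j hj
    rw [sum_symmDiff2]
    by_cases hji : j = i
    · subst hji; rw [e0, e1]; exact CharTwo.add_self_eq_zero _
    · rw [hs0 j (by simp [hji, hj]), hs1 j (by simp [hji, hj]), add_zero])
  rw [sum_symmDiff2, f0, f1'] at hfin
  simp at hfin

theorem LC.extend_set {R : Fin M → Fin n → ZMod 2} {b : Fin M → ZMod 2} {u0 : ℕ}
    (hR : Expd R u0) {W : Finset (Fin n)} {β : Fin n → ZMod 2} (h : LC R b u0 W β)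
    (Q : Finset (Fin n)) (hW : (W ∪ Q).card ≤ 2 * u0) :
    ∃ β' : Fin n → ZMod 2, (∀ j ∈ W, β' j = β j) ∧ LC R b u0 (W ∪ Q) β' := by
  induction Q using Finset.induction_on with
  | empty => exact ⟨β, fun _ _ => rfl, by simpa using h⟩
  | insert i Q hi ih =>
    have h1 : (W ∪ Q).card ≤ 2 * u0 :=
      (card_le_card (union_subset_union_right (subset_insert i Q))).trans hW
    obtain ⟨β1, hb1, hl1⟩ := ih h1
    by_cases hi' : i ∈ W ∪ Q
    · refine ⟨β1, hb1, ?_⟩
      rw [union_insert, insert_eq_of_mem hi']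
      exact hl1
    · rw [union_insert, card_insert_of_notMem hi'] at hW
      obtain ⟨β2, hb2, hl2⟩ := hl1.extend hR i hW
      refine ⟨β2, fun j hj => (hb2 j (mem_union_left _ hj)).trans (hb1 j hj), ?_⟩
      rwa [union_insert]

/-- after fixing the coordinates in a set `H`, at most `h` coordinates are relevant -/
def DJ (g : (Fin n → ZMod 2) → Bool) (h : ℕ) : Prop :=
  ∃ H : Finset (Fin n), ∀ α : Fin n → ZMod 2, ∃ W : Finset (Fin n), H ⊆ W ∧ W.card ≤ h ∧
    ∀ y y' : Fin n → ZMod 2, (∀ i ∈ H, y i = α i) → (∀ i ∈ W, y i = y' i) → g y = g y'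

theorem extend_lines {R : Fin M → Fin n → ZMod 2} {b : Fin M → ZMod 2} {u0 : ℕ}
    (hR : Expd R u0) {ι : Type*} [DecidableEq ι] (g : ι → (Fin n → ZMod 2) → Bool) (h : ℕ)
    (hDJ : ∀ p, DJ (g p) h) {W : Finset (Fin n)} {β : Fin n → ZMod 2} (hLC : LC R b u0 W β)
    (P : Finset ι) (hW : W.card + P.card * h ≤ 2 * u0) :
    ∃ (W' : Finset (Fin n)) (β' : Fin n → ZMod 2), W ⊆ W' ∧ (∀ j ∈ W, β' j = β j) ∧
      LC R b u0 W' β' ∧ W'.card ≤ W.card + P.card * h ∧
      ∀ p ∈ P, ∃ Wp ⊆ W', Wp.card ≤ h ∧ ∀ y y' : Fin n → ZMod 2,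
        (∀ i ∈ Wp, y i = β' i) → (∀ i ∈ Wp, y' i = β' i) → g p y = g p y' := by
  induction P using Finset.induction_on with
  | empty =>
    exact ⟨W, β, Subset.rfl, fun _ _ => rfl, hLC, by simp, by simp⟩
  | insert p P hp ih =>
    rw [card_insert_of_notMem hp] at hW
    obtain ⟨W1, β1, hW1, hb1, hl1, hc1, hq1⟩ := ih (by nlinarith)
    obtain ⟨H, hH⟩ := hDJ p
    have hHc : H.card ≤ h := by
      obtain ⟨W, h1, h2, _⟩ := hH 0
      exact (card_le_card h1).trans h2
    have hu1 : (W1 ∪ H).card ≤ 2 * u0 := by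
      have := card_union_le W1 H
      nlinarith
    obtain ⟨β2, hb2, hl2⟩ := hl1.extend_set hR H hu1
    obtain ⟨Wp, hHW, hWc, hWp⟩ := hH β2
    have hu2 : ((W1 ∪ H) ∪ Wp).card ≤ W.card + (P.card + 1) * h := by
      have e : (W1 ∪ H) ∪ Wp = W1 ∪ Wp := by
        rw [union_assoc, union_eq_right.mpr hHW]
      rw [e]
      have := card_union_le W1 Wp
      nlinarith
    obtain ⟨β3, hb3, hl3⟩ := hl2.extend_set hR Wp (hu2.trans hW)
    refine ⟨(W1 ∪ H) ∪ Wp, β3, ?_, ?_, hl3, ?_, ?_⟩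
    · exact hW1.trans (subset_union_left.trans subset_union_left)
    · intro j hj
      rw [hb3 j (mem_union_left _ (hW1 hj)), hb2 j (hW1 hj), hb1 j hj]
    · rwa [card_insert_of_notMem hp]
    · intro q hq
      rcases mem_insert.mp hq with rfl | hq
      · refine ⟨Wp, subset_union_right, hWc, ?_⟩
        intro y y' hy hy'
        refine hWp y y' ?_ ?_
        · intro i hi
          rw [hy i (hHW hi), hb3 i (mem_union_right _ hi)]
        · intro i hi
          rw [hy i hi, hy' i hi]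
      · obtain ⟨Wq, hq1', hq2, hq3⟩ := hq1 q hq
        refine ⟨Wq, hq1'.trans (subset_union_left.trans subset_union_left), hq2, ?_⟩
        intro y y' hy hy'
        have hb : ∀ i ∈ Wq, β3 i = β1 i := by
          intro i hi
          rw [hb3 i (mem_union_left _ (hq1' hi)), hb2 i (hq1' hi)]
        exact hq3 y y' (fun i hi => (hy i hi).trans (hb i hi))
          (fun i hi => (hy' i hi).trans (hb i hi))

/-- No semantic refutation of an expanding system by lines with few relevant coordinates. -/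
theorem no_ref {R : Fin M → Fin n → ZMod 2} {b : Fin M → ZMod 2} {u0 : ℕ}
    (hR : Expd R u0) (w : ℕ) (hw0 : 1 ≤ w)
    (hw : ∀ v, (univ.filter fun i => R v i ≠ 0).card ≤ w)
    (a h : ℕ) (hah : (a + 1) * h + w ≤ 2 * u0) {S : ℕ} (g : Fin S → (Fin n → ZMod 2) → Bool)
    (hDJ : ∀ p, DJ (g p) h)
    (hs : ∀ j, (∃ v, ∀ y, val R b y v = 0 → g j y = true) ∨
      ∃ P : Finset (Fin S), P.card ≤ a ∧ (∀ p ∈ P, p < j) ∧
        ∀ y, (∀ p ∈ P, g p y = true) → g j y = true) (j : Fin S) :
    ∃ y, g j y = true := by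
  have key : ∀ m : ℕ, ∀ j : Fin S, j.val = m → ∀ W : Finset (Fin n), ∀ β : Fin n → ZMod 2,
      W.card ≤ h → LC R b u0 W β → ∃ y : Fin n → ZMod 2, (∀ i ∈ W, y i = β i) ∧
        g j y = true := by
    intro m
    induction m using Nat.strong_induction_on with
    | _ m ih =>
      intro j hj W β hWh hLC
      rcases hs j with ⟨v, hv⟩ | ⟨P, hPa, hPj, hP⟩
      · have hc : (W ∪ univ.filter fun i => R v i ≠ 0).card ≤ 2 * u0 := by
          have h1 := card_union_le W (univ.filter fun i => R v i ≠ 0)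
          have h2 := hw v
          nlinarith
        obtain ⟨β', hb', hl'⟩ := hLC.extend_set hR _ hc
        refine ⟨β', hb', hv β' ?_⟩
        have := hl' {v} (by
          rw [card_singleton]
          by_contra hu
          have : u0 = 0 := by omega
          subst this
          omega) (by
          intro i hi
          rw [sum_singleton]
          by_contra hne
          exact hi (mem_union_right _ (mem_filter.mpr ⟨mem_univ _, hne⟩)))
        simpa using this
      · have hc : W.card + P.card * h ≤ 2 * u0 := by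
          have : P.card * h ≤ a * h := Nat.mul_le_mul_right h hPa
          nlinarith
        obtain ⟨W', β', hWW, hb, hl, _, hq⟩ := extend_lines hR g h hDJ hLC P hc
        refine ⟨β', hb, hP β' ?_⟩
        intro p hp
        obtain ⟨Wp, hWp1, hWp2, hWp3⟩ := hq p hp
        have hpj : p.val < m := by
          have := hPj p hp
          rw [← hj]; exact this
        obtain ⟨y, hy1, hy2⟩ := ih p.val hpj p rfl Wp β' hWp2 (hl.mono hWp1)
        rw [← hy2]
        exact hWp3 β' y (fun _ _ => rfl) hy1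
  obtain ⟨y, _, hy⟩ := key j.val j rfl ∅ 0 (by simp) (LC_empty hR 0)
  exact ⟨y, hy⟩

end H542
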