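import Mathlib
import Pool.Agent.H542R2.Local

/-!
Existence of sparse overdetermined expanding systems over `ZMod 2`, by counting.
-/

namespace H542

open Finset

/-- the numerical heart of the counting argument -/
theorem choose_bound (n u : ℕ) (hu : 1 ≤ u) (hun : 320000 * u ≤ n) :
    (((n + 1).choose u : ℕ) : ℝ) * ((n.choose (6 * u) : ℕ) : ℝ) * (6 * (u : ℝ)) ^ (8 * u) ≤
      (n : ℝ) ^ (8 * u) * (1 / 4) ^ u := by
  have hu0 : (0 : ℝ) < u := by exact_mod_cast hu
  have hn0 : (0 : ℝ) < n := by
    have : 0 < n := by omega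
    exact_mod_cast this
  have h1 : (((n + 1).choose u : ℕ) : ℝ) ≤ (2 * n * Real.exp 1 / u) ^ u := by
    refine (Nat.choose_le_pow_div u (n + 1)).trans ?_
    have h2 := Real.pow_div_factorial_le_exp (u : ℝ) hu0.le u
    have h3 : (0 : ℝ) < (u.factorial : ℝ) := by exact_mod_cast Nat.factorial_pos u
    have h4 : (0 : ℝ) < (u : ℝ) ^ u := by positivity
    have h5 : (1 : ℝ) / u.factorial ≤ Real.exp u / (u : ℝ) ^ u := by
      rw [div_le_div_iff₀ h3 h4]
      rw [div_le_iff₀ h3] at h2
      linarith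
    have h6 : ((n + 1 : ℕ) : ℝ) ^ u ≤ (2 * n) ^ u := by
      apply pow_le_pow_left₀ (by positivity)
      have : (1 : ℝ) ≤ n := by exact_mod_cast (show 1 ≤ n by omega)
      push_cast; linarith
    calc ((n + 1 : ℕ) : ℝ) ^ u / u.factorial = ((n + 1 : ℕ) : ℝ) ^ u * (1 / u.factorial) := by ring
      _ ≤ (2 * n) ^ u * (Real.exp u / (u : ℝ) ^ u) := by
        apply mul_le_mul h6 h5 (by positivity) (by positivity)
      _ = (2 * n * Real.exp 1 / u) ^ u := by
        rw [div_pow, mul_pow _ (Real.exp 1), ← Real.exp_nat_mul, mul_one]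
        ring
  have h2 : ((n.choose (6 * u) : ℕ) : ℝ) ≤ (n * Real.exp 1 / (6 * u)) ^ (6 * u) := by
    refine (Nat.choose_le_pow_div (6 * u) n).trans ?_
    have h2 := Real.pow_div_factorial_le_exp ((6 * u : ℕ) : ℝ) (by positivity) (6 * u)
    have h3 : (0 : ℝ) < ((6 * u).factorial : ℝ) := by exact_mod_cast Nat.factorial_pos (6 * u)
    have h4 : (0 : ℝ) < ((6 * u : ℕ) : ℝ) ^ (6 * u) := by positivity
    have h5 : (1 : ℝ) / (6 * u).factorial ≤ Real.exp (6 * u : ℕ) / ((6 * u : ℕ) : ℝ) ^ (6 * u) := by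
      rw [div_le_div_iff₀ h3 h4]
      rw [div_le_iff₀ h3] at h2
      linarith
    calc (n : ℝ) ^ (6 * u) / (6 * u).factorial = (n : ℝ) ^ (6 * u) * (1 / (6 * u).factorial) := by
          ring
      _ ≤ (n : ℝ) ^ (6 * u) * (Real.exp (6 * u : ℕ) / ((6 * u : ℕ) : ℝ) ^ (6 * u)) := by
        apply mul_le_mul le_rfl h5 (by positivity) (by positivity)
      _ = (n * Real.exp 1 / (6 * u)) ^ (6 * u) := by
        rw [div_pow, mul_pow _ (Real.exp 1), ← Real.exp_nat_mul, mul_one]
        push_cast
        ring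
  have h3 : (((n + 1).choose u : ℕ) : ℝ) * ((n.choose (6 * u) : ℕ) : ℝ) * (6 * (u : ℝ)) ^ (8 * u)
      ≤ (2 * n * Real.exp 1 / u) ^ u * (n * Real.exp 1 / (6 * u)) ^ (6 * u) *
        (6 * (u : ℝ)) ^ (8 * u) := by
    apply mul_le_mul_of_nonneg_right _ (by positivity)
    exact mul_le_mul h1 h2 (by positivity) (by positivity)
  refine h3.trans ?_
  have h4 : (2 * n * Real.exp 1 / u) ^ u * (n * Real.exp 1 / (6 * u)) ^ (6 * u) *
        (6 * (u : ℝ)) ^ (8 * u) = (n : ℝ) ^ (8 * u) * (72 * (Real.exp 1) ^ 7 * (u / n)) ^ u := by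
    rw [pow_mul, pow_mul, pow_mul, ← mul_pow, ← mul_pow, ← mul_pow]
    congr 1
    field_simp
    ring
  rw [h4]
  apply mul_le_mul_of_nonneg_left _ (by positivity)
  apply pow_le_pow_left₀ (by positivity)
  have h5 : (u : ℝ) / n ≤ 1 / 320000 := by
    rw [div_le_div_iff₀ hn0 (by norm_num)]
    have : ((320000 * u : ℕ) : ℝ) ≤ n := by exact_mod_cast hun
    push_cast at this
    linarith
  have h6 : (Real.exp 1) ^ 7 ≤ 1100 := by
    have := Real.exp_one_lt_d9
    have h7 : (Real.exp 1) ^ 7 ≤ (2.7182818286 : ℝ) ^ 7 :=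
      pow_le_pow_left₀ (Real.exp_pos 1).le this.le 7
    refine h7.trans (by norm_num)
  have h7 : 72 * (Real.exp 1) ^ 7 * (u / n) ≤ 72 * 1100 * (1 / 320000) := by
    apply mul_le_mul _ h5 (by positivity) (by norm_num)
    linarith
  refine h7.trans (by norm_num)

theorem geom_quarter (m : ℕ) : ∑ u ∈ Icc 1 m, ((1 : ℝ) / 4) ^ u ≤ 1 / 3 := by
  have h : ∀ m : ℕ, ∑ u ∈ Icc 1 m, ((1 : ℝ) / 4) ^ u = (1 - (1 / 4) ^ m) / 3 := by
    intro m
    induction m with
    | zero => simp
    | succ m ih =>
      rw [sum_Icc_succ_top (by omega), ih]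
      rw [pow_succ]
      ring
  rw [h]
  have : (0 : ℝ) ≤ (1 / 4) ^ m := by positivity
  linarith

/-- The maps sending all pairs with first coordinate in `U` into `Q`. -/
def gset {M n : ℕ} (U : Finset (Fin M)) (Q : Finset (Fin n)) : Finset (Fin M × Fin 8 → Fin n) :=
  Fintype.piFinset fun p => if p.1 ∈ U then Q else univ

theorem card_gset {M n : ℕ} (U : Finset (Fin M)) (Q : Finset (Fin n)) :
    (gset U Q).card = Q.card ^ (8 * U.card) * n ^ (8 * (M - U.card)) := by
  unfold gset
  rw [Fintype.card_piFinset]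
  rw [Fintype.prod_prod_type]
  have h1 : ∀ v : Fin M, ∏ j : Fin 8, (if (v, j).1 ∈ U then Q else (univ : Finset (Fin n))).card =
      (if v ∈ U then Q.card else n) ^ 8 := by
    intro v
    by_cases hv : v ∈ U
    · simp [hv]
    · simp [hv]
  rw [prod_congr rfl fun v _ => h1 v, prod_pow, prod_ite, prod_const, prod_const]
  have h2 : (univ.filter fun v => v ∈ U) = U := by ext v; simp
  have h3 : (univ.filter fun v => v ∉ U).card = M - U.card := by
    have : (univ.filter fun v => v ∉ U) = Uᶜ := by ext v; simp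
    rw [this, card_compl, Fintype.card_fin]
  rw [h2, h3, mul_pow, ← pow_mul, ← pow_mul]
  congr 2 <;> ring

/-- A map `h` under which small sets of rows see many columns. -/
theorem exists_good_map (n : ℕ) (hn : 0 < n) : ∃ h : Fin (n + 1) × Fin 8 → Fin n,
    ∀ U : Finset (Fin (n + 1)), U.Nonempty → 320000 * U.card ≤ n →
      6 * U.card < ((U ×ˢ (univ : Finset (Fin 8))).image h).card := by
  classical
  by_contra hcon
  push Not at hcon
  have hcover : (univ : Finset (Fin (n + 1) × Fin 8 → Fin n)) ⊆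
      (Icc 1 (n / 320000)).biUnion fun u =>
        (powersetCard u (univ : Finset (Fin (n + 1))) ×ˢ
          powersetCard (6 * u) (univ : Finset (Fin n))).biUnion fun q => gset q.1 q.2 := by
    intro h _
    obtain ⟨U, hne, hU, hc⟩ := hcon h
    have hU1 : 1 ≤ U.card := card_pos.mpr hne
    obtain ⟨Q, hQ1, hQ2⟩ := exists_superset_card_eq (n := 6 * U.card) hc
      (by rw [Fintype.card_fin]; omega)
    rw [mem_biUnion]
    refine ⟨U.card, mem_Icc.mpr ⟨hU1, by omega⟩, ?_⟩
    rw [mem_biUnion]
    refine ⟨(U, Q), ?_, ?_⟩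
    · simp [mem_powersetCard, hQ2]
    · simp only [gset, Fintype.mem_piFinset]
      intro p
      by_cases hp : p.1 ∈ U
      · simp only [hp, if_true]
        apply hQ1
        rw [mem_image]
        exact ⟨p, by simp [hp], rfl⟩
      · simp [hp]
  have hcard := (card_le_card hcover).trans card_biUnion_le
  have hcard2 : n ^ (8 * (n + 1)) ≤ ∑ u ∈ Icc 1 (n / 320000),
      (n + 1).choose u * n.choose (6 * u) * ((6 * u) ^ (8 * u) * n ^ (8 * (n + 1 - u))) := by
    have e0 : (univ : Finset (Fin (n + 1) × Fin 8 → Fin n)).card = n ^ (8 * (n + 1)) := by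
      rw [card_univ, Fintype.card_fun]
      simp only [Fintype.card_fin, Fintype.card_prod]
      congr 1
      ring
    rw [e0] at hcard
    refine hcard.trans (sum_le_sum fun u _ => ?_)
    refine card_biUnion_le.trans ?_
    have : ∀ q ∈ (powersetCard u (univ : Finset (Fin (n + 1))) ×ˢ
          powersetCard (6 * u) (univ : Finset (Fin n))),
        (gset q.1 q.2).card = (6 * u) ^ (8 * u) * n ^ (8 * (n + 1 - u)) := by
      intro q hq
      rw [mem_product, mem_powersetCard, mem_powersetCard] at hq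
      rw [card_gset, hq.1.2, hq.2.2]
    rw [sum_congr rfl this, sum_const, card_product, card_powersetCard, card_powersetCard,
      card_univ, card_univ, Fintype.card_fin, Fintype.card_fin, smul_eq_mul]
  have hn0 : (0 : ℝ) < n := by exact_mod_cast hn
  have hreal : ((n : ℝ)) ^ (8 * (n + 1)) ≤ ∑ u ∈ Icc 1 (n / 320000),
      (n : ℝ) ^ (8 * (n + 1)) * (1 / 4) ^ u := by
    have : ((n ^ (8 * (n + 1)) : ℕ) : ℝ) ≤ ((∑ u ∈ Icc 1 (n / 320000),
      (n + 1).choose u * n.choose (6 * u) * ((6 * u) ^ (8 * u) * n ^ (8 * (n + 1 - u))) : ℕ) : ℝ) :=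
      by exact_mod_cast hcard2
    push_cast at this
    refine this.trans (sum_le_sum fun u hu => ?_)
    rw [mem_Icc] at hu
    have hb := choose_bound n u hu.1 (by omega)
    have hexp : (n : ℝ) ^ (8 * (n + 1)) = (n : ℝ) ^ (8 * u) * (n : ℝ) ^ (8 * (n + 1 - u)) := by
      rw [← pow_add]
      congr 1
      omega
    rw [hexp]
    have hp : (0 : ℝ) ≤ (n : ℝ) ^ (8 * (n + 1 - u)) := by positivity
    calc (((n + 1).choose u : ℕ) : ℝ) * ((n.choose (6 * u) : ℕ) : ℝ) *
          ((6 * (u : ℝ)) ^ (8 * u) * (n : ℝ) ^ (8 * (n + 1 - u)))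
        = ((((n + 1).choose u : ℕ) : ℝ) * ((n.choose (6 * u) : ℕ) : ℝ) *
          (6 * (u : ℝ)) ^ (8 * u)) * (n : ℝ) ^ (8 * (n + 1 - u)) := by ring
      _ ≤ ((n : ℝ) ^ (8 * u) * (1 / 4) ^ u) * (n : ℝ) ^ (8 * (n + 1 - u)) :=
        mul_le_mul_of_nonneg_right hb hp
      _ = (n : ℝ) ^ (8 * u) * (n : ℝ) ^ (8 * (n + 1 - u)) * (1 / 4) ^ u := by ring
  rw [← mul_sum] at hreal
  have hg := geom_quarter (n / 320000)
  have hp : (0 : ℝ) < (n : ℝ) ^ (8 * (n + 1)) := by positivity
  nlinarith

/-- Sparse expanding system with one more row than columns. -/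
theorem exists_expander (n : ℕ) (hn : 0 < n) : ∃ R : Fin (n + 1) → Fin n → ZMod 2,
    (∀ v, (univ.filter fun i => R v i ≠ 0).card ≤ 8) ∧ Expd R (n / 320000) := by
  classical
  obtain ⟨h, hh⟩ := exists_good_map n hn
  refine ⟨fun v i => ((univ.filter fun j => h (v, j) = i).card : ZMod 2), ?_, ?_⟩
  · intro v
    have : (univ.filter fun i => ((univ.filter fun j => h (v, j) = i).card : ZMod 2) ≠ 0) ⊆
        (univ : Finset (Fin 8)).image fun j => h (v, j) := by
      intro i hi
      rw [mem_filter] at hi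
      rw [mem_image]
      by_contra hne
      apply hi.2
      have : (univ.filter fun j => h (v, j) = i) = ∅ := by
        ext j
        simp only [mem_filter, mem_univ, true_and, notMem_empty, iff_false]
        intro hj
        exact hne ⟨j, mem_univ _, hj⟩
      rw [this]; simp
    refine (card_le_card this).trans (card_image_le.trans ?_)
    simp
  · intro U hU
    by_cases hne : U.Nonempty
    swap
    · rw [not_nonempty_iff_eq_empty] at hne
      simp [hne]
    have hU' : 320000 * U.card ≤ n := by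
      have := Nat.mul_le_mul_left 320000 hU
      have := Nat.mul_div_le n 320000
      omega
    have hlt := hh U hne hU'
    set P := U ×ˢ (univ : Finset (Fin 8)) with hP
    have hPc : P.card = 8 * U.card := by
      rw [hP, card_product]; simp [mul_comm]
    have hsum : ∀ i : Fin n, ∑ v ∈ U, ((univ.filter fun j => h (v, j) = i).card : ZMod 2) =
        ((P.filter fun p => h p = i).card : ZMod 2) := by
      intro i
      rw [← Nat.cast_sum]
      congr 1
      rw [hP, card_filter, sum_product]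
      exact sum_congr rfl fun v _ => by rw [card_filter]
    simp_rw [hsum]
    have hfib : P.card = ∑ i ∈ P.image h, (P.filter fun p => h p = i).card :=
      card_eq_sum_card_image h P
    have hterm : ∀ i ∈ P.image h, 2 ≤ (P.filter fun p => h p = i).card +
        (if ((P.filter fun p => h p = i).card : ZMod 2) ≠ 0 then 1 else 0) := by
      intro i hi
      obtain ⟨p, hp, hpi⟩ := mem_image.mp hi
      have h1 : 1 ≤ (P.filter fun p => h p = i).card :=
        card_pos.mpr ⟨p, mem_filter.mpr ⟨hp, hpi⟩⟩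
      rcases Nat.lt_or_ge 1 (P.filter fun p => h p = i).card with h2 | h2
      · omega
      · have h3 : (P.filter fun p => h p = i).card = 1 := by omega
        rw [h3]; simp
    have h4 := sum_le_sum hterm
    rw [sum_const, smul_eq_mul, sum_add_distrib, ← hfib, ← card_filter] at h4
    have h5 : ((P.image h).filter fun i => ((P.filter fun p => h p = i).card : ZMod 2) ≠ 0).card ≤
        (univ.filter fun i => ((P.filter fun p => h p = i).card : ZMod 2) ≠ 0).card :=
      card_le_card (filter_subset_filter _ (subset_univ _))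
    omega

/-- a right-hand side making an overdetermined system unsatisfiable -/
theorem exists_rhs (n : ℕ) (R : Fin (n + 1) → Fin n → ZMod 2) : ∃ b : Fin (n + 1) → ZMod 2,
    ∀ y : Fin n → ZMod 2, ∃ v, val R b y v ≠ 0 := by
  by_contra hcon
  push Not at hcon
  choose f hf using hcon
  have hinj : Function.Injective f := by
    intro b b' hbb
    funext v
    have h1 := hf b v
    have h2 := hf b' v
    rw [hbb] at h1
    unfold val at h1 h2
    have : b v - b' v = 0 := by linear_combination h1 - h2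
    exact sub_eq_zero.mp this
  have := Fintype.card_le_of_injective f hinj
  rw [Fintype.card_fun, Fintype.card_fun] at this
  simp only [Fintype.card_fin, ZMod.card] at this
  have h2 : 2 ^ n < 2 ^ (n + 1) := Nat.pow_lt_pow_right (by norm_num) (by omega)
  omega

end H542
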