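import Mathlib
import Pool.Agent.H542R2.Process
import Pool.Agent.H542R2.Expander

/-!
The lifted system: every variable of an expanding linear system is replaced by the parity of a
block of variables.
-/

namespace H542

open Finset

variable {V : Type} [DecidableEq V] [Fintype V] {n M : ℕ}

/-- bit as an element of `ZMod 2` -/
def bz (b : Bool) : ZMod 2 := if b then 1 else 0

/-- variables of the lifted equation `v` -/
def eqv (blk : V → Fin n) (R : Fin M → Fin n → ZMod 2) (v : Fin M) : Finset V :=
  univ.filter fun x => R v (blk x) ≠ 0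

/-- extension of a base assignment by a restriction -/
def ext (blk : V → Fin n) (U : Finset V) (ρ : V → Bool) (y : Fin n → ZMod 2) (x : V) : Bool :=
  if x ∈ U then decide (y (blk x) = 1) else ρ x

theorem bz_decide (a : ZMod 2) : bz (decide (a = 1)) = a := by
  revert a; decide

theorem zmod2_mul_eq (a c : ZMod 2) : a * c = if a ≠ 0 then c else 0 := by
  revert a c; decide

omit [DecidableEq V] [Fintype V] in
theorem card_true_eq (B : Finset V) (z : V → Bool) :
    ((B.filter fun x => z x = true).card : ZMod 2) = ∑ x ∈ B, bz (z x) := by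
  rw [card_filter]
  push_cast
  exact sum_congr rfl fun x _ => by unfold bz; cases z x <;> simp

theorem sum_eqv_ext (blk : V → Fin n) (R : Fin M → Fin n → ZMod 2) (v : Fin M) (U : Finset V)
    (hU : ∀ i, cnt blk U i = 1) (ρ : V → Bool) (y : Fin n → ZMod 2) :
    ∑ x ∈ eqv blk R v, bz (ext blk U ρ y x) =
      ∑ i, R v i * y i + ∑ x ∈ (eqv blk R v).filter (fun x => x ∉ U), bz (ρ x) := by
  rw [← sum_filter_add_sum_filter_not (eqv blk R v) (fun x => x ∈ U)]
  congr 1
  · have h1 : ∑ x ∈ (eqv blk R v).filter (fun x => x ∈ U), bz (ext blk U ρ y x) =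
        ∑ x ∈ U, R v (blk x) * y (blk x) := by
      have h2 : (eqv blk R v).filter (fun x => x ∈ U) = U.filter (fun x => R v (blk x) ≠ 0) := by
        ext x
        simp only [eqv, mem_filter, mem_univ, true_and]
        tauto
      rw [h2, sum_filter]
      refine sum_congr rfl fun x hx => ?_
      rw [zmod2_mul_eq]
      unfold ext
      rw [if_pos hx, bz_decide]
    rw [h1, ← sum_fiberwise U blk]
    refine sum_congr rfl fun i _ => ?_
    have h3 : ∑ x ∈ U.filter (fun x => blk x = i), R v (blk x) * y (blk x) =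
        ∑ x ∈ U.filter (fun x => blk x = i), R v i * y i :=
      sum_congr rfl fun x hx => by rw [(mem_filter.mp hx).2]
    rw [h3, sum_const]
    have h4 : (U.filter (fun x => blk x = i)).card = 1 := hU i
    rw [h4, one_smul]
  · refine sum_congr rfl fun x hx => ?_
    unfold ext
    rw [if_neg (mem_filter.mp hx).2]

omit [DecidableEq V] in
theorem sum_eqv (blk : V → Fin n) (R : Fin M → Fin n → ZMod 2) (v : Fin M) (z : V → Bool) :
    ∑ x ∈ eqv blk R v, bz (z x) =
      ∑ i, R v i * ∑ x ∈ univ.filter (fun x => blk x = i), bz (z x) := by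
  unfold eqv
  rw [sum_filter, ← sum_fiberwise univ blk]
  refine sum_congr rfl fun i _ => ?_
  rw [mul_sum]
  refine sum_congr rfl fun x hx => ?_
  rw [zmod2_mul_eq, (mem_filter.mp hx).2]

/-- The lower bound for the lifted system, for lines given as formulas or constants.
`ax v z` says that the line follows from the lifted equation `v`, in the weak form: it holds
whenever the parity of the equation has the right value. -/
theorem lift_no_ref (blk : V → Fin n) (hn : 0 < n) (R : Fin M → Fin n → ZMod 2)
    (b : Fin M → ZMod 2) (u0 : ℕ) (hR : Expd R u0)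
    (hw8 : ∀ v, (univ.filter fun i => R v i ≠ 0).card ≤ 8)
    (k : ℕ) (hk1 : 1 ≤ k) (hk : ∀ i, k ≤ cnt blk univ i) {S : ℕ} (φ : Fin S → T V ⊕ Bool)
    (r s a : ℕ) (hr : 1 ≤ r) (hs : ∀ j, leavess (φ j) ≤ s) (K w : ℕ) (hw : 22 * (K * r) ≤ w)
    (hw1 : 1 ≤ w) (hmain : (S : ℝ) * Real.exp ((s / r : ℕ) / k) * (th k * s) ^ K < (w : ℝ) ^ K)
    (hah : (a + 1) * (s / r + w) + 8 ≤ 2 * u0)
    (hstep : ∀ j, (∃ v, ∀ z : V → Bool, ∑ x ∈ eqv blk R v, bz (z x) = b v → evs z (φ j) = true) ∨
      ∃ P : Finset (Fin S), P.card ≤ a ∧ (∀ p ∈ P, p < j) ∧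
        ∀ z, (∀ p ∈ P, evs z (φ p) = true) → evs z (φ j) = true) (j : Fin S) :
    ∃ z, evs z (φ j) = true := by
  classical
  have : Nonempty (Fin n) := ⟨⟨0, hn⟩⟩
  obtain ⟨U, ρ, hU1, hlines⟩ := shrink_lines (blk := blk) k hk1 hk φ r s hr hs K w hw hw1 hmain
  let b' : Fin M → ZMod 2 := fun v =>
    b v + ∑ x ∈ (eqv blk R v).filter (fun x => x ∉ U), bz (ρ x)
  obtain ⟨y, hy⟩ := no_ref (R := R) (b := b') (u0 := u0) hR 8 (by norm_num) hw8 a (s / r + w) hah
    (fun j y => evs (ext blk U ρ y) (φ j)) (by
      intro p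
      obtain ⟨Hj, hHU, hHc, hα⟩ := hlines p
      refine ⟨Hj.image blk, fun α => ?_⟩
      obtain ⟨W, hWU, hWc, hW⟩ := hα (ext blk U ρ α)
      refine ⟨Hj.image blk ∪ W.image blk, subset_union_left, ?_, ?_⟩
      · refine (card_union_le _ _).trans (add_le_add ?_ ?_)
        · exact card_image_le.trans hHc
        · exact card_image_le.trans hWc
      · intro y y' hy hyy
        have e1 : ∀ (y : Fin n → ZMod 2) (v : V), v ∉ U → ext blk U ρ y v = ρ v := by
          intro y v hv; unfold ext; rw [if_neg hv]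
        have e2 : ∀ (y y' : Fin n → ZMod 2) (v : V), y (blk v) = y' (blk v) →
            ext blk U ρ y v = ext blk U ρ y' v := by
          intro y y' v h; unfold ext; rw [h]
        refine hW (ext blk U ρ y) (ext blk U ρ y') (e1 y) (e1 y') ?_ ?_ ?_
        · intro v hv
          exact e2 y α v (hy _ (mem_image_of_mem _ hv))
        · intro v hv
          have h1 := hyy _ (mem_union_left _ (mem_image_of_mem blk hv))
          have h2 := hy _ (mem_image_of_mem blk hv)
          exact e2 y' α v (h1.symm.trans h2)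
        · intro v hv
          exact e2 y y' v (hyy _ (mem_union_right _ (mem_image_of_mem blk hv)))) (by
      intro j
      rcases hstep j with ⟨v, hv⟩ | ⟨P, hP1, hP2, hP3⟩
      · left
        refine ⟨v, fun y hy => hv _ ?_⟩
        rw [sum_eqv_ext blk R v U hU1 ρ y]
        have h1 : b v + ∑ x ∈ (eqv blk R v).filter (fun x => x ∉ U), bz (ρ x) +
            ∑ i, R v i * y i = 0 := hy
        have h2 : b v + b v = 0 := CharTwo.add_self_eq_zero _
        linear_combination h1 - h2
      · right
        exact ⟨P, hP1, hP2, fun y hy => hP3 _ hy⟩) j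
  exact ⟨_, hy⟩

end H542
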