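import Mathlib

/-!
Numerical conclusions.
-/

namespace H542PM

theorem ev_exp (K : ℕ) : ∃ N1 : ℕ, ∀ N ≥ N1,
    (N : ℝ) ^ K ≤ (2 : ℝ) ^ ((N : ℝ) / 10000000 / 4) := by
  have hb : (1 : ℝ) < (2 : ℝ) ^ ((1 : ℝ) / 10000000 / 4) :=
    Real.one_lt_rpow (by norm_num) (by norm_num)
  have h1 := tendsto_pow_const_div_const_pow_of_one_lt K hb
  have h2 : ∀ᶠ n : ℕ in Filter.atTop,
      (n : ℝ) ^ K / ((2 : ℝ) ^ ((1 : ℝ) / 10000000 / 4)) ^ n < 1 :=
    h1.eventually_lt_const one_pos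
  obtain ⟨N1, hN1⟩ := Filter.eventually_atTop.mp h2
  refine ⟨N1, fun N hN => ?_⟩
  have h3 := hN1 N hN
  have hpos : (0 : ℝ) < ((2 : ℝ) ^ ((1 : ℝ) / 10000000 / 4)) ^ N := by positivity
  rw [div_lt_one hpos] at h3
  refine h3.le.trans (le_of_eq ?_)
  rw [← Real.rpow_natCast ((2 : ℝ) ^ ((1 : ℝ) / 10000000 / 4)) N,
    ← Real.rpow_mul (by norm_num)]
  congr 1
  ring

theorem num_lin {x X S : ℝ} (hx : 0 ≤ x) (hS : 0 ≤ S) (hX : 2 * X ≤ (2 : ℝ) ^ (x / 4))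
    (h : 1 / 2 ≤ S * (X * (2 : ℝ) ^ (-x))) : (2 : ℝ) ^ (x / 2) ≤ S := by
  have h1 : (0 : ℝ) < (2 : ℝ) ^ (-x) := by positivity
  have h2 : 1 ≤ S * ((2 : ℝ) ^ (x / 4) * (2 : ℝ) ^ (-x)) := by
    have h3 : S * (2 * X * (2 : ℝ) ^ (-x)) ≤ S * ((2 : ℝ) ^ (x / 4) * (2 : ℝ) ^ (-x)) :=
      mul_le_mul_of_nonneg_left (mul_le_mul_of_nonneg_right hX h1.le) hS
    nlinarith
  rw [← Real.rpow_add (by norm_num)] at h2
  have h4 : S * (2 : ℝ) ^ (x / 4 + -x) ≤ S * (2 : ℝ) ^ (-(x / 2)) := by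
    apply mul_le_mul_of_nonneg_left _ hS
    apply Real.rpow_le_rpow_of_exponent_le (by norm_num)
    linarith
  have h5 : (2 : ℝ) ^ (x / 2) * 1 ≤ (2 : ℝ) ^ (x / 2) * (S * (2 : ℝ) ^ (-(x / 2))) :=
    mul_le_mul_of_nonneg_left (h2.trans h4) (by positivity)
  have h6 : (2 : ℝ) ^ (x / 2) * (S * (2 : ℝ) ^ (-(x / 2))) = S := by
    rw [mul_comm S, ← mul_assoc, ← Real.rpow_add (by norm_num)]
    simp
  rw [h6, mul_one] at h5
  exact h5

theorem num_dag {N a k D : ℕ} {S : ℝ} (hN : 80000000 ≤ N) (ha1 : 1 ≤ a) (haN : a ≤ N ^ k)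
    (hev : (N : ℝ) ^ (k + 1) ≤ (2 : ℝ) ^ ((N : ℝ) / 10000000 / 4)) (hS : 2 ≤ S)
    (hdepth : 1 / 2 ≤ ((a : ℝ) + 1) ^ (2 * D) * (2 : ℝ) ^ (-((N : ℝ) / 10000000)))
    (hdag : ∀ l d : ℕ, a * l + 2 ≤ N ^ (k + 2) → D ≤ d * l →
      1 / 2 ≤ (2 * S) ^ d * (((a : ℝ) ^ l + 1) * (2 : ℝ) ^ (-((N : ℝ) / 10000000)))) :
    (1 / 6400000000000000 : ℝ) * N ≤ D * Real.logb 2 (a + 1) ∧
      (1 / 6400000000000000 : ℝ) * N ^ 2 ≤ D * Real.logb 2 (a + 1) * Real.logb 2 S := by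
  obtain ⟨x, hx⟩ : ∃ x : ℝ, x = (N : ℝ) / 10000000 := ⟨_, rfl⟩
  rw [← hx] at hev hdepth hdag
  have hNR : (80000000 : ℝ) ≤ N := by exact_mod_cast hN
  have hx8 : 8 ≤ x := by rw [hx]; linarith
  obtain ⟨y, hy⟩ : ∃ y : ℝ, y = Real.logb 2 (a + 1) := ⟨_, rfl⟩
  rw [← hy]
  have ha1R : (1 : ℝ) ≤ a := by exact_mod_cast ha1
  have ha0 : (0 : ℝ) < (a : ℝ) + 1 := by linarith
  have hy1 : 1 ≤ y := by
    rw [hy, Real.le_logb_iff_rpow_le (by norm_num) ha0]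
    simp only [Real.rpow_one]
    linarith
  have hpow : ∀ m : ℕ, ((a : ℝ) + 1) ^ m = (2 : ℝ) ^ (y * m) := by
    intro m
    rw [Real.rpow_mul (by norm_num), hy, Real.rpow_logb (by norm_num) (by norm_num) ha0,
      Real.rpow_natCast]
  have hyx : y ≤ x / 4 := by
    have h1 : (a : ℝ) + 1 ≤ (2 : ℝ) ^ (x / 4) := by
      refine le_trans ?_ hev
      have h2 : (a : ℝ) ≤ (N : ℝ) ^ k := by exact_mod_cast haN
      have h3 : (1 : ℝ) ≤ (N : ℝ) ^ k := one_le_pow₀ (by linarith)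
      have h4 : (N : ℝ) ^ (k + 1) = (N : ℝ) ^ k * N := by ring
      rw [h4]
      nlinarith
    rw [hy, Real.logb_le_iff_le_rpow (by norm_num) ha0]
    exact h1
  -- depth
  have hd1 : x / 4 ≤ D * y := by
    rw [hpow, ← Real.rpow_add (by norm_num)] at hdepth
    have h1 : (2 : ℝ) ^ (-1 : ℝ) ≤ (2 : ℝ) ^ (y * ((2 * D : ℕ) : ℝ) + -x) := by
      rw [Real.rpow_neg_one]
      linarith
    have h2 := (Real.rpow_le_rpow_left_iff (by norm_num : (1 : ℝ) < 2)).mp h1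
    push_cast at h2
    nlinarith
  -- the length of the walks
  obtain ⟨w, hw⟩ : ∃ w : ℝ, w = x / 4 / y := ⟨_, rfl⟩
  have hy0 : 0 < y := by linarith
  have hw1 : 1 ≤ w := by
    rw [hw, le_div_iff₀ hy0]
    linarith
  have hwy : y * w = x / 4 := by
    rw [hw]; field_simp
  obtain ⟨l, hl⟩ : ∃ l : ℕ, l = ⌊w⌋₊ := ⟨_, rfl⟩
  have hl1 : 1 ≤ l := by
    rw [hl]
    exact Nat.le_floor (by exact_mod_cast hw1)
  have hlw : (l : ℝ) ≤ w := by
    rw [hl]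
    exact Nat.floor_le (by linarith)
  have hwl : w < l + 1 := by
    rw [hl]
    exact Nat.lt_floor_add_one w
  have hl1R : (1 : ℝ) ≤ l := by exact_mod_cast hl1
  have hwl2 : w ≤ 2 * l := by linarith
  have hDw : w ≤ D := by
    rw [hw, div_le_iff₀ hy0]
    exact hd1
  have hDl : (l : ℝ) ≤ D := hlw.trans hDw
  have hwN : w ≤ N := by
    have h1 : w ≤ y * w := by nlinarith
    rw [hwy, hx] at h1
    linarith
  have hlN : l ≤ N := by
    have : (l : ℝ) ≤ N := hlw.trans hwN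
    exact_mod_cast this
  have hq : a * l + 2 ≤ N ^ (k + 2) := by
    have h1 : N ^ (k + 2) = N ^ k * N * N := by ring
    have h2 : 1 ≤ N ^ k := Nat.one_le_pow _ _ (by omega)
    have h3 : a * l ≤ N ^ k * N := Nat.mul_le_mul haN hlN
    have h4 : 2 ≤ N ^ k * N := by nlinarith
    rw [h1]
    nlinarith
  obtain ⟨d, hd⟩ : ∃ d : ℕ, d = D / l + 1 := ⟨_, rfl⟩
  have hDd : D ≤ d * l := by
    rw [hd]
    have := Nat.lt_div_mul_add (a := D) (b := l) (by omega)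
    rw [add_mul, one_mul]
    exact this.le
  have hmain := hdag l d hq hDd
  -- upper bound for d
  have hdD : (d : ℝ) * l ≤ 2 * D := by
    have h1 : D / l * l ≤ D := Nat.div_mul_le_self D l
    have h2 : (((D / l : ℕ) : ℝ)) * l ≤ D := by exact_mod_cast h1
    rw [hd]
    push_cast
    nlinarith
  -- lower bound for d log S
  have hS0 : 0 < S := by linarith
  have hlogS : 1 ≤ Real.logb 2 S := by
    rw [Real.le_logb_iff_rpow_le (by norm_num) hS0]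
    simpa using hS
  obtain ⟨z, hz⟩ : ∃ z : ℝ, z = Real.logb 2 S := ⟨_, rfl⟩
  have hzS : (2 : ℝ) ^ z = S := by
    rw [hz]
    exact Real.rpow_logb (by norm_num) (by norm_num) hS0
  rw [← hz] at hlogS ⊢
  have hdz : x / 4 ≤ d * z := by
    have h1 : (a : ℝ) ^ l + 1 ≤ (2 : ℝ) ^ (x / 4 + 1) := by
      have h2 : (a : ℝ) ^ l ≤ (2 : ℝ) ^ (x / 4) := by
        calc (a : ℝ) ^ l ≤ ((a : ℝ) + 1) ^ l := pow_le_pow_left₀ (by linarith) (by linarith) l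
          _ = (2 : ℝ) ^ (y * l) := hpow l
          _ ≤ (2 : ℝ) ^ (x / 4) := by
              apply Real.rpow_le_rpow_of_exponent_le (by norm_num)
              rw [← hwy]
              exact mul_le_mul_of_nonneg_left hlw hy0.le
      have h3 : (1 : ℝ) ≤ (2 : ℝ) ^ (x / 4) := Real.one_le_rpow (by norm_num) (by linarith)
      rw [Real.rpow_add (by norm_num), Real.rpow_one]
      linarith
    have h2 : (2 * S) ^ d ≤ (2 : ℝ) ^ (2 * z * d) := by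
      have h3 : 2 * S ≤ (2 : ℝ) ^ (2 * z) := by
        rw [two_mul z, Real.rpow_add (by norm_num), hzS]
        nlinarith
      calc (2 * S) ^ d ≤ ((2 : ℝ) ^ (2 * z)) ^ d := pow_le_pow_left₀ (by linarith) h3 d
        _ = (2 : ℝ) ^ (2 * z * d) := by
            rw [← Real.rpow_natCast, ← Real.rpow_mul (by norm_num)]
    have h3 : (2 : ℝ) ^ (-1 : ℝ) ≤ (2 : ℝ) ^ (2 * z * d + (x / 4 + 1 + -x)) := by
      rw [Real.rpow_neg_one, Real.rpow_add (by norm_num), Real.rpow_add (by norm_num)]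
      have h4 : (0 : ℝ) < (2 : ℝ) ^ (-x) := by positivity
      have h5 : (0 : ℝ) < (2 : ℝ) ^ (2 * z * d) := by positivity
      have h6 : ((a : ℝ) ^ l + 1) * (2 : ℝ) ^ (-x) ≤ (2 : ℝ) ^ (x / 4 + 1) * (2 : ℝ) ^ (-x) :=
        mul_le_mul_of_nonneg_right h1 h4.le
      have h7 : (2 * S) ^ d * (((a : ℝ) ^ l + 1) * (2 : ℝ) ^ (-x)) ≤
          (2 : ℝ) ^ (2 * z * d) * ((2 : ℝ) ^ (x / 4 + 1) * (2 : ℝ) ^ (-x)) :=
        mul_le_mul h2 h6 (by positivity) h5.le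
      linarith
    have h4 := (Real.rpow_le_rpow_left_iff (by norm_num : (1 : ℝ) < 2)).mp h3
    nlinarith
  constructor
  · have : (1 / 6400000000000000 : ℝ) * N ≤ x / 4 := by
      rw [hx]; linarith
    linarith
  · -- x/4 ≤ d z,  d l ≤ 2 D,  w ≤ 2 l,  y w = x/4
    have hz0 : 0 ≤ z := by linarith
    have hD0 : (0 : ℝ) ≤ D := by positivity
    have e1 : (x / 4) * l ≤ (2 * D) * z := by
      calc (x / 4) * l ≤ (d * z) * l := mul_le_mul_of_nonneg_right hdz (by linarith)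
        _ = (d * l) * z := by ring
        _ ≤ (2 * D) * z := mul_le_mul_of_nonneg_right hdD hz0
    have e2 : (x / 4) * w ≤ 4 * (D * z) := by
      calc (x / 4) * w ≤ (x / 4) * (2 * l) := mul_le_mul_of_nonneg_left hwl2 (by linarith)
        _ = 2 * ((x / 4) * l) := by ring
        _ ≤ 2 * ((2 * D) * z) := mul_le_mul_of_nonneg_left e1 (by norm_num)
        _ = 4 * (D * z) := by ring
    have e3 : (x / 4) * (x / 4) ≤ 4 * (D * y * z) := by
      calc (x / 4) * (x / 4) = ((x / 4) * w) * y := by rw [← hwy]; ring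
        _ ≤ (4 * (D * z)) * y := mul_le_mul_of_nonneg_right e2 hy0.le
        _ = 4 * (D * y * z) := by ring
    have e4 : (x / 4) * (x / 4) = 4 * ((1 / 6400000000000000 : ℝ) * N ^ 2) := by
      rw [hx]; ring
    linarith

end H542PM
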