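import Mathlib
import Pool.Agent.H542R2.BlockMoment

/-!
Existence of hash tables `h` such that every small formula in the block variables and the
pointers becomes a shallow decision tree under most restrictions given by `h`.
-/

namespace H542

open Finset

section Codes

variable {V : Type}

/-- one step of the stack machine reading a formula in postfix order -/
def pushS : List (T V) → Option ((V × Bool) ⊕ Bool) → List (T V)
  | st, none => st
  | st, some (.inl (v, b)) => .lit v b :: st
  | g :: f :: st, some (.inr c) => .nd c f g :: st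
  | st, some (.inr _) => st

/-- postfix order -/
def encL : T V → List (Option ((V × Bool) ⊕ Bool))
  | .lit v b => [some (.inl (v, b))]
  | .nd c f g => encL f ++ encL g ++ [some (.inr c)]

theorem foldl_enc (f : T V) (st : List (T V)) : (encL f).foldl pushS st = f :: st := by
  induction f generalizing st with
  | lit v b => rfl
  | nd c f g hf hg =>
    simp only [encL, List.foldl_append, hf, hg]
    rfl

theorem length_enc (f : T V) : (encL f).length + 1 = 2 * f.leaves := by
  induction f with
  | lit v b => rfl
  | nd c f g hf hg =>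
    simp only [encL, List.length_append, T.leaves, List.length_singleton]
    omega

theorem foldl_none (m : ℕ) (st : List (T V)) :
    (List.replicate m (none : Option ((V × Bool) ⊕ Bool))).foldl pushS st = st := by
  induction m generalizing st with
  | zero => rfl
  | succ m ih =>
    rw [List.replicate_succ, List.foldl_cons]
    exact ih st

/-- reading a code -/
def decode {m : ℕ} (c : Fin m → Option ((V × Bool) ⊕ Bool)) : Option (T V) :=
  ((List.ofFn c).foldl pushS []).head?

theorem exists_ofFn {α : Type} (l : List α) (m : ℕ) (hl : l.length = m) :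
    ∃ c : Fin m → α, List.ofFn c = l := by
  subst hl
  exact ⟨l.get, List.ofFn_get l⟩

theorem exists_code (s : ℕ) (f : T V) (hf : f.leaves ≤ s) :
    ∃ c : Fin (2 * s) → Option ((V × Bool) ⊕ Bool), decode c = some f := by
  have h1 := length_enc f
  have h2 := f.leaves_pos
  obtain ⟨c, hc⟩ := exists_ofFn (encL f ++ List.replicate (2 * s - (encL f).length) none)
    (2 * s) (by rw [List.length_append, List.length_replicate]; omega)
  refine ⟨c, ?_⟩
  unfold decode
  rw [hc, List.foldl_append, foldl_enc, foldl_none]
  rfl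

end Codes

section Inst

variable {A W : Type}

/-- fixing the variables of the second kind -/
def inst (z : W → Bool) : T (A ⊕ W) → T A ⊕ Bool
  | .lit (.inl v) s => .inl (.lit v s)
  | .lit (.inr w) s => .inr (z w == s)
  | .nd c f g => comb c (inst z f) (inst z g)

theorem evs_inst (z : W → Bool) (x : A → Bool) (f : T (A ⊕ W)) :
    evs x (inst z f) = f.ev (Sum.elim x z) := by
  induction f with
  | lit v s => rcases v with v | w <;> rfl
  | nd c f g hf hg => simp only [inst, evs_comb, hf, hg, T.ev]

theorem leavess_inst (z : W → Bool) (f : T (A ⊕ W)) : leavess (inst z f) ≤ f.leaves := by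
  induction f with
  | lit v s => rcases v with v | w <;> simp [inst, leavess, T.leaves]
  | nd c f g hf hg =>
    exact (leavess_comb _ _ _).trans (add_le_add hf hg)

end Inst

variable {ι Jt κt : Type} [Fintype ι] [DecidableEq ι] [Fintype Jt] [DecidableEq Jt]
  [Fintype κt] [DecidableEq κt]

/-- the assignment of all variables: survivors `J` with values `y`, other block variables `x`,
pointers `p` -/
def full (p : ι → κt → Bool) (J : ι → Jt) (x : ι × Jt → Bool) (y : ι → Bool) :
    (ι × Jt) ⊕ (ι × κt) → Bool :=
  Sum.elim (mv J x y) (fun w => p w.1 w.2)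

theorem exists_hash (t : ℝ) (ht : 0 < t) (M : ℝ) (s : ℕ) [Nonempty Jt] (hM0 : 0 ≤ M)
    (hM : ∀ ψ : T (ι × Jt) ⊕ Bool, leavess ψ ≤ s →
      ∑ J : ι → Jt, ∑ x : ι × Jt → Bool, Real.exp (t * dep fun y => evs (mv J x y) ψ) ≤
      ((Fintype.card Jt : ℝ) ^ Fintype.card ι * 2 ^ Fintype.card (ι × Jt)) * M)
    (d0 m : ℕ) (τ : ℝ) (hτ : 0 < τ)
    (hlt : (Fintype.card (Fin (2 * s) → Option ((((ι × Jt) ⊕ (ι × κt)) × Bool) ⊕ Bool)) : ℝ) *
      (M * Real.exp (-(t * d0)) * Real.exp ((Fintype.card ι : ℝ) *
        ((2 * Real.exp t - 1) * m / Fintype.card (κt → Bool)))) ^ m < τ ^ m) :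
    ∃ h : ι → (κt → Bool) → Jt, ∀ (L : Type) [Fintype L]
      (ψ : L → T ((ι × Jt) ⊕ (ι × κt)) ⊕ Bool), (∀ l, leavess (ψ l) ≤ s) →
      (Fintype.card L : ℝ) * τ ≤ 1 →
      ∃ (p : ι → κt → Bool) (x : ι × Jt → Bool), ∀ l,
        dep (fun y => evs (full p (fun i => h i (p i)) x y) (ψ l)) ≤ d0 := by
  classical
  set X2 : ℝ := 2 ^ Fintype.card (ι × Jt) with hX2
  have hX20 : 0 < X2 := by positivity
  let Cd := Fin (2 * s) → Option ((((ι × Jt) ⊕ (ι × κt)) × Bool) ⊕ Bool)
  let q : Cd → (ι → κt → Bool) → (ι → Jt) → (ι × Jt → Bool) → ℝ := fun c p J x =>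
    match decode c with
    | some f => if f.leaves ≤ s then
        Real.exp (t * dep (fun y => f.ev (full p J x y))) * Real.exp (-(t * d0)) else 0
    | none => 0
  have hq0 : ∀ c p J x, 0 ≤ q c p J x := by
    intro c p J x
    simp only [q]
    cases decode c with
    | none => exact le_rfl
    | some f =>
      simp only
      split_ifs
      · positivity
      · exact le_rfl
  let Q : Cd → (ι → κt → Bool) → (ι → Jt) → ℝ := fun c p J => (∑ x, q c p J x) / X2
  have hQ0 : ∀ c p J, 0 ≤ Q c p J := fun c p J => div_nonneg (sum_nonneg fun x _ => hq0 c p J x)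
    hX20.le
  have he1 : 1 ≤ 2 * Real.exp t := by
    have := Real.one_le_exp ht.le
    linarith
  have hrob : ∀ (c : Cd) (p : ι → κt → Bool) (B : Finset ι) (J0 : ι → Jt),
      ∑ J : ι → Jt, Q c p (mix B J0 J) ≤ (Fintype.card Jt : ℝ) ^ Fintype.card ι *
        ((M * Real.exp (-(t * d0))) * (2 * Real.exp t) ^ B.card) := by
    intro c p B J0
    simp only [Q]
    rw [← sum_div, div_le_iff₀ hX20]
    have hrhs : 0 ≤ (Fintype.card Jt : ℝ) ^ Fintype.card ι *
        ((M * Real.exp (-(t * d0))) * (2 * Real.exp t) ^ B.card) * X2 := by positivity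
    by_cases hc : ∃ f, decode c = some f ∧ f.leaves ≤ s
    · obtain ⟨f, hf, hfs⟩ := hc
      have h1 : ∀ J x, q c p J x = Real.exp (t * dep (fun y =>
          evs (mv J x y) (inst (fun w : ι × κt => p w.1 w.2) f))) * Real.exp (-(t * d0)) := by
        intro J x
        simp only [q, hf, if_pos hfs, evs_inst]
        rfl
      have h2 := robust t _ ht.le s hM B J0 (inst (fun w : ι × κt => p w.1 w.2) f)
        ((leavess_inst _ f).trans hfs)
      calc ∑ J : ι → Jt, ∑ x, q c p (mix B J0 J) x
          = (∑ J : ι → Jt, ∑ x : ι × Jt → Bool, Real.exp (t * dep (fun y =>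
          evs (mv (mix B J0 J) x y) (inst (fun w : ι × κt => p w.1 w.2) f)))) *
            Real.exp (-(t * d0)) := by
            rw [sum_mul]
            refine sum_congr rfl fun J _ => ?_
            rw [sum_mul]
            exact sum_congr rfl fun x _ => h1 _ _
        _ ≤ ((2 * Real.exp t) ^ B.card *
            (((Fintype.card Jt : ℝ) ^ Fintype.card ι * X2) * M)) * Real.exp (-(t * d0)) :=
            mul_le_mul_of_nonneg_right h2 (Real.exp_pos _).le
        _ = _ := by ring
    · have h1 : ∀ J x, q c p J x = 0 := by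
        intro J x
        simp only [q]
        cases hd : decode c with
        | none => rfl
        | some f =>
          simp only
          rw [if_neg]
          intro hfs
          exact hc ⟨f, hd, hfs⟩
      simp only [h1, sum_const_zero]
      exact hrhs
  obtain ⟨h, hh⟩ := exists_map (Cd := Cd) Q (M * Real.exp (-(t * d0))) (2 * Real.exp t)
    (by positivity) he1 hQ0 hrob m τ hτ.le hlt
  refine ⟨h, ?_⟩
  intro L _ ψ hψ hL
  -- codes of the formulas
  have hcode : ∀ l, ∃ c : Cd, ∀ f, ψ l = .inl f → decode c = some f := by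
    intro l
    cases hl : ψ l with
    | inl f =>
      have h1 : f.leaves ≤ s := by
        have := hψ l
        rw [hl] at this
        exact this
      obtain ⟨c, hc⟩ := exists_code s f h1
      refine ⟨c, fun f' hf' => ?_⟩
      rw [hc]
      simp only [Sum.inl.injEq] at hf'
      rw [hf']
    | inr b =>
      refine ⟨fun _ => none, fun f' hf' => ?_⟩
      simp at hf'
  choose c hc using hcode
  by_contra hcon
  push Not at hcon
  -- every restriction violates some line
  have hge : ∀ (p : ι → κt → Bool) (x : ι × Jt → Bool),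
      1 ≤ ∑ l, q (c l) p (fun i => h i (p i)) x := by
    intro p x
    obtain ⟨l, hl⟩ := hcon p x
    cases hψl : ψ l with
    | inr b =>
      rw [hψl] at hl
      have : dep (fun y : ι → Bool => evs (full p (fun i => h i (p i)) x y)
          (Sum.inr b : T ((ι × Jt) ⊕ (ι × κt)) ⊕ Bool)) ≤ 0 := dep_le fun _ _ => rfl
      omega
    | inl f =>
      rw [hψl] at hl
      have h1 : decode (c l) = some f := hc l f hψl
      have h2 : f.leaves ≤ s := by
        have := hψ l
        rw [hψl] at this
        exact this
      have h3 : 1 ≤ q (c l) p (fun i => h i (p i)) x := by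
        simp only [q, h1, if_pos h2]
        rw [← Real.exp_add]
        apply Real.one_le_exp
        have h4 : ((d0 : ℕ) : ℝ) < dep (fun y => evs (full p (fun i => h i (p i)) x y)
          (Sum.inl f : T ((ι × Jt) ⊕ (ι × κt)) ⊕ Bool)) := by exact_mod_cast hl
        have h5 : (dep (fun y => evs (full p (fun i => h i (p i)) x y)
          (Sum.inl f : T ((ι × Jt) ⊕ (ι × κt)) ⊕ Bool)) : ℝ) =
          dep (fun y => f.ev (full p (fun i => h i (p i)) x y)) := rfl
        rw [h5] at h4
        nlinarith
      exact h3.trans (single_le_sum (f := fun l => q (c l) p (fun i => h i (p i)) x)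
        (fun l _ => hq0 _ _ _ _) (mem_univ l))
  have hsum : (Fintype.card (ι → κt → Bool) : ℝ) * X2 ≤
      ∑ p : ι → κt → Bool, ∑ x : ι × Jt → Bool, ∑ l, q (c l) p (fun i => h i (p i)) x := by
    calc (Fintype.card (ι → κt → Bool) : ℝ) * X2
        = ∑ p : ι → κt → Bool, ∑ x : ι × Jt → Bool, (1 : ℝ) := by
          simp only [sum_const, card_univ, nsmul_eq_mul, mul_one]
          rw [hX2, Fintype.card_fun (α := ι × Jt)]
          simp
      _ ≤ _ := sum_le_sum fun p _ => sum_le_sum fun x _ => hge p x
  have hKn : (0 : ℝ) < (Fintype.card (κt → Bool) : ℝ) ^ Fintype.card ι := by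
    have : (0 : ℝ) < Fintype.card (κt → Bool) := by
      exact_mod_cast (Fintype.card_pos : 0 < Fintype.card (κt → Bool))
    positivity
  have havg : ∑ l, avg (Q (c l)) h = (∑ p : ι → κt → Bool, ∑ x : ι × Jt → Bool,
      ∑ l, q (c l) p (fun i => h i (p i)) x) /
        ((Fintype.card (κt → Bool) : ℝ) ^ Fintype.card ι * X2) := by
    have e1 : ∀ l, avg (Q (c l)) h = (∑ p : ι → κt → Bool, ∑ x : ι × Jt → Bool,
        q (c l) p (fun i => h i (p i)) x) /
        ((Fintype.card (κt → Bool) : ℝ) ^ Fintype.card ι * X2) := by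
      intro l
      unfold avg
      simp only [Q]
      rw [← sum_div, div_div, mul_comm X2]
    simp_rw [e1]
    rw [← sum_div, sum_comm]
    congr 1
    refine sum_congr rfl fun p _ => ?_
    rw [sum_comm]
  have hone : 1 ≤ ∑ l, avg (Q (c l)) h := by
    rw [havg, le_div_iff₀ (by positivity), one_mul]
    refine le_trans (le_of_eq ?_) hsum
    congr 1
    rw [Fintype.card_fun (α := ι)]
    push_cast
    rfl
  rcases isEmpty_or_nonempty L with hLe | hLn
  · simp at hone
    linarith
  · have hlt2 : ∑ l, avg (Q (c l)) h < ∑ l : L, τ :=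
      sum_lt_sum_of_nonempty univ_nonempty fun l _ => hh (c l)
    rw [sum_const, card_univ, nsmul_eq_mul] at hlt2
    linarith

end H542
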