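import Mathlib
import Pool.Agent.H542R2.Lift
import Pool.Agent.H542R2.DTree

/-!
No semantic refutation of an expanding system by lines of small decision tree depth, and by
Boolean combinations of few such lines.
-/

namespace H542

open Finset

variable {M n : ℕ}

/-- Boolean assignment of a `ZMod 2` assignment -/
def bb (β : Fin n → ZMod 2) (i : Fin n) : Bool := decide (β i = 1)

/-- `g` can be certified by at most `h` coordinates from every locally consistent assignment -/
def CE (R : Fin M → Fin n → ZMod 2) (b : Fin M → ZMod 2) (u0 : ℕ)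
    (g : (Fin n → Bool) → Bool) (h : ℕ) : Prop :=
  ∀ (W : Finset (Fin n)) (β : Fin n → ZMod 2), LC R b u0 W β → W.card + h ≤ 2 * u0 →
    ∃ (W' : Finset (Fin n)) (β' : Fin n → ZMod 2), W ⊆ W' ∧ (∀ j ∈ W, β' j = β j) ∧
      LC R b u0 W' β' ∧ W'.card ≤ W.card + h ∧ ∃ Wp ⊆ W', Wp.card ≤ h ∧
        ∀ y : Fin n → Bool, (∀ i ∈ Wp, y i = bb β' i) → g y = g (bb β')

theorem CE_of_DTd {R : Fin M → Fin n → ZMod 2} {b : Fin M → ZMod 2} {u0 : ℕ}
    (hR : Expd R u0) {h : ℕ} {g : (Fin n → Bool) → Bool} (hg : DTd h g) : CE R b u0 g h := by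
  induction h generalizing g with
  | zero =>
    intro W β hLC _
    exact ⟨W, β, Subset.rfl, fun _ _ => rfl, hLC, by simp, ∅, by simp, by simp,
      fun y _ => hg _ _⟩
  | succ h ih =>
    intro W β hLC hW
    rcases hg with hg | ⟨i, hi⟩
    · obtain ⟨W', β', h1, h2, h3, h4, Wp, h5, h6, h7⟩ := ih hg W β hLC (by omega)
      exact ⟨W', β', h1, h2, h3, by omega, Wp, h5, by omega, h7⟩
    · obtain ⟨β1, hb1, hl1⟩ := hLC.extend hR i (by omega)
      have hc1 : (insert i W).card ≤ W.card + 1 := card_insert_le i W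
      obtain ⟨W', β', h1, h2, h3, h4, Wp, h5, h6, h7⟩ := ih (hi (bb β1 i)) (insert i W) β1 hl1
        (by omega)
      have hi' : bb β' i = bb β1 i := by
        unfold bb
        rw [h2 i (mem_insert_self i W)]
      refine ⟨W', β', (subset_insert i W).trans h1, ?_, h3, by omega, insert i Wp, ?_, ?_, ?_⟩
      · intro j hj
        rw [h2 j (mem_insert_of_mem hj), hb1 j hj]
      · exact insert_subset (h1 (mem_insert_self i W)) h5
      · exact (card_insert_le i Wp).trans (by omega)
      · intro y hy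
        have e1 : ∀ y : Fin n → Bool, y i = bb β1 i → g y = g (Function.update y i (bb β1 i)) := by
          intro y hyi
          rw [← hyi, Function.update_eq_self]
        rw [e1 y ((hy i (mem_insert_self i Wp)).trans hi'), e1 (bb β') hi']
        exact h7 y fun j hj => hy j (mem_insert_of_mem hj)

/-- certifying finitely many functions one after the other -/
theorem CE_family {R : Fin M → Fin n → ZMod 2} {b : Fin M → ZMod 2} {u0 : ℕ}
    {ι : Type*} [DecidableEq ι] (g : ι → (Fin n → Bool) → Bool) (h : ℕ)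
    (hCE : ∀ p, CE R b u0 (g p) h) {W : Finset (Fin n)} {β : Fin n → ZMod 2}
    (hLC : LC R b u0 W β) (P : Finset ι) (hW : W.card + P.card * h ≤ 2 * u0) :
    ∃ (W' : Finset (Fin n)) (β' : Fin n → ZMod 2), W ⊆ W' ∧ (∀ j ∈ W, β' j = β j) ∧
      LC R b u0 W' β' ∧ W'.card ≤ W.card + P.card * h ∧
      (∀ p ∈ P, ∃ Wp ⊆ W', Wp.card ≤ h ∧ ∀ y : Fin n → Bool,
        (∀ i ∈ Wp, y i = bb β' i) → g p y = g p (bb β')) := by
  induction P using Finset.induction_on with
  | empty =>
    exact ⟨W, β, Subset.rfl, fun _ _ => rfl, hLC, by simp, by simp⟩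
  | insert p P hp ih =>
    rw [card_insert_of_notMem hp] at hW
    obtain ⟨W1, β1, hW1, hb1, hl1, hc1, hq1⟩ := ih (by nlinarith)
    obtain ⟨W2, β2, hW2, hb2, hl2, hc2, Wp, hWp1, hWp2, hWp3⟩ := hCE p W1 β1 hl1 (by nlinarith)
    refine ⟨W2, β2, hW1.trans hW2, ?_, hl2, ?_, ?_⟩
    · intro j hj
      rw [hb2 j (hW1 hj), hb1 j hj]
    · rw [card_insert_of_notMem hp]; nlinarith
    · intro q hq
      rcases mem_insert.mp hq with rfl | hq
      · exact ⟨Wp, hWp1, hWp2, hWp3⟩
      · obtain ⟨Wq, h1, h2, h3⟩ := hq1 q hq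
        have hb : ∀ i ∈ Wq, bb β2 i = bb β1 i := by
          intro i hi
          unfold bb
          rw [hb2 i (h1 hi)]
        refine ⟨Wq, h1.trans hW2, h2, fun y hy => ?_⟩
        rw [h3 y fun i hi => (hy i hi).trans (hb i hi), h3 (bb β2) hb]

/-- Boolean combinations -/
theorem CE_comb {R : Fin M → Fin n → ZMod 2} {b : Fin M → ZMod 2} {u0 : ℕ} {r : ℕ}
    (g : Fin r → (Fin n → Bool) → Bool) (h : ℕ) (hCE : ∀ p, CE R b u0 (g p) h)
    (G : (Fin r → Bool) → Bool) : CE R b u0 (fun y => G fun l => g l y) (r * h) := by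
  classical
  intro W β hLC hW
  obtain ⟨W', β', h1, h2, h3, h4, h5⟩ := CE_family g h hCE hLC univ (by simpa using hW)
  rw [card_univ, Fintype.card_fin] at h4
  choose Wp hWp using fun l => h5 l (mem_univ l)
  refine ⟨W', β', h1, h2, h3, h4, univ.biUnion Wp, ?_, ?_, ?_⟩
  · intro i hi
    rw [mem_biUnion] at hi
    obtain ⟨l, _, hl⟩ := hi
    exact (hWp l).1 hl
  · refine card_biUnion_le.trans ?_
    calc ∑ l : Fin r, (Wp l).card ≤ ∑ l : Fin r, h := sum_le_sum fun l _ => (hWp l).2.1
      _ = r * h := by simp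
  · intro y hy
    have : (fun l => g l y) = fun l => g l (bb β') := by
      funext l
      exact (hWp l).2.2 y fun i hi => hy i (mem_biUnion.mpr ⟨l, mem_univ l, hi⟩)
    simp only [this]

theorem val_bb (R : Fin M → Fin n → ZMod 2) (b : Fin M → ZMod 2) (β : Fin n → ZMod 2)
    (v : Fin M) : val R b (fun i => bz (bb β i)) v = val R b β v := by
  unfold val bb
  simp only [bz_decide]

/-- No semantic refutation of an expanding system by certifiable lines. -/
theorem no_ref2 {R : Fin M → Fin n → ZMod 2} {b : Fin M → ZMod 2} {u0 : ℕ}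
    (hR : Expd R u0) (w : ℕ) (hw0 : 1 ≤ w)
    (hw : ∀ v, (univ.filter fun i => R v i ≠ 0).card ≤ w)
    (a h : ℕ) (hah : (a + 1) * h + w ≤ 2 * u0) {S : ℕ} (g : Fin S → (Fin n → Bool) → Bool)
    (hCE : ∀ p, CE R b u0 (g p) h)
    (hs : ∀ j, (∃ v, ∀ y : Fin n → Bool, val R b (fun i => bz (y i)) v = 0 → g j y = true) ∨
      ∃ P : Finset (Fin S), P.card ≤ a ∧ (∀ p ∈ P, p < j) ∧
        ∀ y, (∀ p ∈ P, g p y = true) → g j y = true) (j : Fin S) :
    ∃ y, g j y = true := by
  have key : ∀ m : ℕ, ∀ j : Fin S, j.val = m → ∀ W : Finset (Fin n), ∀ β : Fin n → ZMod 2,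
      W.card ≤ h → LC R b u0 W β → ∃ y : Fin n → Bool, (∀ i ∈ W, y i = bb β i) ∧
        g j y = true := by
    intro m
    induction m using Nat.strong_induction_on with
    | _ m ih =>
      intro j hj W β hWh hLC
      rcases hs j with ⟨v, hv⟩ | ⟨P, hPa, hPj, hP⟩
      · have hc : (W ∪ univ.filter fun i => R v i ≠ 0).card ≤ 2 * u0 := by
          have h1 := card_union_le W (univ.filter fun i => R v i ≠ 0)
          have h2 := hw v
          nlinarith
        obtain ⟨β', hb', hl'⟩ := hLC.extend_set hR _ hc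
        refine ⟨bb β', fun i hi => by unfold bb; rw [hb' i hi], hv (bb β') ?_⟩
        rw [val_bb]
        have := hl' {v} (by
          rw [card_singleton]
          by_contra hu
          have : u0 = 0 := by omega
          subst this
          omega) (by
          intro i hi
          rw [sum_singleton]
          by_contra hne
          exact hi (mem_union_right _ (mem_filter.mpr ⟨mem_univ _, hne⟩)))
        simpa using this
      · have hc : W.card + P.card * h ≤ 2 * u0 := by
          have : P.card * h ≤ a * h := Nat.mul_le_mul_right h hPa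
          nlinarith
        obtain ⟨W', β', hWW, hb, hl, _, hq⟩ := CE_family g h hCE hLC P hc
        refine ⟨bb β', fun i hi => by unfold bb; rw [hb i hi], hP (bb β') ?_⟩
        intro p hp
        obtain ⟨Wp, hWp1, hWp2, hWp3⟩ := hq p hp
        have hpj : p.val < m := by
          have := hPj p hp
          rw [← hj]; exact this
        obtain ⟨y, hy1, hy2⟩ := ih p.val hpj p rfl Wp β' hWp2 (hl.mono hWp1)
        rw [← hy2]
        exact (hWp3 y hy1).symm
  obtain ⟨y, _, hy⟩ := key j.val j rfl ∅ 0 (by simp) (LC_empty hR 0)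
  exact ⟨y, hy⟩

end H542
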