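import Mathlib
import Pool.Agent.H542R2.Hash
import Pool.Agent.H542R2.LocalDT

/-!
The CNF built from an expanding linear system and hash tables, and the lower bound for it.
-/

namespace H542

open Finset

/-- the assignment satisfies the clause -/
def HoldsA {A : Type} (z : A → Bool) (c : Finset (A × Bool)) : Prop := ∃ l ∈ c, z l.1 = l.2

variable {n k κ : ℕ}

/-- the clause for the pointers `P` and the forbidden values `w` of one equation -/
def hclause (h : Fin n → (Fin κ → Bool) → Fin k) (Rv : Finset (Fin n))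
    (Pw : (Rv → Fin κ → Bool) × (Rv → Bool)) :
    Finset (((Fin n × Fin k) ⊕ (Fin n × Fin κ)) × Bool) :=
  (univ.biUnion fun i : Rv => univ.image fun b : Fin κ => (Sum.inr (i.1, b), !(Pw.1 i b))) ∪
    univ.image fun i : Rv => (Sum.inl (i.1, h i.1 (Pw.1 i)), !(Pw.2 i))

theorem holds_hclause (h : Fin n → (Fin κ → Bool) → Fin k) (Rv : Finset (Fin n))
    (Pw : (Rv → Fin κ → Bool) × (Rv → Bool)) (z : (Fin n × Fin k) ⊕ (Fin n × Fin κ) → Bool) :
    HoldsA z (hclause h Rv Pw) ↔ ∃ i : Rv, (∃ b, z (.inr (i.1, b)) ≠ Pw.1 i b) ∨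
      z (.inl (i.1, h i.1 (Pw.1 i))) ≠ Pw.2 i := by
  have hb : ∀ a c : Bool, a = !c ↔ a ≠ c := by decide
  unfold HoldsA hclause
  constructor
  · rintro ⟨l, hl, hz⟩
    rw [mem_union, mem_biUnion, mem_image] at hl
    rcases hl with ⟨i, _, hi⟩ | ⟨i, _, hi⟩
    · rw [mem_image] at hi
      obtain ⟨b, _, rfl⟩ := hi
      exact ⟨i, Or.inl ⟨b, (hb _ _).mp hz⟩⟩
    · subst hi
      exact ⟨i, Or.inr ((hb _ _).mp hz)⟩
  · rintro ⟨i, ⟨b, hib⟩ | hi⟩
    · refine ⟨(.inr (i.1, b), !(Pw.1 i b)), ?_, (hb _ _).mpr hib⟩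
      rw [mem_union, mem_biUnion]
      exact Or.inl ⟨i, mem_univ i, mem_image_of_mem _ (mem_univ b)⟩
    · refine ⟨(.inl (i.1, h i.1 (Pw.1 i)), !(Pw.2 i)), ?_, (hb _ _).mpr hi⟩
      rw [mem_union]
      exact Or.inr (mem_image_of_mem _ (mem_univ i))

theorem sum_bz_subtype (R : Fin n → ZMod 2) (y : Fin n → Bool) :
    ∑ i : (univ.filter fun i => R i ≠ 0 : Finset (Fin n)), bz (y i.1) =
      ∑ i, R i * bz (y i) := by
  rw [Finset.sum_coe_sort (univ.filter fun i => R i ≠ 0) (fun i => bz (y i)), sum_filter]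
  exact sum_congr rfl fun i _ => by rw [zmod2_mul_eq]

open Classical in
theorem core (hn : 0 < n) (hk : 0 < k) (t : ℝ) (ht : 0 < t) (M : ℝ) (s : ℕ) (hM0 : 0 ≤ M)
    (hM : ∀ ψ : T (Fin n × Fin k) ⊕ Bool, leavess ψ ≤ s →
      ∑ J : Fin n → Fin k, ∑ x : Fin n × Fin k → Bool,
        Real.exp (t * dep fun y => evs (mv J x y) ψ) ≤
      ((Fintype.card (Fin k) : ℝ) ^ Fintype.card (Fin n) * 2 ^ Fintype.card (Fin n × Fin k)) * M)
    (d0 m : ℕ) (τ : ℝ) (hτ : 0 < τ)
    (hlt : (Fintype.card (Fin (2 * s) →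
        Option ((((Fin n × Fin k) ⊕ (Fin n × Fin κ)) × Bool) ⊕ Bool)) : ℝ) *
      (M * Real.exp (-(t * d0)) * Real.exp ((Fintype.card (Fin n) : ℝ) *
        ((2 * Real.exp t - 1) * m / Fintype.card (Fin κ → Bool)))) ^ m < τ ^ m) :
    ∃ C : Finset (Finset (((Fin n × Fin k) ⊕ (Fin n × Fin κ)) × Bool)),
      C.card ≤ (n + 1) * (2 ^ κ * 2) ^ 8 ∧ (∀ c ∈ C, c.card ≤ 8 * (κ + 1)) ∧
      (∀ z, ∃ c ∈ C, ¬ HoldsA z c) ∧
      ∀ (a r S : ℕ) (part : Fin S → Fin r → T ((Fin n × Fin k) ⊕ (Fin n × Fin κ)) ⊕ Bool)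
        (G : Fin S → (Fin r → Bool) → Bool), (∀ j l, leavess (part j l) ≤ s) →
        (a + 1) * (r * d0) + 8 ≤ 2 * (n / 320000) → ((S : ℝ) * r) * τ ≤ 1 →
        (∀ j, (∃ c ∈ C, ∀ z, HoldsA z c → G j (fun l => evs z (part j l)) = true) ∨
          ∃ P : Finset (Fin S), P.card ≤ a ∧ (∀ p ∈ P, p < j) ∧
            ∀ z, (∀ p ∈ P, G p (fun l => evs z (part p l)) = true) →
              G j (fun l => evs z (part j l)) = true) →
        ∀ j, ∃ z, G j (fun l => evs z (part j l)) = true := by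
  obtain ⟨R, hR8, hRe⟩ := exists_expander n hn
  obtain ⟨b, hb⟩ := exists_rhs n R
  have hne : Nonempty (Fin k) := ⟨⟨0, hk⟩⟩
  obtain ⟨h, hh⟩ := exists_hash (ι := Fin n) (Jt := Fin k) (κt := Fin κ) t ht M s hM0 hM d0 m τ
    hτ hlt
  let Rv : Fin (n + 1) → Finset (Fin n) := fun v => univ.filter fun i => R v i ≠ 0
  let idx : (v : Fin (n + 1)) → Finset ((Rv v → Fin κ → Bool) × (Rv v → Bool)) := fun v =>
    univ.filter fun Pw => ∑ i, bz (Pw.2 i) ≠ b v
  refine ⟨univ.biUnion fun v => (idx v).image (hclause h (Rv v)), ?_, ?_, ?_, ?_⟩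
  · refine card_biUnion_le.trans ?_
    calc ∑ v : Fin (n + 1), ((idx v).image (hclause h (Rv v))).card
        ≤ ∑ v : Fin (n + 1), (2 ^ κ * 2) ^ 8 := sum_le_sum fun v _ => by
          refine card_image_le.trans ((card_filter_le _ _).trans ?_)
          rw [card_univ, Fintype.card_prod, Fintype.card_fun, Fintype.card_fun, Fintype.card_fun,
            Fintype.card_bool, Fintype.card_coe, Fintype.card_fin, ← mul_pow]
          exact Nat.pow_le_pow_right (by positivity) (hR8 v)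
      _ = (n + 1) * (2 ^ κ * 2) ^ 8 := by simp
  · intro c hc
    rw [mem_biUnion] at hc
    obtain ⟨v, _, hv⟩ := hc
    rw [mem_image] at hv
    obtain ⟨Pw, _, rfl⟩ := hv
    unfold hclause
    refine (card_union_le _ _).trans ?_
    have h1 : (univ.biUnion fun i : Rv v => univ.image fun b : Fin κ =>
        ((Sum.inr (i.1, b) : (Fin n × Fin k) ⊕ (Fin n × Fin κ)), !(Pw.1 i b))).card ≤ 8 * κ := by
      refine card_biUnion_le.trans ?_
      calc ∑ i : Rv v, (univ.image fun b : Fin κ =>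
            ((Sum.inr (i.1, b) : (Fin n × Fin k) ⊕ (Fin n × Fin κ)), !(Pw.1 i b))).card
          ≤ ∑ i : Rv v, κ := sum_le_sum fun i _ => card_image_le.trans (by simp)
        _ = (Rv v).card * κ := by simp
        _ ≤ 8 * κ := Nat.mul_le_mul_right _ (hR8 v)
    have h2 : (univ.image fun i : Rv v =>
        ((Sum.inl (i.1, h i.1 (Pw.1 i)) : (Fin n × Fin k) ⊕ (Fin n × Fin κ)),
          !(Pw.2 i))).card ≤ 8 := by
      refine card_image_le.trans ?_
      rw [card_univ, Fintype.card_coe]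
      exact hR8 v
    omega
  · intro z
    let P : Fin n → Fin κ → Bool := fun i c => z (.inr (i, c))
    let y : Fin n → Bool := fun i => z (.inl (i, h i (P i)))
    obtain ⟨v, hv⟩ := hb fun i => bz (y i)
    refine ⟨hclause h (Rv v) (fun i => P i.1, fun i => y i.1), ?_, ?_⟩
    · rw [mem_biUnion]
      refine ⟨v, mem_univ v, mem_image_of_mem _ ?_⟩
      simp only [idx, mem_filter, mem_univ, true_and]
      rw [sum_bz_subtype]
      intro h1
      apply hv
      unfold H542.val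
      rw [h1]
      exact CharTwo.add_self_eq_zero _
    · rw [holds_hclause]
      rintro ⟨i, ⟨c, hc⟩ | hi⟩
      · exact hc rfl
      · exact hi rfl
  · intro a r S part G hsz hah hSr hsound j
    obtain ⟨p, x, hpx⟩ := hh (Fin S × Fin r) (fun l => part l.1 l.2) (fun l => hsz l.1 l.2)
      (by rw [Fintype.card_prod, Fintype.card_fin, Fintype.card_fin]; push_cast; exact hSr)
    let Z : (Fin n → Bool) → ((Fin n × Fin k) ⊕ (Fin n × Fin κ) → Bool) := fun y =>
      full p (fun i => h i (p i)) x y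
    obtain ⟨y, hy⟩ := no_ref2 (R := R) (b := b) (u0 := n / 320000) hRe 8 (by norm_num) hR8 a
      (r * d0) hah (fun j y => G j fun l => evs (Z y) (part j l))
      (fun j => CE_comb (fun l y => evs (Z y) (part j l)) d0
        (fun l => CE_of_DTd hRe ((DTd_dep _).mono (hpx (j, l)))) (G j)) (by
      intro j
      rcases hsound j with ⟨c, hc, hcj⟩ | ⟨P, hP1, hP2, hP3⟩
      · left
        rw [mem_biUnion] at hc
        obtain ⟨v, _, hv⟩ := hc
        rw [mem_image] at hv
        obtain ⟨Pw, hPw, rfl⟩ := hv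
        refine ⟨v, fun y hy => hcj _ ?_⟩
        rw [holds_hclause]
        by_contra hcon
        push Not at hcon
        simp only [idx, mem_filter, mem_univ, true_and] at hPw
        apply hPw
        have h1 : ∀ i : Rv v, Pw.1 i = p i.1 := by
          intro i
          funext c
          exact ((hcon i).1 c).symm
        have h2 : ∀ i : Rv v, Pw.2 i = y i.1 := by
          intro i
          rw [← (hcon i).2, h1 i]
          show mv (fun i => h i (p i)) x y (i.1, h i.1 (p i.1)) = y i.1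
          unfold mv
          simp
        simp_rw [h2]
        rw [sum_bz_subtype]
        have h3 : b v + ∑ i, R v i * bz (y i) = 0 := hy
        have h4 : b v + b v = 0 := CharTwo.add_self_eq_zero _
        linear_combination h3 - h4
      · right
        exact ⟨P, hP1, hP2, fun y hy => hP3 _ hy⟩) j
    exact ⟨_, hy⟩

end H542
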