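import Mathlib

/-!
Tables whose sign characters have small correlation with every set of a given family.
-/

namespace H542PM

open Finset

/-- sign of a bit -/
def sg (b : Bool) : ℝ := if b then -1 else 1

theorem sg_sq (b : Bool) : sg b * sg b = 1 := by cases b <;> simp [sg]

theorem abs_sg (b : Bool) : |sg b| = 1 := by cases b <;> simp [sg]

section
variable {ι Kt : Type} [DecidableEq ι] [DecidableEq Kt]

/-- character of the tables `h` at the pointers `x` -/
def chi (h : ι → Kt → Bool) (S : Finset ι) (x : ι → Kt) : ℝ := ∏ i ∈ S, sg (h i (x i))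

/-- number of pairs of points of `P` which agree on `S` -/
def coll (P : Finset (ι → Kt)) (S : Finset ι) : ℝ :=
  ∑ x ∈ P, ((P.filter fun x' => ∀ i ∈ S, x' i = x i).card : ℝ)

omit [DecidableEq ι] in
theorem coll_empty (P : Finset (ι → Kt)) : coll P ∅ = (P.card : ℝ) ^ 2 := by
  unfold coll
  simp [sq]

theorem coll_insert [Fintype Kt] (P : Finset (ι → Kt)) (i : ι) (S : Finset ι) :
    coll P (insert i S) = ∑ σ : Kt, coll (P.filter fun x => x i = σ) S := by
  unfold coll
  rw [← Finset.sum_fiberwise_of_maps_to (s := P) (t := (univ : Finset Kt))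
    (g := fun x => x i) (fun _ _ => mem_univ _)]
  refine sum_congr rfl fun σ _ => sum_congr rfl fun x hx => ?_
  rw [mem_filter] at hx
  congr 2
  ext x'
  simp only [mem_filter, mem_insert, forall_eq_or_imp]
  rw [hx.2]
  tauto
end

section
variable {Kt : Type} [Fintype Kt] [DecidableEq Kt]

theorem sum_exp (c : Kt → ℝ) :
    ∑ g : Kt → Bool, Real.exp (∑ σ, sg (g σ) * c σ) = ∏ σ, (2 * Real.cosh (c σ)) := by
  have h1 : ∀ σ : Kt, 2 * Real.cosh (c σ) = ∑ b : Bool, Real.exp (sg b * c σ) := by
    intro σ
    rw [Fintype.sum_bool, Real.cosh_eq]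
    simp only [sg, if_true, Bool.false_eq_true, if_false, one_mul, neg_one_mul]
    ring
  simp_rw [h1]
  rw [Finset.prod_univ_sum, Fintype.piFinset_univ]
  exact sum_congr rfl fun g _ => Real.exp_sum _ _

theorem sum_cosh (c : Kt → ℝ) :
    ∑ g : Kt → Bool, Real.cosh (∑ σ, sg (g σ) * c σ) = ∏ σ, (2 * Real.cosh (c σ)) := by
  have h1 := sum_exp c
  have h2 := sum_exp fun σ => -c σ
  simp only [Real.cosh_neg] at h2
  have h3 : ∀ g : Kt → Bool, Real.cosh (∑ σ, sg (g σ) * c σ) =
      (Real.exp (∑ σ, sg (g σ) * c σ) + Real.exp (∑ σ, sg (g σ) * -c σ)) / 2 := by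
    intro g
    rw [Real.cosh_eq]
    congr 3
    rw [← sum_neg_distrib]
    exact sum_congr rfl fun σ _ => by ring
  rw [sum_congr rfl fun g _ => h3 g, ← sum_div, sum_add_distrib, h1, h2]
  ring

theorem one_block {β : Type} (V : Finset β) (bv : β → Kt → ℝ) (θ : ℝ) (hθ : 0 < θ)
    (hV : 2 * (V.card : ℝ) ≤ Real.exp (θ / 2)) :
    ∃ g : Kt → Bool, ∀ v ∈ V, (∑ σ, sg (g σ) * bv v σ) ^ 2 ≤ θ * ∑ σ, (bv v σ) ^ 2 := by
  classical
  let A : β → ℝ := fun v => ∑ σ, (bv v σ) ^ 2
  have hA0 : ∀ v, 0 ≤ A v := fun v => sum_nonneg fun σ _ => sq_nonneg _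
  let l : β → ℝ := fun v => Real.sqrt (θ / A v)
  have hl0 : ∀ v, 0 ≤ l v := fun v => Real.sqrt_nonneg _
  have hl2 : ∀ v, (l v) ^ 2 = θ / A v := fun v => Real.sq_sqrt (div_nonneg hθ.le (hA0 v))
  have havg : ∑ g : Kt → Bool, ∑ v ∈ V, Real.cosh (∑ σ, sg (g σ) * (l v * bv v σ)) ≤
      ∑ g : Kt → Bool, (V.card : ℝ) * Real.exp (θ / 2) := by
    rw [sum_comm]
    have h1 : ∀ v ∈ V, ∑ g : Kt → Bool, Real.cosh (∑ σ, sg (g σ) * (l v * bv v σ)) ≤
        2 ^ Fintype.card Kt * Real.exp (θ / 2) := by
      intro v _
      rw [sum_cosh, prod_mul_distrib, prod_const, card_univ]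
      apply mul_le_mul_of_nonneg_left _ (by positivity)
      have h2 : ∏ σ, Real.cosh (l v * bv v σ) ≤ ∏ σ, Real.exp ((l v * bv v σ) ^ 2 / 2) :=
        prod_le_prod (fun σ _ => (Real.cosh_pos _).le) fun σ _ => Real.cosh_le_exp_half_sq _
      refine h2.trans ?_
      rw [← Real.exp_sum]
      apply Real.exp_le_exp.mpr
      have h3 : ∑ σ, (l v * bv v σ) ^ 2 / 2 = (l v) ^ 2 * A v / 2 := by
        rw [← sum_div]
        congr 1
        rw [mul_sum]
        exact sum_congr rfl fun σ _ => by ring
      rw [h3, hl2]
      rcases (hA0 v).eq_or_lt with h | h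
      · rw [← h]; simp; positivity
      · rw [div_mul_cancel₀ _ h.ne']
    refine (sum_le_sum h1).trans ?_
    rw [sum_const, sum_const, nsmul_eq_mul, nsmul_eq_mul, card_univ, Fintype.card_fun,
      Fintype.card_bool]
    push_cast
    apply le_of_eq
    ring
  obtain ⟨g, _, hg⟩ := exists_le_of_sum_le univ_nonempty havg
  refine ⟨g, fun v hv => ?_⟩
  by_contra hcon
  push Not at hcon
  have hX : ∑ σ, sg (g σ) * (l v * bv v σ) = l v * ∑ σ, sg (g σ) * bv v σ := by
    rw [mul_sum]
    exact sum_congr rfl fun σ _ => by ring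
  have h1 : Real.cosh (l v * ∑ σ, sg (g σ) * bv v σ) ≤ Real.exp θ / 2 := by
    rw [← hX]
    refine (single_le_sum (f := fun v => Real.cosh (∑ σ, sg (g σ) * (l v * bv v σ)))
      (fun v _ => (Real.cosh_pos _).le) hv).trans (hg.trans ?_)
    have h2 : Real.exp θ = Real.exp (θ / 2) * Real.exp (θ / 2) := by
      rw [← Real.exp_add]; congr 1; ring
    rw [h2]
    have := Real.exp_pos (θ / 2)
    nlinarith
  have hApos : 0 < A v := by
    rcases (hA0 v).eq_or_lt with h | h
    · exfalso
      have h2 : ∀ σ, bv v σ = 0 := by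
        intro σ
        have := (sum_eq_zero_iff_of_nonneg (s := univ) (f := fun σ => (bv v σ) ^ 2)
          (fun σ _ => sq_nonneg _)).mp h.symm σ (mem_univ σ)
        exact pow_eq_zero_iff (two_ne_zero) |>.mp this
      simp [h2] at hcon
    · exact h
  set X := ∑ σ, sg (g σ) * bv v σ with hXdef
  have h2 : θ ^ 2 < (l v * X) ^ 2 := by
    rw [mul_pow, hl2]
    have h3 : θ * A v < X ^ 2 := hcon
    rw [div_mul_eq_mul_div, lt_div_iff₀ hApos]
    nlinarith
  have h3 : θ < |l v * X| := by
    have := sq_lt_sq.mp h2
    rwa [abs_of_pos hθ] at this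
  have h4 : Real.exp |l v * X| / 2 < Real.cosh (l v * X) := by
    rw [← Real.cosh_abs, Real.cosh_eq]
    have := Real.exp_pos (-|l v * X|)
    linarith
  have h5 : Real.exp θ < Real.exp |l v * X| := Real.exp_lt_exp.mpr h3
  linarith
end

section
variable {ι Kt : Type} [Fintype ι] [DecidableEq ι] [Fintype Kt] [DecidableEq Kt]

theorem hash_closed (F : Finset (Finset (ι → Kt)))
    (hcl : ∀ P ∈ F, ∀ (i : ι) (σ : Kt), P.filter (fun x => x i = σ) ∈ F) (θ : ℝ) (hθ : 0 < θ)
    (hcard : 2 * ((F.card : ℝ) * 2 ^ Fintype.card ι) ≤ Real.exp (θ / 2)) :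
    ∃ h : ι → Kt → Bool, ∀ P ∈ F, ∀ S : Finset ι,
      (∑ x ∈ P, chi h S x) ^ 2 ≤ θ ^ S.card * coll P S := by
  have main : ∀ B : Finset ι, ∃ h : ι → Kt → Bool, ∀ P ∈ F, ∀ S ⊆ B,
      (∑ x ∈ P, chi h S x) ^ 2 ≤ θ ^ S.card * coll P S := by
    intro B
    induction B using Finset.induction_on with
    | empty =>
      refine ⟨fun _ _ => false, fun P _ S hS => ?_⟩
      rw [subset_empty] at hS
      subst hS
      rw [coll_empty]
      simp [chi]
    | insert i B hi ih =>
      obtain ⟨h, hh⟩ := ih
      obtain ⟨g, hg⟩ := one_block (F ×ˢ B.powerset)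
        (fun (v : Finset (ι → Kt) × Finset ι) (σ : Kt) =>
          ∑ x ∈ v.1.filter (fun x : ι → Kt => x i = σ), chi h v.2 x) θ hθ (by
          refine le_trans ?_ hcard
          rw [card_product, card_powerset]
          push_cast
          have h1 : (2 : ℝ) ^ B.card ≤ 2 ^ Fintype.card ι :=
            pow_le_pow_right₀ (by norm_num) (card_le_univ B)
          have h2 : (0 : ℝ) ≤ F.card := by positivity
          nlinarith [mul_le_mul_of_nonneg_left h1 h2])
      refine ⟨Function.update h i g, fun P hP S hS => ?_⟩
      by_cases hiS : i ∈ S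
      · set S' := S.erase i with hS'
        have hS'B : S' ⊆ B := by
          intro j hj
          rw [hS', mem_erase] at hj
          exact (mem_insert.mp (hS hj.2)).resolve_left hj.1
        have hins : S = insert i S' := (insert_erase hiS).symm
        have hchi : ∀ x : ι → Kt, chi (Function.update h i g) S x = sg (g (x i)) * chi h S' x := by
          intro x
          unfold chi
          rw [← mul_prod_erase S _ hiS]
          congr 1
          · simp
          · refine prod_congr rfl fun j hj => ?_
            rw [mem_erase] at hj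
            rw [Function.update_of_ne hj.1]
        have hsum : ∑ x ∈ P, chi (Function.update h i g) S x =
            ∑ σ : Kt, sg (g σ) * ∑ x ∈ P.filter (fun x => x i = σ), chi h S' x := by
          rw [← Finset.sum_fiberwise_of_maps_to (s := P) (t := (univ : Finset Kt))
            (g := fun x => x i) (fun _ _ => mem_univ _)]
          refine sum_congr rfl fun σ _ => ?_
          rw [mul_sum]
          refine sum_congr rfl fun x hx => ?_
          rw [mem_filter] at hx
          rw [hchi, hx.2]
        rw [hsum]
        have h1 := hg (P, S') (mem_product.mpr ⟨hP, mem_powerset.mpr hS'B⟩)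
        refine h1.trans ?_
        have hc : S.card = S'.card + 1 := by
          rw [hS', card_erase_of_mem hiS]
          have := card_pos.mpr ⟨i, hiS⟩
          omega
        rw [hc, hins, coll_insert, pow_succ, mul_comm (θ ^ S'.card) θ, mul_assoc]
        apply mul_le_mul_of_nonneg_left _ hθ.le
        rw [mul_sum]
        exact sum_le_sum fun σ _ => hh _ (hcl P hP i σ) S' hS'B
      · have hSB : S ⊆ B := by
          intro j hj
          refine (mem_insert.mp (hS hj)).resolve_left ?_
          rintro rfl
          exact hiS hj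
        have hchi : ∀ x : ι → Kt, chi (Function.update h i g) S x = chi h S x := by
          intro x
          unfold chi
          refine prod_congr rfl fun j hj => ?_
          have : j ≠ i := by rintro rfl; exact hiS hj
          rw [Function.update_of_ne this]
        simp_rw [hchi]
        exact hh P hP S hSB
  obtain ⟨h, hh⟩ := main univ
  exact ⟨h, fun P hP S => hh P hP S (subset_univ S)⟩

/-- points of `P` consistent with the partial assignment `q` -/
def sub (P : Finset (ι → Kt)) (q : ι → Option Kt) : Finset (ι → Kt) :=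
  P.filter fun x => ∀ i, q i = none ∨ q i = some (x i)

theorem exists_hash (F : Finset (Finset (ι → Kt))) (θ : ℝ) (hθ : 0 < θ)
    (hcard : 2 * (((F.card : ℝ) * (Fintype.card Kt + 1) ^ Fintype.card ι + 1) *
      2 ^ Fintype.card ι) ≤ Real.exp (θ / 2)) :
    ∃ h : ι → Kt → Bool, ∀ P ∈ F, ∀ S : Finset ι,
      (∑ x ∈ P, chi h S x) ^ 2 ≤ θ ^ S.card * coll P S := by
  classical
  let G : Finset (Finset (ι → Kt)) :=
    insert ∅ ((F ×ˢ (univ : Finset (ι → Option Kt))).image fun v => sub v.1 v.2)
  have hG : (G.card : ℝ) ≤ (F.card : ℝ) * (Fintype.card Kt + 1) ^ Fintype.card ι + 1 := by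
    have h1 : G.card ≤ F.card * (Fintype.card Kt + 1) ^ Fintype.card ι + 1 := by
      refine (card_insert_le _ _).trans ?_
      apply Nat.add_le_add_right
      refine card_image_le.trans ?_
      rw [card_product, card_univ, Fintype.card_fun, Fintype.card_option]
    exact_mod_cast h1
  have hcl : ∀ P ∈ G, ∀ (i : ι) (σ : Kt), P.filter (fun x => x i = σ) ∈ G := by
    intro P hP i σ
    rw [mem_insert] at hP
    rcases hP with rfl | hP
    · simp [G]
    · rw [mem_image] at hP
      obtain ⟨⟨P0, q⟩, hv, rfl⟩ := hP
      rw [mem_product] at hv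
      have hmem : ∀ q', sub P0 q' ∈ G := fun q' =>
        mem_insert_of_mem (mem_image.mpr ⟨(P0, q'), mem_product.mpr ⟨hv.1, mem_univ _⟩, rfl⟩)
      cases hq : q i with
      | none =>
        have : (sub P0 q).filter (fun x => x i = σ) =
            sub P0 (Function.update q i (some σ)) := by
          ext x
          simp only [sub, mem_filter]
          constructor
          · rintro ⟨⟨hx, hx2⟩, hx3⟩
            refine ⟨hx, fun j => ?_⟩
            by_cases hj : j = i
            · subst hj; right; simp [hx3]
            · rw [Function.update_of_ne hj]; exact hx2 j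
          · rintro ⟨hx, hx2⟩
            have h3 := hx2 i
            simp only [Function.update_self, reduceCtorEq, Option.some.injEq, false_or] at h3
            refine ⟨⟨hx, fun j => ?_⟩, h3.symm⟩
            by_cases hj : j = i
            · subst hj; left; exact hq
            · have := hx2 j
              rwa [Function.update_of_ne hj] at this
        rw [this]
        exact hmem _
      | some τ =>
        by_cases hτ : τ = σ
        · have : (sub P0 q).filter (fun x => x i = σ) = sub P0 q := by
            rw [filter_eq_self]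
            intro x hx
            simp only [sub, mem_filter] at hx
            have := hx.2 i
            rw [hq] at this
            simp only [reduceCtorEq, Option.some.injEq, false_or] at this
            rw [← this, hτ]
          simp only at this ⊢
          rw [this]
          exact hmem _
        · have : (sub P0 q).filter (fun x => x i = σ) = ∅ := by
            rw [filter_eq_empty_iff]
            intro x hx hxσ
            simp only [sub, mem_filter] at hx
            have := hx.2 i
            rw [hq] at this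
            simp only [reduceCtorEq, Option.some.injEq, false_or] at this
            exact hτ (this.trans hxσ)
          simp only at this ⊢
          rw [this]
          exact mem_insert_self _ _
  obtain ⟨h, hh⟩ := hash_closed G hcl θ hθ (by
    refine le_trans ?_ hcard
    apply mul_le_mul_of_nonneg_left _ (by norm_num)
    exact mul_le_mul_of_nonneg_right hG (by positivity))
  refine ⟨h, fun P hP S => hh P ?_ S⟩
  refine mem_insert_of_mem (mem_image.mpr ⟨(P, fun _ => none), mem_product.mpr ⟨hP, mem_univ _⟩, ?_⟩)
  simp [sub]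

end

end H542PM
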