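import Mathlib
import Pool.Agent.H542R2.PMHash
import Pool.Agent.H542R2.Expander

/-!
The truncated signed density attached to an expanding linear system read through tables.
-/

namespace H542PM

open Finset H542

/-- sign of an element of `ZMod 2` -/
def sz (a : ZMod 2) : ℝ := if a = 0 then 1 else -1

theorem sz_zero : sz 0 = 1 := by simp [sz]

theorem sz_one : sz 1 = -1 := by simp [sz]

theorem sz_ne {a : ZMod 2} (h : a ≠ 0) : sz a = -1 := by rw [zmod2_ne_zero h, sz_one]

theorem sz_add (a b : ZMod 2) : sz (a + b) = sz a * sz b := by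
  by_cases ha : a = 0
  · subst ha; rw [zero_add, sz_zero, one_mul]
  · by_cases hb : b = 0
    · subst hb; rw [add_zero, sz_zero, mul_one]
    · rw [zmod2_ne_zero ha, zmod2_ne_zero hb, sz_one, CharTwo.add_self_eq_zero, sz_zero]
      norm_num

theorem sz_sum {α : Type} (s : Finset α) (f : α → ZMod 2) :
    sz (∑ i ∈ s, f i) = ∏ i ∈ s, sz (f i) := by
  classical
  induction s using Finset.induction_on with
  | empty => simp [sz]
  | insert a s ha ih => rw [sum_insert ha, prod_insert ha, sz_add, ih]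

theorem abs_sz (a : ZMod 2) : |sz a| = 1 := by
  unfold sz
  split_ifs <;> simp

theorem sz_sq (a : ZMod 2) : sz a * sz a = 1 := by
  unfold sz
  split_ifs <;> norm_num

variable {n M : ℕ} {Kt : Type}

/-- the bits read by the pointers -/
def yv (h : Fin n → Kt → Bool) (x : Fin n → Kt) (i : Fin n) : ZMod 2 :=
  if h i (x i) then 1 else 0

theorem sz_yv (h : Fin n → Kt → Bool) (x : Fin n → Kt) (i : Fin n) :
    sz (yv h x i) = sg (h i (x i)) := by
  unfold yv sg
  cases h i (x i) <;> simp [sz]

/-- support of the sum of the equations in `Q` -/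
def supp (R : Fin M → Fin n → ZMod 2) (Q : Finset (Fin M)) : Finset (Fin n) :=
  univ.filter fun i => ∑ v ∈ Q, R v i ≠ 0

/-- sign of the sum of the equations in `Q` -/
def sgn (R : Fin M → Fin n → ZMod 2) (b : Fin M → ZMod 2) (h : Fin n → Kt → Bool)
    (Q : Finset (Fin M)) (x : Fin n → Kt) : ℝ := sz (∑ v ∈ Q, val R b (yv h x) v)

theorem abs_sgn (R : Fin M → Fin n → ZMod 2) (b : Fin M → ZMod 2) (h : Fin n → Kt → Bool)
    (Q : Finset (Fin M)) (x : Fin n → Kt) : |sgn R b h Q x| = 1 := abs_sz _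

theorem sgn_eq (R : Fin M → Fin n → ZMod 2) (b : Fin M → ZMod 2) (h : Fin n → Kt → Bool)
    (Q : Finset (Fin M)) (x : Fin n → Kt) :
    sgn R b h Q x = sz (∑ v ∈ Q, b v) * chi h (supp R Q) x := by
  unfold sgn
  rw [sum_val, sz_add, sz_sum univ]
  congr 1
  unfold chi supp
  rw [prod_filter]
  refine prod_congr rfl fun i _ => ?_
  split_ifs with hi
  · rw [zmod2_ne_zero hi, one_mul, sz_yv]
  · push Not at hi
    rw [hi, zero_mul, sz_zero]

/-- the sets of at most `r` equations -/
def Qs (M r : ℕ) : Finset (Finset (Fin M)) := univ.filter fun Q => Q.card ≤ r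

theorem card_Qs_le (M r : ℕ) : ((Qs M r).card : ℝ) ≤ 2 ^ M := by
  have : (Qs M r).card ≤ 2 ^ M := by
    refine (card_filter_le _ _).trans ?_
    rw [card_univ, Fintype.card_finset, Fintype.card_fin]
  exact_mod_cast this

/-- the signed density -/
def dens (R : Fin M → Fin n → ZMod 2) (b : Fin M → ZMod 2) (h : Fin n → Kt → Bool) (r : ℕ)
    (x : Fin n → Kt) : ℝ := ∑ Q ∈ Qs M r, sgn R b h Q x

theorem abs_dens_le (R : Fin M → Fin n → ZMod 2) (b : Fin M → ZMod 2) (h : Fin n → Kt → Bool)
    (r : ℕ) (x : Fin n → Kt) : |dens R b h r x| ≤ 2 ^ M := by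
  unfold dens
  refine (abs_sum_le_sum_abs _ _).trans ?_
  simp_rw [abs_sgn]
  rw [sum_const, nsmul_eq_mul, mul_one]
  exact card_Qs_le M r

/-- on the points violating the equation `v` only the boundary terms survive -/
theorem dens_of_viol (R : Fin M → Fin n → ZMod 2) (b : Fin M → ZMod 2)
    (h : Fin n → Kt → Bool) (r : ℕ) (x : Fin n → Kt) (v : Fin M)
    (hv : val R b (yv h x) v ≠ 0) :
    dens R b h r x =
      ∑ Q ∈ (univ : Finset (Finset (Fin M))).filter (fun Q => Q.card = r ∧ v ∉ Q),
        sgn R b h Q x := by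
  classical
  have hins : ∀ Q : Finset (Fin M), v ∉ Q → sgn R b h (insert v Q) x = -sgn R b h Q x := by
    intro Q hQ
    unfold sgn
    rw [sum_insert hQ, sz_add, sz_ne hv]
    ring
  unfold dens Qs
  have h1 : ∑ Q ∈ (univ : Finset (Finset (Fin M))).filter (fun Q => Q.card ≤ r),
      sgn R b h Q x =
      ∑ Q ∈ (univ : Finset (Finset (Fin M))).filter (fun Q => Q.card ≤ r ∧ v ∉ Q),
        sgn R b h Q x +
      ∑ Q ∈ (univ : Finset (Finset (Fin M))).filter (fun Q => Q.card ≤ r ∧ v ∈ Q),
        sgn R b h Q x := by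
    rw [← sum_filter_add_sum_filter_not
      ((univ : Finset (Finset (Fin M))).filter fun Q => Q.card ≤ r) (fun Q => v ∉ Q)]
    rw [filter_filter, filter_filter]
    congr 2
    ext Q
    simp
  have h2 : ∑ Q ∈ (univ : Finset (Finset (Fin M))).filter (fun Q => Q.card ≤ r ∧ v ∈ Q),
      sgn R b h Q x =
      ∑ Q ∈ (univ : Finset (Finset (Fin M))).filter (fun Q => Q.card + 1 ≤ r ∧ v ∉ Q),
        -sgn R b h Q x := by
    refine sum_nbij' (fun Q => Q.erase v) (fun Q => insert v Q) ?_ ?_ ?_ ?_ ?_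
    · intro Q hQ
      rw [mem_filter] at hQ ⊢
      refine ⟨mem_univ _, ?_, notMem_erase _ _⟩
      rw [card_erase_of_mem hQ.2.2]
      have := card_pos.mpr ⟨v, hQ.2.2⟩
      omega
    · intro Q hQ
      rw [mem_filter] at hQ ⊢
      refine ⟨mem_univ _, ?_, mem_insert_self _ _⟩
      rw [card_insert_of_notMem hQ.2.2]
      exact hQ.2.1
    · intro Q hQ
      rw [mem_filter] at hQ
      exact insert_erase hQ.2.2
    · intro Q hQ
      rw [mem_filter] at hQ
      exact erase_insert hQ.2.2
    · intro Q hQ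
      rw [mem_filter] at hQ
      rw [← hins _ (notMem_erase v Q), insert_erase hQ.2.2]
  have h3 : ∑ Q ∈ (univ : Finset (Finset (Fin M))).filter (fun Q => Q.card ≤ r ∧ v ∉ Q),
      sgn R b h Q x =
      ∑ Q ∈ (univ : Finset (Finset (Fin M))).filter (fun Q => Q.card + 1 ≤ r ∧ v ∉ Q),
        sgn R b h Q x +
      ∑ Q ∈ (univ : Finset (Finset (Fin M))).filter (fun Q => Q.card = r ∧ v ∉ Q),
        sgn R b h Q x := by
    rw [← sum_union]
    · congr 1
      ext Q
      simp only [mem_filter, mem_univ, true_and, mem_union]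
      constructor
      · rintro ⟨h1, h2⟩
        rcases Nat.lt_or_ge Q.card r with h3 | h3
        · left; exact ⟨h3, h2⟩
        · right; exact ⟨le_antisymm h1 h3, h2⟩
      · rintro (⟨h1, h2⟩ | ⟨h1, h2⟩)
        · exact ⟨by omega, h2⟩
        · exact ⟨by omega, h2⟩
    · rw [disjoint_filter]
      intro Q _ h1 h2
      omega
  rw [h1, h2, h3, sum_neg_distrib]
  ring

theorem coll_mono [DecidableEq Kt] {P P' : Finset (Fin n → Kt)} (hP : P ⊆ P')
    (S : Finset (Fin n)) : coll P S ≤ coll P' S := by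
  unfold coll
  refine (sum_le_sum fun x _ => Nat.cast_le.mpr (card_le_card ?_)).trans
    (sum_le_sum_of_subset_of_nonneg hP fun x _ _ => by positivity)
  intro z hz
  simp only [mem_filter] at hz ⊢
  exact ⟨hP hz.1, hz.2⟩

variable [Fintype Kt] [DecidableEq Kt]

theorem coll_univ (S : Finset (Fin n)) :
    coll (univ : Finset (Fin n → Kt)) S * (Fintype.card Kt : ℝ) ^ S.card =
      (Fintype.card (Fin n → Kt) : ℝ) ^ 2 := by
  have h1 : ∀ (x : Fin n → Kt) (A : Finset (Fin n → Kt)),
      (∀ x', x' ∈ A ↔ ∀ i ∈ S, x' i = x i) →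
      (A.card : ℝ) * (Fintype.card Kt : ℝ) ^ S.card = Fintype.card (Fin n → Kt) := by
    intro x A hA
    have h2 : A = Fintype.piFinset fun i => if i ∈ S then ({x i} : Finset Kt) else univ := by
      ext x'
      rw [hA]
      simp only [Fintype.mem_piFinset]
      constructor
      · intro h i
        by_cases hi : i ∈ S
        · simp [hi, h i hi]
        · simp [hi]
      · intro h i hi
        have := h i
        simpa [hi] using this
    rw [h2, Fintype.card_piFinset]
    have h3 : ∀ i : Fin n, (if i ∈ S then ({x i} : Finset Kt) else univ).card =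
        if i ∈ S then 1 else Fintype.card Kt := by
      intro i
      by_cases hi : i ∈ S <;> simp [hi]
    rw [prod_congr rfl fun i _ => h3 i, prod_ite, prod_const_one, one_mul, prod_const]
    have h4 : (univ.filter fun i => i ∉ S).card = n - S.card := by
      have : (univ.filter fun i => i ∉ S) = Sᶜ := by ext; simp
      rw [this, card_compl, Fintype.card_fin]
    have h5 : S.card ≤ n := by simpa using card_le_univ S
    rw [h4, Fintype.card_fun, Fintype.card_fin]
    push_cast
    rw [← pow_add]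
    congr 1
    omega
  unfold coll
  rw [sum_mul, sum_congr rfl fun x _ => h1 x _ (by simp), sum_const, card_univ, nsmul_eq_mul, sq]

/-- absolute bound for all members of the family -/
theorem abs_chi_le [Nonempty Kt] {h : Fin n → Kt → Bool} {θ : ℝ} (hθ : 0 < θ)
    {C : Finset (Fin n → Kt)} {S : Finset (Fin n)}
    (hh : (∑ x ∈ C, chi h S x) ^ 2 ≤ θ ^ S.card * coll C S) :
    (∑ x ∈ C, chi h S x) ^ 2 ≤
      (θ / Fintype.card Kt) ^ S.card * (Fintype.card (Fin n → Kt) : ℝ) ^ 2 := by
  have hK : (0 : ℝ) < Fintype.card Kt := by exact_mod_cast Fintype.card_pos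
  refine hh.trans ?_
  rw [div_pow, div_mul_eq_mul_div, le_div_iff₀ (by positivity), mul_assoc]
  apply mul_le_mul_of_nonneg_left _ (by positivity)
  rw [← coll_univ S]
  exact mul_le_mul_of_nonneg_right (coll_mono (subset_univ C) S) (by positivity)

/-- members of the family on which one equation is violated have small signed measure -/
theorem null_of_viol [Nonempty Kt] {R : Fin M → Fin n → ZMod 2} {b : Fin M → ZMod 2} {u0 r : ℕ}
    (hR : Expd R u0) (hr : r ≤ u0) {h : Fin n → Kt → Bool} {θ : ℝ} (hθ : 0 < θ)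
    (hθK : θ ≤ Fintype.card Kt) {C : Finset (Fin n → Kt)}
    (hh : ∀ S, (∑ x ∈ C, chi h S x) ^ 2 ≤ θ ^ S.card * coll C S) (v : Fin M)
    (hv : ∀ x ∈ C, val R b (yv h x) v ≠ 0) :
    |∑ x ∈ C, dens R b h r x| ≤
      2 ^ M * ((θ / Fintype.card Kt) ^ (2 * r) * Fintype.card (Fin n → Kt)) := by
  have hK : (0 : ℝ) < Fintype.card Kt := by exact_mod_cast Fintype.card_pos
  have hδ0 : 0 ≤ θ / Fintype.card Kt := by positivity
  have hδ1 : θ / Fintype.card Kt ≤ 1 := (div_le_one hK).mpr hθK
  rw [sum_congr rfl fun x hx => dens_of_viol R b h r x v (hv x hx), sum_comm]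
  refine (abs_sum_le_sum_abs _ _).trans ?_
  have h1 : ∀ Q ∈ (univ : Finset (Finset (Fin M))).filter (fun Q => Q.card = r ∧ v ∉ Q),
      |∑ x ∈ C, sgn R b h Q x| ≤ (θ / Fintype.card Kt) ^ (2 * r) * Fintype.card (Fin n → Kt) := by
    intro Q hQ
    rw [mem_filter] at hQ
    simp_rw [sgn_eq]
    rw [← mul_sum, abs_mul, abs_sz, one_mul]
    apply abs_le_of_sq_le_sq _ (by positivity)
    refine (abs_chi_le hθ (hh (supp R Q))).trans ?_
    rw [mul_pow, ← pow_mul]
    apply mul_le_mul_of_nonneg_right _ (by positivity)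
    apply pow_le_pow_of_le_one hδ0 hδ1
    have := hR Q (by omega)
    unfold supp
    omega
  refine (sum_le_sum h1).trans ?_
  rw [sum_const, nsmul_eq_mul]
  apply mul_le_mul_of_nonneg_right _ (by positivity)
  have : ((univ : Finset (Finset (Fin M))).filter (fun Q => Q.card = r ∧ v ∉ Q)).card ≤ 2 ^ M := by
    refine (card_filter_le _ _).trans ?_
    rw [card_univ, Fintype.card_finset, Fintype.card_fin]
  exact_mod_cast this

end H542PM
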