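import Mathlib
import Pool.Agent.H542R2.PMFunc

/-!
Density restoration: every set of pointer tuples is cut into parts which are fixed on few
coordinates and spread on the others.
-/

namespace H542PM

open Finset H542

variable {n : ℕ} {Kt : Type} [Fintype Kt] [DecidableEq Kt]

/-- points of `C` agreeing with `z` on `I` -/
def agr (C : Finset (Fin n → Kt)) (I : Finset (Fin n)) (z : Fin n → Kt) :
    Finset (Fin n → Kt) := C.filter fun x => ∀ i ∈ I, x i = z i

omit [Fintype Kt] in
theorem mem_agr {C : Finset (Fin n → Kt)} {I : Finset (Fin n)} {z x : Fin n → Kt} :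
    x ∈ agr C I z ↔ x ∈ C ∧ ∀ i ∈ I, x i = z i := by
  unfold agr
  rw [mem_filter]

theorem exists_part (L : ℕ) (C : Finset (Fin n → Kt)) (hC : C.Nonempty) :
    ∃ p : Finset (Fin n) × (Fin n → Kt), C.card ≤ L ^ p.1.card * (agr C p.1 p.2).card ∧
      ∀ p' : Finset (Fin n) × (Fin n → Kt),
        C.card ≤ L ^ p'.1.card * (agr C p'.1 p'.2).card → p'.1.card ≤ p.1.card := by
  classical
  obtain ⟨x0, hx0⟩ := hC
  obtain ⟨p, hp, hmax⟩ := exists_max_image
    ((univ : Finset (Finset (Fin n) × (Fin n → Kt))).filter fun p =>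
      C.card ≤ L ^ p.1.card * (agr C p.1 p.2).card) (fun p => p.1.card)
    ⟨(∅, x0), by
      rw [mem_filter]
      refine ⟨mem_univ _, ?_⟩
      have : agr C ∅ x0 = C := by
        ext x
        simp [mem_agr]
      simp [this]⟩
  rw [mem_filter] at hp
  exact ⟨p, hp.2, fun p' hp' => hmax p' (mem_filter.mpr ⟨mem_univ _, hp'⟩)⟩

open Classical in
/-- coordinates fixed by the first part, and their values -/
noncomputable def pI (L : ℕ) (C : Finset (Fin n → Kt)) (hC : C.Nonempty) :
    Finset (Fin n) × (Fin n → Kt) := (exists_part L C hC).choose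

open Classical in
/-- the first part of `C` -/
noncomputable def part (L : ℕ) (C : Finset (Fin n → Kt)) : Finset (Fin n → Kt) :=
  if hC : C.Nonempty then agr C (pI L C hC).1 (pI L C hC).2 else ∅

/-- what remains -/
noncomputable def rem (L : ℕ) (C : Finset (Fin n → Kt)) : Finset (Fin n → Kt) := C \ part L C

theorem part_subset (L : ℕ) (C : Finset (Fin n → Kt)) : part L C ⊆ C := by
  unfold part
  split_ifs
  · exact filter_subset _ _
  · exact empty_subset _

theorem part_eq (L : ℕ) (C : Finset (Fin n → Kt)) (hC : C.Nonempty) :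
    part L C = agr C (pI L C hC).1 (pI L C hC).2 := by
  unfold part
  rw [dif_pos hC]

theorem part_heavy (L : ℕ) (C : Finset (Fin n → Kt)) (hC : C.Nonempty) :
    C.card ≤ L ^ (pI L C hC).1.card * (part L C).card := by
  rw [part_eq L C hC]
  exact (exists_part L C hC).choose_spec.1

theorem part_max (L : ℕ) (C : Finset (Fin n → Kt)) (hC : C.Nonempty)
    (I' : Finset (Fin n)) (z' : Fin n → Kt) (h : C.card ≤ L ^ I'.card * (agr C I' z').card) :
    I'.card ≤ (pI L C hC).1.card :=
  (exists_part L C hC).choose_spec.2 (I', z') h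

theorem part_nonempty (L : ℕ) (C : Finset (Fin n → Kt)) (hC : C.Nonempty) :
    (part L C).Nonempty := by
  by_contra h
  rw [not_nonempty_iff_eq_empty] at h
  have h1 := part_heavy L C hC
  rw [h] at h1
  simp only [card_empty, mul_zero, nonpos_iff_eq_zero, card_eq_zero] at h1
  rw [h1] at hC
  exact not_nonempty_empty hC

theorem card_rem_add (L : ℕ) (C : Finset (Fin n → Kt)) :
    (rem L C).card + (part L C).card = C.card := by
  unfold rem
  exact card_sdiff_add_card_eq_card (part_subset L C)

/-- iterates of `rem` are eventually empty -/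
theorem card_iter (L : ℕ) (C : Finset (Fin n → Kt)) (t : ℕ) :
    ((rem L)^[t] C).card ≤ C.card - t := by
  induction t with
  | zero => simp
  | succ t ih =>
    rw [Function.iterate_succ_apply']
    by_cases h : ((rem L)^[t] C).Nonempty
    · have h1 := card_rem_add L ((rem L)^[t] C)
      have h2 := card_pos.mpr (part_nonempty L _ h)
      omega
    · rw [not_nonempty_iff_eq_empty] at h
      have h1 := card_rem_add L ((rem L)^[t] C)
      rw [h, card_empty] at h1
      rw [h]
      omega

theorem card_agr_mul (C : Finset (Fin n → Kt)) (I : Finset (Fin n)) (z : Fin n → Kt) :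
    (agr C I z).card * Fintype.card Kt ^ I.card ≤ Fintype.card (Fin n → Kt) := by
  have h0 : agr C I z ⊆ Fintype.piFinset fun i => if i ∈ I then ({z i} : Finset Kt) else univ := by
    intro x hx
    rw [mem_agr] at hx
    rw [Fintype.mem_piFinset]
    intro i
    by_cases hi : i ∈ I
    · simp [hi, hx.2 i hi]
    · simp [hi]
  have h1 := card_le_card h0
  rw [Fintype.card_piFinset] at h1
  have h3 : ∀ i : Fin n, (if i ∈ I then ({z i} : Finset Kt) else univ).card =
      if i ∈ I then 1 else Fintype.card Kt := by
    intro i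
    by_cases hi : i ∈ I <;> simp [hi]
  rw [prod_congr rfl fun i _ => h3 i, prod_ite, prod_const_one, one_mul, prod_const] at h1
  have h4 : (univ.filter fun i => i ∉ I).card = n - I.card := by
    have : (univ.filter fun i => i ∉ I) = Iᶜ := by ext; simp
    rw [this, card_compl, Fintype.card_fin]
  have h5 : I.card ≤ n := by simpa using card_le_univ I
  rw [h4] at h1
  rw [Fintype.card_fun, Fintype.card_fin]
  calc (agr C I z).card * Fintype.card Kt ^ I.card
      ≤ Fintype.card Kt ^ (n - I.card) * Fintype.card Kt ^ I.card :=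
        Nat.mul_le_mul_right _ h1
    _ = Fintype.card Kt ^ n := by
        rw [← pow_add]
        congr 1
        omega

/-- if the first part fixes many coordinates then the set is small -/
theorem card_of_big {L : ℕ} (hL : 1 ≤ L) (hK : Fintype.card Kt = L ^ 2)
    (C : Finset (Fin n → Kt)) (hC : C.Nonempty) {w : ℕ} (hw : w ≤ (pI L C hC).1.card) :
    C.card * L ^ w ≤ Fintype.card (Fin n → Kt) := by
  have h1 := part_heavy L C hC
  have h2 := card_agr_mul C (pI L C hC).1 (pI L C hC).2
  rw [← part_eq L C hC, hK] at h2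
  calc C.card * L ^ w ≤ C.card * L ^ (pI L C hC).1.card :=
        Nat.mul_le_mul_left _ (Nat.pow_le_pow_right hL hw)
    _ ≤ (L ^ (pI L C hC).1.card * (part L C).card) * L ^ (pI L C hC).1.card :=
        Nat.mul_le_mul_right _ h1
    _ = (part L C).card * (L ^ 2) ^ (pI L C hC).1.card := by ring
    _ ≤ _ := h2

/-- the first part is spread outside its fixed coordinates -/
theorem part_spread {L : ℕ} (C : Finset (Fin n → Kt)) (hC : C.Nonempty)
    (S : Finset (Fin n)) (hS : Disjoint (pI L C hC).1 S) (y : Fin n → Kt) :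
    (agr (part L C) S y).card * L ^ S.card ≤ (part L C).card := by
  by_contra hcon
  push Not at hcon
  set I := (pI L C hC).1 with hI
  set z := (pI L C hC).2 with hz
  have h1 := part_heavy L C hC
  have h2 : agr C (I ∪ S) (fun i => if i ∈ S then y i else z i) = agr (part L C) S y := by
    ext x
    rw [part_eq L C hC, mem_agr, mem_agr, mem_agr]
    constructor
    · rintro ⟨hx, h⟩
      refine ⟨⟨hx, fun i hi => ?_⟩, fun i hi => ?_⟩
      · have := h i (mem_union_left _ hi)
        have hiS : i ∉ S := fun h => (disjoint_left.mp hS) hi h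
        simpa [hiS] using this
      · have := h i (mem_union_right _ hi)
        simpa [hi] using this
    · rintro ⟨⟨hx, h3⟩, h4⟩
      refine ⟨hx, fun i hi => ?_⟩
      by_cases hiS : i ∈ S
      · simpa [hiS] using h4 i hiS
      · simp only [hiS, if_false]
        rcases mem_union.mp hi with h5 | h5
        · exact h3 i h5
        · exact absurd h5 hiS
  have hpos : 0 < (part L C).card := card_pos.mpr (part_nonempty L C hC)
  have h3 := part_max L C hC (I ∪ S) (fun i => if i ∈ S then y i else z i) (by
    rw [h2, card_union_of_disjoint hS, pow_add]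
    refine h1.trans ?_
    rw [mul_assoc]
    apply Nat.mul_le_mul_left
    rw [mul_comm]
    exact hcon.le)
  rw [card_union_of_disjoint hS, ← hI] at h3
  have h4 : S.card = 0 := by omega
  rw [card_eq_zero] at h4
  rw [h4] at hcon
  simp only [card_empty, pow_zero, mul_one] at hcon
  have h5 : (agr (part L C) ∅ y).card ≤ (part L C).card := card_filter_le _ _
  omega

theorem coll_part {L : ℕ} (C : Finset (Fin n → Kt)) (hC : C.Nonempty)
    (S : Finset (Fin n)) (hS : Disjoint (pI L C hC).1 S) :
    coll (part L C) S * (L : ℝ) ^ S.card ≤ ((part L C).card : ℝ) ^ 2 := by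
  unfold coll
  rw [sum_mul]
  have h1 : ∀ (x : Fin n → Kt) (A : Finset (Fin n → Kt)),
      (∀ x', x' ∈ A ↔ x' ∈ part L C ∧ ∀ i ∈ S, x' i = x i) →
      (A.card : ℝ) * (L : ℝ) ^ S.card ≤ (part L C).card := by
    intro x A hA
    have := part_spread C hC S hS x
    have h2 : agr (part L C) S x = A := by
      ext x'
      rw [mem_agr, hA]
    rw [h2] at this
    exact_mod_cast this
  refine (sum_le_sum fun x hx => h1 x _ (by simp [mem_filter])).trans ?_
  rw [sum_const, nsmul_eq_mul, sq]

/-- the characters are small on the first part -/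
theorem chi_part {L : ℕ} (hL : 1 ≤ L) {h : Fin n → Kt → Bool} {θ : ℝ} (hθ : 0 < θ)
    (C : Finset (Fin n → Kt)) (hC : C.Nonempty)
    (hh : ∀ S, (∑ x ∈ part L C, chi h S x) ^ 2 ≤ θ ^ S.card * coll (part L C) S)
    (T : Finset (Fin n)) :
    (∑ x ∈ part L C, chi h T x) ^ 2 ≤
      (θ / L) ^ (T \ (pI L C hC).1).card * ((part L C).card : ℝ) ^ 2 := by
  set I := (pI L C hC).1 with hI
  set z := (pI L C hC).2 with hz
  have hL0 : (0 : ℝ) < L := by exact_mod_cast hL
  have h1 : ∀ x ∈ part L C, chi h T x = chi h (T ∩ I) z * chi h (T \ I) x := by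
    intro x hx
    rw [part_eq L C hC, mem_agr] at hx
    unfold chi
    rw [← prod_sdiff (s₁ := T ∩ I) (s₂ := T) inter_subset_left, sdiff_inter_self_left, mul_comm]
    congr 1
    refine prod_congr rfl fun i hi => ?_
    rw [hx.2 i (mem_inter.mp hi).2]
  have h2 : (chi h (T ∩ I) z) ^ 2 = 1 := by
    unfold chi
    rw [← prod_pow]
    refine prod_eq_one fun i _ => ?_
    rw [sq, sg_sq]
  rw [sum_congr rfl h1, ← mul_sum, mul_pow, h2, one_mul]
  refine (hh (T \ I)).trans ?_
  rw [div_pow, div_mul_eq_mul_div, le_div_iff₀ (by positivity), mul_assoc]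
  apply mul_le_mul_of_nonneg_left _ (by positivity)
  exact coll_part C hC (T \ I) disjoint_sdiff

end H542PM
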