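import Mathlib
import Pool.Agent.H542R2.PMPart

/-!
The signed density has almost nonnegative integral over every set of a small family.
-/

namespace H542PM

open Finset H542

variable {n M : ℕ} {Kt : Type}

theorem sgn_symmDiff (R : Fin M → Fin n → ZMod 2) (b : Fin M → ZMod 2)
    (h : Fin n → Kt → Bool) (Q Q' : Finset (Fin M)) (x : Fin n → Kt) :
    sgn R b h (symmDiff Q Q') x = sgn R b h Q x * sgn R b h Q' x := by
  unfold sgn
  rw [sum_symmDiff2, sz_add]

theorem card_symmDiff_le (Q Q' : Finset (Fin M)) :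
    (symmDiff Q Q').card ≤ Q.card + Q'.card := by
  have : symmDiff Q Q' ⊆ Q ∪ Q' := by
    intro x hx
    rw [mem_symmDiff] at hx
    rw [mem_union]
    tauto
  exact (card_le_card this).trans (card_union_le _ _)

theorem notMem_supp {R : Fin M → Fin n → ZMod 2} {Q : Finset (Fin M)} {i : Fin n} :
    i ∉ supp R Q ↔ ∑ v ∈ Q, R v i = 0 := by
  simp [supp]

theorem supp_symmDiff {R : Fin M → Fin n → ZMod 2} {Q Q' : Finset (Fin M)} {I : Finset (Fin n)}
    (h : ∀ i, i ∉ I → (i ∈ supp R Q ↔ i ∈ supp R Q')) : supp R (symmDiff Q Q') ⊆ I := by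
  intro i hi
  by_contra hI
  apply (notMem_supp.mpr ?_) hi
  rw [sum_symmDiff2]
  by_cases h1 : i ∈ supp R Q
  · have h2 := (h i hI).mp h1
    simp only [supp, mem_filter, mem_univ, true_and] at h1 h2
    rw [zmod2_ne_zero h1, zmod2_ne_zero h2]
    exact CharTwo.add_self_eq_zero _
  · have h2 := fun h3 => h1 ((h i hI).mpr h3)
    rw [notMem_supp.mp h1, notMem_supp.mp h2, add_zero]

theorem sgn_fixed {R : Fin M → Fin n → ZMod 2} {b : Fin M → ZMod 2}
    {h : Fin n → Kt → Bool} {Q : Finset (Fin M)} {I : Finset (Fin n)} (hQ : supp R Q ⊆ I)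
    {x z : Fin n → Kt} (hx : ∀ i ∈ I, x i = z i) : sgn R b h Q x = sgn R b h Q z := by
  rw [sgn_eq, sgn_eq]
  congr 1
  unfold chi
  exact prod_congr rfl fun i hi => by rw [hx i (hQ hi)]

theorem sum_nonempty_le {n : ℕ} {ε : ℝ} (hε : 0 ≤ ε) (hn : 4 * (n * ε) ≤ 1) :
    ∑ D ∈ (univ : Finset (Finset (Fin n))).erase ∅, ε ^ D.card ≤ 1 / 2 := by
  have h1 : ∑ D : Finset (Fin n), ε ^ D.card = (ε + 1) ^ n := by
    have := Finset.sum_pow_mul_eq_add_pow ε 1 (univ : Finset (Fin n))
    simpa using this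
  have h2 : ε ^ (∅ : Finset (Fin n)).card +
      ∑ D ∈ (univ : Finset (Finset (Fin n))).erase ∅, ε ^ D.card = (ε + 1) ^ n := by
    rw [← h1]
    exact add_sum_erase _ (fun D : Finset (Fin n) => ε ^ D.card) (mem_univ ∅)
  rw [card_empty, pow_zero] at h2
  have h3 : (ε + 1) ^ n ≤ Real.exp (n * ε) := by
    rw [Real.exp_nat_mul]
    exact pow_le_pow_left₀ (by linarith) (Real.add_one_le_exp ε) n
  have h4 : (1 - n * ε) * Real.exp (n * ε) ≤ 1 := by
    have h5 := Real.one_sub_le_exp_neg (n * ε)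
    calc (1 - n * ε) * Real.exp (n * ε) ≤ Real.exp (-(n * ε)) * Real.exp (n * ε) :=
          mul_le_mul_of_nonneg_right h5 (Real.exp_pos _).le
      _ = 1 := by rw [← Real.exp_add]; simp
  have h6 : Real.exp (n * ε) ≤ 3 / 2 := by
    have := Real.exp_pos (n * ε)
    nlinarith
  linarith

section
variable {R : Fin M → Fin n → ZMod 2} {b : Fin M → ZMod 2} {u0 r : ℕ}
  {h : Fin n → Kt → Bool} {δ : ℝ} {P : Finset (Fin n → Kt)} {I : Finset (Fin n)} {z : Fin n → Kt}

theorem abs_sum_sgn_le (hδ : 0 ≤ δ)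
    (hchi : ∀ T, (∑ x ∈ P, chi h T x) ^ 2 ≤ δ ^ (T \ I).card * (P.card : ℝ) ^ 2)
    (Q : Finset (Fin M)) :
    |∑ x ∈ P, sgn R b h Q x| ≤ Real.sqrt δ ^ (supp R Q \ I).card * P.card := by
  simp_rw [sgn_eq]
  rw [← mul_sum, abs_mul, abs_sz, one_mul]
  apply abs_le_of_sq_le_sq _ (by positivity)
  refine (hchi _).trans (le_of_eq ?_)
  rw [mul_pow, ← pow_mul, mul_comm _ 2, pow_mul, Real.sq_sqrt hδ]

theorem small_of_supp (hR : Expd R u0) (hu : 2 * r ≤ u0) (hI : I.card ≤ r)
    {Q : Finset (Fin M)} (hQ : Q.card ≤ 2 * r) (hs : supp R Q ⊆ I) : 4 * Q.card ≤ r := by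
  have h1 := hR Q (by omega)
  have h2 := card_le_card hs
  unfold supp at h2
  omega

/-- the consistent case -/
theorem pos_consistent (hR : Expd R u0) (hu : 2 * r ≤ u0) (hI : I.card ≤ r)
    (hδ : 0 ≤ δ) (hn : 4 * (n * Real.sqrt δ) ≤ 1)
    (hfix : ∀ x ∈ P, ∀ i ∈ I, x i = z i)
    (hchi : ∀ T, (∑ x ∈ P, chi h T x) ^ 2 ≤ δ ^ (T \ I).card * (P.card : ℝ) ^ 2)
    (hcons : ∀ Q ∈ Qs M r, supp R Q ⊆ I → sgn R b h Q z = 1) :
    (P.card : ℝ) / 2 ≤ ∑ x ∈ P, dens R b h r x := by
  classical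
  set ε := Real.sqrt δ with hε
  have hε0 : 0 ≤ ε := Real.sqrt_nonneg δ
  unfold dens
  rw [sum_comm, ← sum_filter_add_sum_filter_not (Qs M r) (fun Q => supp R Q ⊆ I)]
  set K := (Qs M r).filter fun Q => supp R Q ⊆ I with hK
  have h1 : ∑ Q ∈ K, ∑ x ∈ P, sgn R b h Q x = K.card * P.card := by
    rw [← nsmul_eq_mul, ← sum_const]
    refine sum_congr rfl fun Q hQ => ?_
    rw [hK, mem_filter] at hQ
    rw [sum_congr rfl fun x hx => (sgn_fixed hQ.2 (hfix x hx)).trans (hcons Q hQ.1 hQ.2)]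
    simp
  have hKpos : 1 ≤ K.card := by
    apply card_pos.mpr
    refine ⟨∅, ?_⟩
    rw [hK, mem_filter]
    constructor
    · simp [Qs]
    · intro i hi
      simp [supp] at hi
  have hfib : ∀ D : Finset (Fin n),
      (((Qs M r).filter fun Q => ¬ supp R Q ⊆ I).filter fun Q => supp R Q \ I = D).card ≤
        K.card := by
    intro D
    by_cases hne : (((Qs M r).filter fun Q => ¬ supp R Q ⊆ I).filter
        fun Q => supp R Q \ I = D).Nonempty
    · obtain ⟨Q0, hQ0⟩ := hne
      rw [mem_filter, mem_filter] at hQ0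
      have hQ0r : Q0.card ≤ r := by
        have := hQ0.1.1
        unfold Qs at this
        rw [mem_filter] at this
        exact this.2
      apply card_le_card_of_injOn (fun Q => symmDiff Q Q0)
      · intro Q hQ
        rw [mem_coe, mem_filter, mem_filter] at hQ
        have hQr : Q.card ≤ r := by
          have := hQ.1.1
          unfold Qs at this
          rw [mem_filter] at this
          exact this.2
        rw [mem_coe, hK, mem_filter]
        have hs : supp R (symmDiff Q Q0) ⊆ I := by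
          apply supp_symmDiff
          intro i hi
          have e1 : i ∈ supp R Q ↔ i ∈ D := by
            rw [← hQ.2, mem_sdiff]
            tauto
          have e2 : i ∈ supp R Q0 ↔ i ∈ D := by
            rw [← hQ0.2, mem_sdiff]
            tauto
          rw [e1, e2]
        refine ⟨?_, hs⟩
        unfold Qs
        rw [mem_filter]
        refine ⟨mem_univ _, ?_⟩
        have h3 := card_symmDiff_le Q Q0
        have h4 := small_of_supp hR hu hI (Q := symmDiff Q Q0) (by omega) hs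
        show (symmDiff Q Q0).card ≤ r
        omega
      · intro Q _ Q' _ hQQ
        exact symmDiff_left_injective Q0 hQQ
    · rw [not_nonempty_iff_eq_empty] at hne
      rw [hne]
      simp
  have h2 : |∑ Q ∈ (Qs M r).filter (fun Q => ¬ supp R Q ⊆ I), ∑ x ∈ P, sgn R b h Q x| ≤
      K.card * P.card * (1 / 2) := by
    refine (abs_sum_le_sum_abs _ _).trans ?_
    refine (sum_le_sum fun Q _ => abs_sum_sgn_le hδ hchi Q).trans ?_
    rw [← hε, ← sum_mul]
    have h3 : ∑ Q ∈ (Qs M r).filter (fun Q => ¬ supp R Q ⊆ I), ε ^ (supp R Q \ I).card ≤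
        K.card * (1 / 2) := by
      rw [← Finset.sum_fiberwise_of_maps_to (s := (Qs M r).filter (fun Q => ¬ supp R Q ⊆ I))
        (t := (univ : Finset (Finset (Fin n))).erase ∅) (g := fun Q => supp R Q \ I) (by
          intro Q hQ
          rw [mem_filter] at hQ
          rw [mem_erase]
          refine ⟨?_, mem_univ _⟩
          intro h4
          exact hQ.2 (sdiff_eq_empty_iff_subset.mp h4))]
      calc ∑ D ∈ (univ : Finset (Finset (Fin n))).erase ∅,
            ∑ Q ∈ ((Qs M r).filter (fun Q => ¬ supp R Q ⊆ I)).filter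
              (fun Q => supp R Q \ I = D), ε ^ (supp R Q \ I).card
          ≤ ∑ D ∈ (univ : Finset (Finset (Fin n))).erase ∅, (K.card : ℝ) * ε ^ D.card := by
            refine sum_le_sum fun D _ => ?_
            have h5 : ∀ Q ∈ ((Qs M r).filter (fun Q => ¬ supp R Q ⊆ I)).filter
              (fun Q => supp R Q \ I = D), ε ^ (supp R Q \ I).card = ε ^ D.card := by
              intro Q hQ
              rw [mem_filter] at hQ
              rw [hQ.2]
            rw [sum_congr rfl h5, sum_const, nsmul_eq_mul]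
            apply mul_le_mul_of_nonneg_right _ (by positivity)
            exact_mod_cast hfib D
        _ = K.card * ∑ D ∈ (univ : Finset (Finset (Fin n))).erase ∅, ε ^ D.card := by
            rw [mul_sum]
        _ ≤ K.card * (1 / 2) := by
            apply mul_le_mul_of_nonneg_left _ (by positivity)
            exact sum_nonempty_le hε0 hn
    calc (∑ Q ∈ (Qs M r).filter (fun Q => ¬ supp R Q ⊆ I), ε ^ (supp R Q \ I).card) *
          (P.card : ℝ) ≤ K.card * (1 / 2) * P.card :=
          mul_le_mul_of_nonneg_right h3 (by positivity)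
      _ = _ := by ring
  rw [h1]
  have h3 := (abs_le.mp h2).1
  have h4 : (1 : ℝ) ≤ K.card := by exact_mod_cast hKpos
  have h5 : (0 : ℝ) ≤ P.card := by positivity
  nlinarith

/-- the inconsistent case -/
theorem abs_inconsistent (hR : Expd R u0) (hu : 2 * r ≤ u0) (hI : I.card ≤ r)
    (hδ : 0 ≤ δ) (hδ1 : δ ≤ 1)
    (hfix : ∀ x ∈ P, ∀ i ∈ I, x i = z i)
    (hchi : ∀ T, (∑ x ∈ P, chi h T x) ^ 2 ≤ δ ^ (T \ I).card * (P.card : ℝ) ^ 2)
    {K0 : Finset (Fin M)} (hK0 : K0 ∈ Qs M r) (hK0I : supp R K0 ⊆ I)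
    (hsg : sgn R b h K0 z ≠ 1) :
    |∑ x ∈ P, dens R b h r x| ≤ 2 ^ M * (δ ^ r * P.card) := by
  classical
  have hm1 : sgn R b h K0 z = -1 := by
    have h1 : sgn R b h K0 z = 1 ∨ sgn R b h K0 z = -1 := by
      unfold sgn sz
      split_ifs
      · left; rfl
      · right; rfl
    exact h1.resolve_left hsg
  have hneg : ∀ Q, ∑ x ∈ P, sgn R b h (symmDiff Q K0) x = -∑ x ∈ P, sgn R b h Q x := by
    intro Q
    rw [← sum_neg_distrib]
    refine sum_congr rfl fun x hx => ?_
    rw [sgn_symmDiff, sgn_fixed hK0I (hfix x hx), hm1]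
    ring
  have hK0r : K0.card ≤ r := by
    unfold Qs at hK0
    rw [mem_filter] at hK0
    exact hK0.2
  have hK04 := small_of_supp hR hu hI (Q := K0) (by omega) hK0I
  unfold dens
  rw [sum_comm, ← sum_filter_add_sum_filter_not (Qs M r) (fun Q => symmDiff Q K0 ∈ Qs M r)]
  have h1 : ∑ Q ∈ (Qs M r).filter (fun Q => symmDiff Q K0 ∈ Qs M r),
      ∑ x ∈ P, sgn R b h Q x = 0 := by
    have h2 : ∑ Q ∈ (Qs M r).filter (fun Q => symmDiff Q K0 ∈ Qs M r),
      ∑ x ∈ P, sgn R b h Q x = ∑ Q ∈ (Qs M r).filter (fun Q => symmDiff Q K0 ∈ Qs M r),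
      -∑ x ∈ P, sgn R b h Q x := by
      refine sum_nbij' (fun Q => symmDiff Q K0) (fun Q => symmDiff Q K0) ?_ ?_ ?_ ?_ ?_
      · intro Q hQ
        rw [mem_filter] at hQ ⊢
        rw [symmDiff_symmDiff_cancel_right]
        exact ⟨hQ.2, hQ.1⟩
      · intro Q hQ
        rw [mem_filter] at hQ ⊢
        rw [symmDiff_symmDiff_cancel_right]
        exact ⟨hQ.2, hQ.1⟩
      · intro Q _
        exact symmDiff_symmDiff_cancel_right _ _
      · intro Q _
        exact symmDiff_symmDiff_cancel_right _ _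
      · intro Q _
        rw [hneg, neg_neg]
    rw [sum_neg_distrib] at h2
    linarith
  rw [h1, zero_add]
  refine (abs_sum_le_sum_abs _ _).trans ?_
  have hε0 : 0 ≤ Real.sqrt δ := Real.sqrt_nonneg δ
  have hε1 : Real.sqrt δ ≤ 1 := Real.sqrt_le_one.mpr hδ1
  have h2 : ∀ Q ∈ (Qs M r).filter (fun Q => ¬ symmDiff Q K0 ∈ Qs M r),
      |∑ x ∈ P, sgn R b h Q x| ≤ δ ^ r * P.card := by
    intro Q hQ
    rw [mem_filter] at hQ
    unfold Qs at hQ
    rw [mem_filter, mem_filter] at hQ
    refine (abs_sum_sgn_le hδ hchi Q).trans ?_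
    apply mul_le_mul_of_nonneg_right _ (by positivity)
    have h3 : δ ^ r = Real.sqrt δ ^ (2 * r) := by
      rw [pow_mul, Real.sq_sqrt hδ]
    rw [h3]
    apply pow_le_pow_of_le_one hε0 hε1
    have h4 := card_symmDiff_le Q K0
    have h5 : r < (symmDiff Q K0).card := by
      by_contra hcon
      exact hQ.2 ⟨mem_univ _, by omega⟩
    have h6 := hR Q (by omega)
    have h7 : (supp R Q).card ≤ (supp R Q \ I).card + I.card := by
      refine (card_le_card (t := (supp R Q \ I) ∪ I) ?_).trans (card_union_le _ _)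
      intro i hi
      rw [mem_union, mem_sdiff]
      tauto
    unfold supp at h7
    unfold supp
    omega
  refine (sum_le_sum h2).trans ?_
  rw [sum_const, nsmul_eq_mul]
  apply mul_le_mul_of_nonneg_right _ (by positivity)
  refine le_trans ?_ (card_Qs_le M r)
  exact_mod_cast card_filter_le _ _

end

end H542PM
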