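import Mathlib
import Pool.Agent.H542R2.PMPos

/-!
Existence of the signed density for an arbitrary small family of sets.
-/

namespace H542PM

open Finset H542

variable {n M : ℕ} {Kt : Type} [Fintype Kt] [DecidableEq Kt]

theorem sum_rem (L : ℕ) (C : Finset (Fin n → Kt)) (f : (Fin n → Kt) → ℝ) :
    ∑ x ∈ C, f x = ∑ x ∈ rem L C, f x + ∑ x ∈ part L C, f x := by
  unfold rem
  exact (sum_sdiff (part_subset L C)).symm

theorem pos_iter {L : ℕ} (hL : 1 ≤ L) (hK : Fintype.card Kt = L ^ 2)
    {R : Fin M → Fin n → ZMod 2} {b : Fin M → ZMod 2} {u0 r : ℕ} (hR : Expd R u0)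
    (hu : 2 * r ≤ u0) {h : Fin n → Kt → Bool} {θ : ℝ} (hθ : 0 < θ) (hθL : θ ≤ L)
    (hn : 4 * (n * Real.sqrt (θ / L)) ≤ 1) (C : Finset (Fin n → Kt))
    (hh : ∀ t ≤ Fintype.card (Fin n → Kt), ∀ S,
      (∑ x ∈ part L ((rem L)^[t] C), chi h S x) ^ 2 ≤
        θ ^ S.card * coll (part L ((rem L)^[t] C)) S) (m : ℕ) :
    ∀ t, ((rem L)^[t] C).card ≤ m →
      -(2 ^ M * (θ / L) ^ r * ((rem L)^[t] C).card +
        2 ^ M * (Fintype.card (Fin n → Kt) / (L : ℝ) ^ r)) ≤
      ∑ x ∈ (rem L)^[t] C, dens R b h r x := by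
  have hL0 : (0 : ℝ) < L := by exact_mod_cast hL
  have hδ0 : 0 ≤ θ / L := by positivity
  have hδ1 : θ / L ≤ 1 := (div_le_one hL0).mpr hθL
  induction m with
  | zero =>
    intro t ht
    have h1 : (rem L)^[t] C = ∅ := by
      rw [← card_eq_zero]
      omega
    rw [h1, sum_empty, card_empty]
    have : (0 : ℝ) ≤ 2 ^ M * (Fintype.card (Fin n → Kt) / (L : ℝ) ^ r) := by positivity
    simp only [Nat.cast_zero, mul_zero, zero_add]
    linarith
  | succ m ih =>
    intro t ht
    set D := (rem L)^[t] C with hD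
    have hA : (0 : ℝ) ≤ 2 ^ M * (Fintype.card (Fin n → Kt) / (L : ℝ) ^ r) := by positivity
    have hB : (0 : ℝ) ≤ 2 ^ M * (θ / L) ^ r * D.card := by positivity
    by_cases hne : D.Nonempty
    swap
    · rw [not_nonempty_iff_eq_empty] at hne
      rw [hne, sum_empty, card_empty]
      simp only [Nat.cast_zero, mul_zero, zero_add]
      linarith
    have htX : t ≤ Fintype.card (Fin n → Kt) := by
      have h1 := card_iter L C t
      rw [← hD] at h1
      have h2 := card_pos.mpr hne
      have h3 : C.card ≤ Fintype.card (Fin n → Kt) := card_le_univ C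
      omega
    by_cases hbig : r ≤ (pI L D hne).1.card
    · have h1 := card_of_big hL hK D hne hbig
      have h2 : |∑ x ∈ D, dens R b h r x| ≤ 2 ^ M * D.card := by
        refine (abs_sum_le_sum_abs _ _).trans ?_
        refine (sum_le_sum fun x _ => abs_dens_le R b h r x).trans ?_
        rw [sum_const, nsmul_eq_mul, mul_comm]
      have h3 : (D.card : ℝ) ≤ Fintype.card (Fin n → Kt) / (L : ℝ) ^ r := by
        rw [le_div_iff₀ (by positivity)]
        exact_mod_cast h1
      have h4 : (2 : ℝ) ^ M * D.card ≤ 2 ^ M * (Fintype.card (Fin n → Kt) / (L : ℝ) ^ r) :=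
        mul_le_mul_of_nonneg_left h3 (by positivity)
      have h5 := (abs_le.mp h2).1
      linarith
    · push Not at hbig
      have hfix : ∀ x ∈ part L D, ∀ i ∈ (pI L D hne).1, x i = (pI L D hne).2 i := by
        intro x hx
        rw [part_eq L D hne, mem_agr] at hx
        exact hx.2
      have hchi := chi_part hL hθ D hne (hh t htX)
      have hpart : -(2 ^ M * (θ / L) ^ r * (part L D).card) ≤
          ∑ x ∈ part L D, dens R b h r x := by
        have hC0 : (0 : ℝ) ≤ 2 ^ M * (θ / L) ^ r * (part L D).card := by positivity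
        by_cases hcons : ∀ Q ∈ Qs M r, supp R Q ⊆ (pI L D hne).1 →
            sgn R b h Q (pI L D hne).2 = 1
        · have h1 := pos_consistent hR hu hbig.le hδ0 hn hfix hchi hcons
          have h2 : (0 : ℝ) ≤ ((part L D).card : ℝ) / 2 := by positivity
          linarith
        · push Not at hcons
          obtain ⟨K0, hK0, hK0I, hsg⟩ := hcons
          have h1 := abs_inconsistent hR hu hbig.le hδ0 hδ1 hfix hchi hK0 hK0I hsg
          have h2 := (abs_le.mp h1).1
          rw [← mul_assoc] at h2
          exact h2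
      have hrem : (rem L)^[t + 1] C = rem L D := by
        rw [Function.iterate_succ_apply']
      have hc := card_rem_add L D
      have hp := card_pos.mpr (part_nonempty L D hne)
      have h1 := ih (t + 1) (by rw [hrem]; omega)
      rw [hrem] at h1
      rw [sum_rem L D]
      have h2 : (D.card : ℝ) = (rem L D).card + (part L D).card := by
        exact_mod_cast hc.symm
      rw [h2]
      linarith

theorem main_measure [Nonempty Kt] {L : ℕ} (hL : 1 ≤ L) (hK : Fintype.card Kt = L ^ 2)
    {R : Fin M → Fin n → ZMod 2} {b : Fin M → ZMod 2} {u0 r : ℕ} (hR : Expd R u0)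
    (hu : 2 * r ≤ u0) {θ : ℝ} (hθ : 1 ≤ θ) (hθL : θ ≤ L)
    (hn : 4 * (n * Real.sqrt (θ / L)) ≤ 1) (F : Finset (Finset (Fin n → Kt)))
    (hcard : 2 * ((((F.card : ℝ) * (Fintype.card (Fin n → Kt) + 2) + 1) *
      (Fintype.card Kt + 1) ^ n + 1) * 2 ^ n) ≤ Real.exp (θ / 2)) :
    ∃ h : Fin n → Kt → Bool,
      (Fintype.card (Fin n → Kt) : ℝ) / 2 ≤ ∑ x : Fin n → Kt, dens R b h r x ∧
      (∀ C ∈ F, -(2 ^ (M + 1) * (θ / L) ^ r * Fintype.card (Fin n → Kt)) ≤
        ∑ x ∈ C, dens R b h r x) ∧
      ∀ C ∈ F, ∀ v, (∀ x ∈ C, val R b (yv h x) v ≠ 0) →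
        |∑ x ∈ C, dens R b h r x| ≤
          2 ^ (M + 1) * (θ / L) ^ r * Fintype.card (Fin n → Kt) := by
  classical
  have hθ0 : 0 < θ := by linarith
  have hL0 : (0 : ℝ) < L := by exact_mod_cast hL
  have hL1 : (1 : ℝ) ≤ L := by exact_mod_cast hL
  have hδ0 : 0 ≤ θ / L := by positivity
  have hδ1 : θ / L ≤ 1 := (div_le_one hL0).mpr hθL
  have hKR : (Fintype.card Kt : ℝ) = L ^ 2 := by exact_mod_cast hK
  have hLK : (L : ℝ) ≤ Fintype.card Kt := by rw [hKR]; nlinarith
  have hθK : θ / Fintype.card Kt ≤ θ / L := div_le_div_of_nonneg_left hθ0.le hL0 hLK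
  let G : Finset (Finset (Fin n → Kt)) :=
    insert univ (F ∪ (F ×ˢ range (Fintype.card (Fin n → Kt) + 1)).image
      fun v => part L ((rem L)^[v.2] v.1))
  have hG : (G.card : ℝ) ≤ (F.card : ℝ) * (Fintype.card (Fin n → Kt) + 2) + 1 := by
    have h1 : G.card ≤ F.card * (Fintype.card (Fin n → Kt) + 2) + 1 := by
      refine (card_insert_le _ _).trans ?_
      apply Nat.add_le_add_right
      refine (card_union_le _ _).trans ?_
      have h2 : ((F ×ˢ range (Fintype.card (Fin n → Kt) + 1)).image
          fun v => part L ((rem L)^[v.2] v.1)).card ≤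
          F.card * (Fintype.card (Fin n → Kt) + 1) := by
        refine card_image_le.trans ?_
        rw [card_product, card_range]
      calc F.card + _ ≤ F.card + F.card * (Fintype.card (Fin n → Kt) + 1) :=
            Nat.add_le_add_left h2 _
        _ = F.card * (Fintype.card (Fin n → Kt) + 2) := by ring
    exact_mod_cast h1
  obtain ⟨h, hh⟩ := exists_hash G θ hθ0 (by
    refine le_trans ?_ hcard
    rw [Fintype.card_fin]
    apply mul_le_mul_of_nonneg_left _ (by norm_num)
    apply mul_le_mul_of_nonneg_right _ (by positivity)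
    apply add_le_add_left
    exact mul_le_mul_of_nonneg_right hG (by positivity))
  refine ⟨h, ?_, ?_, ?_⟩
  · obtain ⟨z⟩ : Nonempty (Fin n → Kt) := inferInstance
    have h1 := pos_consistent (R := R) (b := b) (P := (univ : Finset (Fin n → Kt)))
      (I := ∅) (z := z) (h := h) (δ := θ / L) (r := r) hR hu (by simp) hδ0 hn (by simp) (by
        intro T
        refine (abs_chi_le hθ0 (hh univ (mem_insert_self _ _) T)).trans ?_
        rw [sdiff_empty, card_univ]
        apply mul_le_mul_of_nonneg_right _ (by positivity)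
        exact pow_le_pow_left₀ (by positivity) hθK _) (by
        intro Q hQ hs
        unfold Qs at hQ
        rw [mem_filter] at hQ
        have h2 := hR Q (by omega)
        have h3 := card_le_card hs
        unfold supp at h3
        rw [card_empty] at h3
        have h4 : Q = ∅ := by
          rw [← card_eq_zero]
          omega
        subst h4
        simp [sgn, sz])
    rw [card_univ] at h1
    exact h1
  · intro C hC
    have h1 := pos_iter (b := b) (h := h) hL hK hR hu hθ0 hθL hn C (by
      intro t ht S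
      apply hh
      apply mem_insert_of_mem
      rw [mem_union]
      right
      exact mem_image.mpr ⟨(C, t), mem_product.mpr ⟨hC, mem_range.mpr (by omega)⟩, rfl⟩)
      C.card 0 (by simp)
    simp only [Function.iterate_zero, id_eq] at h1
    refine le_trans ?_ h1
    apply neg_le_neg
    have h2 : (C.card : ℝ) ≤ Fintype.card (Fin n → Kt) := by exact_mod_cast card_le_univ C
    have h3 : (2 : ℝ) ^ M * (θ / L) ^ r * C.card ≤
        2 ^ M * (θ / L) ^ r * Fintype.card (Fin n → Kt) :=
      mul_le_mul_of_nonneg_left h2 (by positivity)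
    have h4 : (Fintype.card (Fin n → Kt) : ℝ) / (L : ℝ) ^ r ≤
        (θ / L) ^ r * Fintype.card (Fin n → Kt) := by
      rw [div_pow, div_eq_mul_inv, mul_comm]
      apply mul_le_mul_of_nonneg_right _ (by positivity)
      rw [div_eq_mul_inv]
      have h5 : (1 : ℝ) ≤ θ ^ r := one_le_pow₀ hθ
      have h6 : (0 : ℝ) ≤ ((L : ℝ) ^ r)⁻¹ := by positivity
      nlinarith
    have h5 : (2 : ℝ) ^ M * (Fintype.card (Fin n → Kt) / (L : ℝ) ^ r) ≤
        2 ^ M * ((θ / L) ^ r * Fintype.card (Fin n → Kt)) :=
      mul_le_mul_of_nonneg_left h4 (by positivity)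
    rw [pow_succ]
    linarith
  · intro C hC v hv
    have h1 := null_of_viol (r := r) hR (by omega) hθ0 (hθL.trans hLK)
      (hh C (mem_insert_of_mem (mem_union_left _ hC))) v hv
    refine h1.trans ?_
    rw [← mul_assoc]
    apply mul_le_mul_of_nonneg_right _ (by positivity)
    have h2 : (θ / Fintype.card Kt) ^ (2 * r) ≤ (θ / L) ^ r := by
      refine (pow_le_pow_left₀ (by positivity) hθK _).trans ?_
      exact pow_le_pow_of_le_one hδ0 hδ1 (by omega)
    have h3 : (2 : ℝ) ^ M ≤ 2 ^ (M + 1) := pow_le_pow_right₀ (by norm_num) (by omega)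
    exact mul_le_mul h3 h2 (by positivity) (by positivity)

end H542PM
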