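import Mathlib
import Pool.Agent.H542R2.PMMain
import Pool.Agent.H542R2.PMUse
import Pool.Agent.H542R2.Core

/-!
The CNF and the signed measure on its assignments.
-/

namespace H542PM

open Finset H542

/-- partial inverse of an injection -/
noncomputable def pinv {A : Type} {N : ℕ} (e : A ↪ Fin N) (v : Fin N) : Option A := by
  classical
  exact if h : ∃ w, e w = v then some h.choose else none

theorem pinv_apply {A : Type} {N : ℕ} (e : A ↪ Fin N) (w : A) : pinv e (e w) = some w := by
  classical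
  unfold pinv
  have h : ∃ w', e w' = e w := ⟨w, rfl⟩
  simp only [dif_pos h]
  exact congrArg some (e.injective h.choose_spec)

/-- extension of an assignment by `false` -/
noncomputable def up {A : Type} {N : ℕ} (e : A ↪ Fin N) (z : A → Bool) (v : Fin N) : Bool :=
  match pinv e v with
  | some w => z w
  | none => false

theorem up_apply {A : Type} {N : ℕ} (e : A ↪ Fin N) (z : A → Bool) (w : A) :
    up e z (e w) = z w := by
  unfold up
  rw [pinv_apply]

variable {N n κ : ℕ}

/-- the assignment coding the pointers `x` -/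
noncomputable def cod (e : (Fin n × Fin κ) ↪ Fin N) (x : Fin n → Fin κ → Bool) : Fin N → Bool :=
  up e fun w => x w.1 w.2

theorem cod_apply (e : (Fin n × Fin κ) ↪ Fin N) (x : Fin n → Fin κ → Bool) (i : Fin n)
    (j : Fin κ) : cod e x (e (i, j)) = x i j := up_apply e _ _

open Classical in
/-- truth value of a clause -/
noncomputable def cp (c : Finset (Fin N × Bool)) (z : Fin N → Bool) : Bool :=
  decide (∃ l ∈ c, z l.1 = l.2)

theorem cp_eq_true {c : Finset (Fin N × Bool)} {z : Fin N → Bool} :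
    cp c z = true ↔ ∃ l ∈ c, z l.1 = l.2 := by
  classical
  unfold cp
  exact decide_eq_true_iff

theorem cp_eq_false {c : Finset (Fin N × Bool)} {z : Fin N → Bool} :
    cp c z = false ↔ ∀ l ∈ c, z l.1 ≠ l.2 := by
  classical
  unfold cp
  rw [decide_eq_false_iff_not]
  push Not
  rfl

/-- clause forbidding the pointers `p` in the blocks of one equation -/
def pcl (e : (Fin n × Fin κ) ↪ Fin N) (Rv : Finset (Fin n)) (p : Rv → Fin κ → Bool) :
    Finset (Fin N × Bool) :=
  univ.biUnion fun i : Rv => univ.image fun j : Fin κ => (e (i.1, j), !(p i j))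

theorem cp_pcl (e : (Fin n × Fin κ) ↪ Fin N) (Rv : Finset (Fin n)) (p : Rv → Fin κ → Bool)
    (z : Fin N → Bool) :
    cp (pcl e Rv p) z = false ↔ ∀ i : Rv, ∀ j, z (e (i.1, j)) = p i j := by
  have hb : ∀ a c : Bool, a ≠ !c ↔ a = c := by decide
  rw [cp_eq_false]
  unfold pcl
  constructor
  · intro h i j
    have := h (e (i.1, j), !(p i j)) (by
      rw [mem_biUnion]
      exact ⟨i, mem_univ _, mem_image_of_mem _ (mem_univ j)⟩)
    exact (hb _ _).mp this
  · intro h l hl
    rw [mem_biUnion] at hl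
    obtain ⟨i, _, hi⟩ := hl
    rw [mem_image] at hi
    obtain ⟨j, _, rfl⟩ := hi
    exact (hb _ _).mpr (h i j)

theorem card_pcl (e : (Fin n × Fin κ) ↪ Fin N) (Rv : Finset (Fin n)) (p : Rv → Fin κ → Bool) :
    (pcl e Rv p).card ≤ Rv.card * κ := by
  unfold pcl
  refine card_biUnion_le.trans ?_
  calc ∑ i : Rv, (univ.image fun j : Fin κ => (e (i.1, j), !(p i j))).card
      ≤ ∑ i : Rv, κ := sum_le_sum fun i _ => card_image_le.trans (by simp)
    _ = Rv.card * κ := by simp

open Classical in
/-- predicates of all the clauses of width at most `w` -/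
noncomputable def allCl (N w : ℕ) : Finset ((Fin N → Bool) → Bool) :=
  (univ : Finset (Fin w → Option (Fin N × Bool))).image fun g =>
    cp (univ.filter fun a => ∃ i, g i = some a)

theorem card_allCl (N w : ℕ) : (allCl N w).card ≤ (2 * N + 1) ^ w := by
  classical
  unfold allCl
  refine card_image_le.trans (le_of_eq ?_)
  rw [card_univ, Fintype.card_fun, Fintype.card_option, Fintype.card_prod, Fintype.card_fin,
    Fintype.card_bool, Fintype.card_fin, mul_comm]

theorem cp_mem_allCl {w : ℕ} (c : Finset (Fin N × Bool)) (hc : c.card ≤ w) :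
    cp c ∈ allCl N w := by
  classical
  unfold allCl
  rw [mem_image]
  refine ⟨fun i => c.toList[(i : ℕ)]?, mem_univ _, ?_⟩
  congr 1
  ext a
  rw [mem_filter]
  constructor
  · rintro ⟨_, i, hi⟩
    exact mem_toList.mp (List.mem_of_getElem? hi)
  · intro ha
    refine ⟨mem_univ _, ?_⟩
    obtain ⟨m, hm, hma⟩ := List.getElem_of_mem (mem_toList.mpr ha)
    refine ⟨⟨m, ?_⟩, ?_⟩
    · rw [length_toList] at hm
      omega
    · show c.toList[m]? = some a
      rw [List.getElem?_eq_getElem hm, hma]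

open Classical in
/-- pointer tuples described by at most `q` literals over `G` -/
noncomputable def fam (e : (Fin n × Fin κ) ↪ Fin N) (G : Finset ((Fin N → Bool) → Bool)) (q : ℕ) :
    Finset (Finset (Fin n → Fin κ → Bool)) :=
  (Fintype.piFinset fun _ : Fin q => insertNone (G ×ˢ (univ : Finset Bool))).image fun g =>
    univ.filter fun x => ∀ i, ∀ a, g i = some a → a.1 (cod e x) = a.2

theorem card_fam (e : (Fin n × Fin κ) ↪ Fin N) (G : Finset ((Fin N → Bool) → Bool)) (q : ℕ) :
    (fam e G q).card ≤ (2 * G.card + 1) ^ q := by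
  classical
  unfold fam
  refine card_image_le.trans (le_of_eq ?_)
  rw [Fintype.card_piFinset]
  simp only [card_insertNone, card_product, card_univ, Fintype.card_bool, prod_const,
    Fintype.card_fin]
  rw [mul_comm]

theorem mem_fam (e : (Fin n × Fin κ) ↪ Fin N) (G : Finset ((Fin N → Bool) → Bool)) (q : ℕ)
    (l : List (((Fin N → Bool) → Bool) × Bool)) (hl : l.length ≤ q) (hG : ∀ a ∈ l, a.1 ∈ G) :
    (univ.filter fun x : Fin n → Fin κ → Bool => cod e x ∈ pts l) ∈ fam e G q := by
  classical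
  unfold fam
  rw [mem_image]
  refine ⟨fun i => l[(i : ℕ)]?, ?_, ?_⟩
  · rw [Fintype.mem_piFinset]
    intro i
    rw [mem_insertNone]
    intro a ha
    have h1 : a ∈ l := List.mem_of_getElem? (Option.mem_def.mp ha)
    rw [mem_product]
    exact ⟨hG a h1, mem_univ _⟩
  · ext x
    rw [mem_filter, mem_filter, mem_pts]
    constructor
    · rintro ⟨_, h⟩
      refine ⟨mem_univ _, fun a ha => ?_⟩
      obtain ⟨m, hm, hma⟩ := List.getElem_of_mem ha
      apply h ⟨m, by omega⟩ a
      show l[m]? = some a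
      rw [List.getElem?_eq_getElem hm, hma]
    · rintro ⟨_, h⟩
      exact ⟨mem_univ _, fun i a ha => h a (List.mem_of_getElem? ha)⟩

open Classical in
theorem pm_core {κ' q : ℕ} (hn : 0 < n) (e : (Fin n × Fin (2 * κ')) ↪ Fin N)
    (B : Finset ((Fin N → Bool) → Bool)) (A : ℕ)
    (hA : (2 * (B.card + (2 * N + 1) ^ (8 * (2 * κ'))) + 1) ^ q ≤ A) (θ : ℝ) (hθ : 1 ≤ θ)
    (hθL : θ ≤ 2 ^ κ') (hnL : 4 * (n * Real.sqrt (θ / 2 ^ κ')) ≤ 1)
    (hcard : 2 * ((((A : ℝ) * (2 ^ (2 * κ' * n) + 2) + 1) *
      (2 ^ (2 * κ') + 1) ^ n + 1) * 2 ^ n) ≤ Real.exp (θ / 2)) :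
    ∃ (F : Finset (Finset (Fin N × Bool))) (μ : (Fin N → Bool) → ℝ),
      F.card ≤ (n + 1) * (2 ^ (2 * κ')) ^ 8 ∧ (∀ c ∈ F, c.card ≤ 8 * (2 * κ')) ∧
      (∀ z, ∃ c ∈ F, cp c z = false) ∧
      Good μ (↑B : Set ((Fin N → Bool) → Bool)) {f | ∃ c ∈ F, f = cp c} q
        (2 ^ (n + 2) * (θ / 2 ^ κ') ^ (n / 320000 / 2)) := by
  obtain ⟨R, hR8, hRe⟩ := exists_expander n hn
  obtain ⟨b, hb⟩ := exists_rhs n R
  let Rv : Fin (n + 1) → Finset (Fin n) := fun v => univ.filter fun i => R v i ≠ 0
  let G : Finset ((Fin N → Bool) → Bool) := B ∪ allCl N (8 * (2 * κ'))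
  have hGc : G.card ≤ B.card + (2 * N + 1) ^ (8 * (2 * κ')) :=
    (card_union_le _ _).trans (Nat.add_le_add_left (card_allCl _ _) _)
  have hFam : ((fam e G q).card : ℝ) ≤ A := by
    have h1 : (fam e G q).card ≤ A := by
      refine (card_fam e G q).trans (le_trans ?_ hA)
      apply Nat.pow_le_pow_left
      omega
    exact_mod_cast h1
  have hKc : Fintype.card (Fin (2 * κ') → Bool) = (2 ^ κ') ^ 2 := by
    rw [Fintype.card_fun, Fintype.card_bool, Fintype.card_fin, ← pow_mul, mul_comm]
  have hXc : (Fintype.card (Fin n → Fin (2 * κ') → Bool) : ℝ) = 2 ^ (2 * κ' * n) := by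
    rw [Fintype.card_fun, hKc, Fintype.card_fin]
    push_cast
    rw [← pow_mul, ← pow_mul]
    congr 1
    ring
  have hXpos : (0 : ℝ) < Fintype.card (Fin n → Fin (2 * κ') → Bool) := by
    rw [hXc]; positivity
  obtain ⟨h, htot, hpos, hnull⟩ := main_measure (n := n) (M := n + 1)
    (Kt := Fin (2 * κ') → Bool) (L := 2 ^ κ') (Nat.one_le_two_pow) hKc (R := R) (b := b)
    (u0 := n / 320000) (r := n / 320000 / 2) hRe (Nat.mul_div_le _ _) hθ
    (by push_cast; exact hθL) (by push_cast; exact hnL) (fam e G q) (by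
      rw [hKc]
      refine le_trans ?_ hcard
      apply mul_le_mul_of_nonneg_left _ (by norm_num)
      apply mul_le_mul_of_nonneg_right _ (by positivity)
      apply add_le_add_left
      rw [hXc]
      have e1 : ((((2 ^ κ') ^ 2 : ℕ) : ℝ) + 1) = 2 ^ (2 * κ') + 1 := by
        push_cast
        rw [← pow_mul, mul_comm κ' 2]
      rw [e1]
      apply mul_le_mul_of_nonneg_right _ (by positivity)
      apply add_le_add_left
      exact mul_le_mul_of_nonneg_right hFam (by positivity))
  let idx : (v : Fin (n + 1)) → Finset (Rv v → Fin (2 * κ') → Bool) := fun v =>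
    univ.filter fun p => ∑ i, bz (h i.1 (p i)) ≠ b v
  let F : Finset (Finset (Fin N × Bool)) := univ.biUnion fun v => (idx v).image (pcl e (Rv v))
  let μ : (Fin N → Bool) → ℝ := fun z =>
    (∑ x ∈ univ.filter (fun x => cod e x = z), dens R b h (n / 320000 / 2) x) /
      Fintype.card (Fin n → Fin (2 * κ') → Bool)
  have hms : ∀ l, ms μ l = (∑ x ∈ univ.filter (fun x => cod e x ∈ pts l),
      dens R b h (n / 320000 / 2) x) / Fintype.card (Fin n → Fin (2 * κ') → Bool) := by
    intro l
    unfold ms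
    simp only [μ]
    rw [← sum_div]
    congr 1
    rw [← Finset.sum_fiberwise_of_maps_to (s := univ.filter fun x => cod e x ∈ pts l)
      (t := pts l) (g := fun x => cod e x) (fun x hx => (mem_filter.mp hx).2)]
    refine sum_congr rfl fun z hz => sum_congr ?_ fun _ _ => rfl
    ext x
    simp only [mem_filter, mem_univ, true_and]
    constructor
    · intro h1
      exact ⟨by rw [h1]; exact hz, h1⟩
    · intro h1
      exact h1.2
  have hclw : ∀ c ∈ F, c.card ≤ 8 * (2 * κ') := by
    intro c hc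
    rw [mem_biUnion] at hc
    obtain ⟨v, _, hv⟩ := hc
    rw [mem_image] at hv
    obtain ⟨p, _, rfl⟩ := hv
    exact (card_pcl _ _ _).trans (Nat.mul_le_mul_right _ (hR8 v))
  have hmemG : ∀ l : List (((Fin N → Bool) → Bool) × Bool),
      (∀ a ∈ l, a.1 ∈ (↑B : Set ((Fin N → Bool) → Bool)) ∨
        a.1 ∈ ({f | ∃ c ∈ F, f = cp c} : Set ((Fin N → Bool) → Bool))) → ∀ a ∈ l, a.1 ∈ G := by
    intro l hl a ha
    rcases hl a ha with h1 | ⟨c, hc, h1⟩
    · exact mem_union_left _ h1
    · rw [h1]
      exact mem_union_right _ (cp_mem_allCl c (hclw c hc))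
  have hηeq : (2 : ℝ) ^ (n + 1 + 1) * (θ / ((2 ^ κ' : ℕ) : ℝ)) ^ (n / 320000 / 2) =
      2 ^ (n + 2) * (θ / 2 ^ κ') ^ (n / 320000 / 2) := by
    push_cast
    rfl
  refine ⟨F, μ, ?_, hclw, ?_, ?_⟩
  · refine card_biUnion_le.trans ?_
    calc ∑ v : Fin (n + 1), ((idx v).image (pcl e (Rv v))).card
        ≤ ∑ v : Fin (n + 1), (2 ^ (2 * κ')) ^ 8 := sum_le_sum fun v _ => by
          refine card_image_le.trans ((card_filter_le _ _).trans ?_)
          rw [card_univ, Fintype.card_fun, Fintype.card_fun, Fintype.card_bool,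
            Fintype.card_coe, Fintype.card_fin]
          exact Nat.pow_le_pow_right (by positivity) (hR8 v)
      _ = (n + 1) * (2 ^ (2 * κ')) ^ 8 := by simp
  · intro z
    let x : Fin n → Fin (2 * κ') → Bool := fun i j => z (e (i, j))
    obtain ⟨v, hv⟩ := hb fun i => bz (h i (x i))
    refine ⟨pcl e (Rv v) (fun i => x i.1), ?_, ?_⟩
    · rw [mem_biUnion]
      refine ⟨v, mem_univ v, mem_image_of_mem _ ?_⟩
      simp only [idx, mem_filter, mem_univ, true_and]
      rw [sum_bz_subtype (R v) (fun i => h i (x i))]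
      intro h1
      apply hv
      unfold H542.val
      rw [h1]
      exact CharTwo.add_self_eq_zero _
    · rw [cp_pcl]
      intro i j
      rfl
  · refine ⟨by positivity, ?_, ?_, ?_⟩
    · have h1 := hms []
      rw [ms_nil] at h1
      rw [h1]
      have h2 : (univ.filter fun x : Fin n → Fin (2 * κ') → Bool => cod e x ∈ pts []) = univ := by
        ext x
        simp [mem_pts]
      rw [h2, le_div_iff₀ hXpos]
      linarith
    · intro l hl hmem
      rw [hms, le_div_iff₀ hXpos, ← hηeq]
      have h1 := hpos _ (mem_fam e G q l hl (hmemG l hmem))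
      linarith
    · intro l hl hmem c hc hcz
      obtain ⟨c0, hc0, rfl⟩ := hc
      rw [mem_biUnion] at hc0
      obtain ⟨v, _, hv⟩ := hc0
      rw [mem_image] at hv
      obtain ⟨p, hp, rfl⟩ := hv
      rw [hms, div_le_iff₀ hXpos, ← hηeq]
      refine (le_abs_self _).trans (hnull _ (mem_fam e G q l hl (hmemG l hmem)) v ?_)
      intro x hx
      rw [mem_filter] at hx
      have h1 := (cp_pcl e (Rv v) p (cod e x)).mp (hcz _ hx.2)
      have h2 : ∀ i : Rv v, x i.1 = p i := by
        intro i
        funext j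
        rw [← h1 i j, cod_apply]
      simp only [idx, mem_filter, mem_univ, true_and] at hp
      intro h3
      apply hp
      simp_rw [← h2]
      rw [sum_bz_subtype (R v) (fun i => h i (x i))]
      have h4 : b v + ∑ i, R v i * bz (h i (x i)) = 0 := h3
      have h5 : b v + b v = 0 := CharTwo.add_self_eq_zero _
      linear_combination h4 - h5

end H542PM
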