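import Mathlib
import Pool.Agent.H542R2.PMCnf

/-!
Choice of the parameters.
-/

namespace H542PM

open Finset H542

theorem Good.mono_eta {Z : Type} [Fintype Z] {μ : Z → ℝ} {B V : Set (Z → Bool)} {q : ℕ}
    {η η' : ℝ} (hg : Good μ B V q η) (h : η ≤ η') : Good μ B V q η' :=
  ⟨hg.eta.trans h, hg.tot, fun l h1 h2 => by have := hg.pos l h1 h2; linarith,
    fun l h1 h2 c hc h3 => (hg.null l h1 h2 c hc h3).trans h⟩

theorem ev_sq (K : ℕ) : ∃ l0 : ℕ, ∀ l ≥ l0, K * (l + 4) ^ 2 ≤ 2 ^ l := by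
  have h1 := tendsto_pow_const_div_const_pow_of_one_lt 2 (one_lt_two : (1 : ℝ) < 2)
  have h2 : ∀ᶠ l : ℕ in Filter.atTop, (l : ℝ) ^ 2 / 2 ^ l < 1 / (4 * K + 1) :=
    h1.eventually_lt_const (by positivity)
  obtain ⟨l0, hl0⟩ := Filter.eventually_atTop.mp h2
  refine ⟨max l0 4, fun l hl => ?_⟩
  have hl1 := hl0 l (le_trans (le_max_left _ _) hl)
  have hl4 : 4 ≤ l := le_trans (le_max_right _ _) hl
  rw [div_lt_div_iff₀ (by positivity) (by positivity)] at hl1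
  have h3 : (l : ℝ) + 4 ≤ 2 * l := by
    have : (4 : ℝ) ≤ l := by exact_mod_cast hl4
    linarith
  have h4 : ((l : ℝ) + 4) ^ 2 ≤ 4 * l ^ 2 := by
    have : (0 : ℝ) ≤ l := by positivity
    nlinarith
  have h5 : (K : ℝ) * ((l : ℝ) + 4) ^ 2 ≤ 2 ^ l := by
    have h6 : (0 : ℝ) ≤ K := by positivity
    have h7 : (0 : ℝ) ≤ (l : ℝ) ^ 2 := by positivity
    nlinarith [mul_le_mul_of_nonneg_left h4 h6]
  exact_mod_cast h5

/-- smallness of the error -/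
theorem eta_le {N n κ' r2 r : ℕ} {θ : ℝ} (hθ0 : 0 < θ) (hθ2 : θ ^ 2 ≤ 2 ^ κ')
    (hθL : θ ≤ 2 ^ κ') (h1 : n * (2 * κ') ≤ N) (h2 : N ≤ (n + 1) * (2 * κ'))
    (h3 : n ≤ 1280000 * (r2 + 1)) (h4 : 5000000 ≤ κ') (h5 : 10000000 * (2 + 2 * κ') ≤ N)
    (hr : 2 * r2 ≤ r) :
    (2 : ℝ) ^ (n + 2) * (θ / 2 ^ κ') ^ r ≤ 2 ^ (-((N : ℝ) / 10000000)) := by
  have hL0 : (0 : ℝ) < 2 ^ κ' := by positivity
  have hb0 : 0 ≤ θ / 2 ^ κ' := by positivity
  have hb1 : θ / 2 ^ κ' ≤ 1 := (div_le_one hL0).mpr hθL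
  have hb2 : (θ / 2 ^ κ') ^ 2 ≤ (1 / 2) ^ κ' := by
    rw [div_pow, one_div_pow, div_le_div_iff₀ (by positivity) hL0]
    calc θ ^ 2 * 2 ^ κ' ≤ 2 ^ κ' * 2 ^ κ' := mul_le_mul_of_nonneg_right hθ2 hL0.le
      _ = 1 * (2 ^ κ') ^ 2 := by ring
  have hb3 : (θ / 2 ^ κ') ^ r ≤ (1 / 2 : ℝ) ^ (κ' * r2) := by
    calc (θ / 2 ^ κ') ^ r ≤ (θ / 2 ^ κ') ^ (2 * r2) := pow_le_pow_of_le_one hb0 hb1 hr
      _ = ((θ / 2 ^ κ') ^ 2) ^ r2 := by rw [pow_mul]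
      _ ≤ ((1 / 2 : ℝ) ^ κ') ^ r2 := pow_le_pow_left₀ (by positivity) hb2 _
      _ = _ := by rw [pow_mul]
  have hR1 : (n : ℝ) * (2 * κ') ≤ N := by exact_mod_cast h1
  have hR2 : (N : ℝ) ≤ (n + 1) * (2 * κ') := by exact_mod_cast h2
  have hR3 : (n : ℝ) ≤ 1280000 * (r2 + 1) := by exact_mod_cast h3
  have hR4 : (5000000 : ℝ) ≤ κ' := by exact_mod_cast h4
  have hR5 : (10000000 : ℝ) * (2 + 2 * κ') ≤ N := by exact_mod_cast h5
  have hn0 : (0 : ℝ) ≤ n := by positivity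
  have hκ0 : (0 : ℝ) ≤ κ' := by positivity
  have hm1 : (κ' : ℝ) * n ≤ κ' * (1280000 * (r2 + 1)) := mul_le_mul_of_nonneg_left hR3 hκ0
  have hm2 : 10000000 * (n : ℝ) ≤ N := by nlinarith
  have hexp : ((n : ℝ) + 2) - κ' * r2 ≤ -((N : ℝ) / 10000000) := by
    have e1 : (κ' : ℝ) * (1280000 * (r2 + 1)) = 1280000 * (κ' * r2) + 1280000 * κ' := by ring
    have e2 : (n + 1 : ℝ) * (2 * κ') = 2 * (κ' * n) + 2 * κ' := by ring
    rw [e1] at hm1
    rw [e2] at hR2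
    linarith
  calc (2 : ℝ) ^ (n + 2) * (θ / 2 ^ κ') ^ r ≤ 2 ^ (n + 2) * (1 / 2 : ℝ) ^ (κ' * r2) :=
        mul_le_mul_of_nonneg_left hb3 (by positivity)
    _ = (2 : ℝ) ^ (((n : ℝ) + 2) - κ' * r2) := by
        rw [Real.rpow_sub (by norm_num), one_div_pow]
        have e1 : (2 : ℝ) ^ ((n : ℝ) + 2) = 2 ^ (n + 2) := by
          rw [← Real.rpow_natCast]
          congr 1
          push_cast
          ring
        have e2 : (2 : ℝ) ^ ((κ' : ℝ) * r2) = 2 ^ (κ' * r2) := by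
          rw [← Real.rpow_natCast]
          congr 1
          push_cast
          ring
        rw [e1, e2]
        ring
    _ ≤ _ := Real.rpow_le_rpow_of_exponent_le (by norm_num) hexp

theorem two_pow_le_exp (m : ℕ) : (2 : ℝ) ^ m ≤ Real.exp m := by
  have h1 : (2 : ℝ) ≤ Real.exp 1 := by
    have := Real.add_one_le_exp (1 : ℝ)
    linarith
  calc (2 : ℝ) ^ m ≤ (Real.exp 1) ^ m := pow_le_pow_left₀ (by norm_num) h1 m
    _ = Real.exp m := by rw [← Real.exp_nat_mul, mul_one]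

theorem count_le {N n κ' a : ℕ} (h1 : 2 * κ' * n ≤ N) (hn : n ≤ N) (A : ℕ) (hA : A = 2 ^ a)
    (θ : ℝ) (hθ : 2 * ((a : ℝ) + 4 * N + 4) ≤ θ) :
    2 * ((((A : ℝ) * (2 ^ (2 * κ' * n) + 2) + 1) *
      (2 ^ (2 * κ') + 1) ^ n + 1) * 2 ^ n) ≤ Real.exp (θ / 2) := by
  have hAR : (A : ℝ) = 2 ^ a := by rw [hA]; push_cast; rfl
  have e1 : (2 : ℝ) ^ (2 * κ' * n) ≤ 2 ^ N := pow_le_pow_right₀ (by norm_num) h1
  have e2 : ((2 : ℝ) ^ (2 * κ') + 1) ^ n ≤ 2 ^ (2 * N) := by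
    have h2 : (2 : ℝ) ^ (2 * κ') + 1 ≤ 2 ^ (2 * κ' + 1) := by
      rw [pow_succ]
      have : (1 : ℝ) ≤ 2 ^ (2 * κ') := one_le_pow₀ (by norm_num)
      linarith
    calc ((2 : ℝ) ^ (2 * κ') + 1) ^ n ≤ (2 ^ (2 * κ' + 1)) ^ n :=
          pow_le_pow_left₀ (by positivity) h2 n
      _ = 2 ^ ((2 * κ' + 1) * n) := by rw [← pow_mul]
      _ ≤ 2 ^ (2 * N) := by
          apply pow_le_pow_right₀ (by norm_num)
          rw [add_mul, one_mul]
          omega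
  have e3 : (2 : ℝ) ^ n ≤ 2 ^ N := pow_le_pow_right₀ (by norm_num) hn
  have hN1 : (1 : ℝ) ≤ 2 ^ N := one_le_pow₀ (by norm_num)
  have ha1 : (1 : ℝ) ≤ 2 ^ a := one_le_pow₀ (by norm_num)
  have e4 : (A : ℝ) * (2 ^ (2 * κ' * n) + 2) + 1 ≤ 2 ^ a * (4 * 2 ^ N) := by
    rw [hAR]
    have h5 : (2 : ℝ) ^ (2 * κ' * n) + 2 ≤ 3 * 2 ^ N := by linarith
    have h6 : (2 : ℝ) ^ a * (2 ^ (2 * κ' * n) + 2) ≤ 2 ^ a * (3 * 2 ^ N) :=
      mul_le_mul_of_nonneg_left h5 (by positivity)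
    nlinarith
  have e5 : ((A : ℝ) * (2 ^ (2 * κ' * n) + 2) + 1) * (2 ^ (2 * κ') + 1) ^ n + 1 ≤
      2 ^ a * (8 * 2 ^ N) * 2 ^ (2 * N) := by
    have h5 : ((A : ℝ) * (2 ^ (2 * κ' * n) + 2) + 1) * (2 ^ (2 * κ') + 1) ^ n ≤
        2 ^ a * (4 * 2 ^ N) * 2 ^ (2 * N) :=
      mul_le_mul e4 e2 (by positivity) (by positivity)
    have h6 : (1 : ℝ) ≤ 2 ^ (2 * N) := one_le_pow₀ (by norm_num)
    have h7 : (1 : ℝ) ≤ 2 ^ a * (4 * 2 ^ N) * 2 ^ (2 * N) := by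
      have h8 : (1 : ℝ) ≤ 2 ^ a * (4 * 2 ^ N) := by nlinarith
      nlinarith
    nlinarith
  calc 2 * ((((A : ℝ) * (2 ^ (2 * κ' * n) + 2) + 1) *
        (2 ^ (2 * κ') + 1) ^ n + 1) * 2 ^ n)
      ≤ 2 * ((2 ^ a * (8 * 2 ^ N) * 2 ^ (2 * N)) * 2 ^ N) := by
        apply mul_le_mul_of_nonneg_left _ (by norm_num)
        exact mul_le_mul e5 e3 (by positivity) (by positivity)
    _ = 2 ^ (a + 4 * N + 4) := by
        have e6 : a + 4 * N + 4 = 4 + a + N + 2 * N + N := by ring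
        rw [e6, pow_add, pow_add, pow_add, pow_add]
        ring
    _ ≤ Real.exp ((a + 4 * N + 4 : ℕ) : ℝ) := two_pow_le_exp _
    _ ≤ Real.exp (θ / 2) := by
        apply Real.exp_le_exp.mpr
        push_cast
        linarith

theorem exists_good (k : ℕ) : ∃ k' N0 : ℕ, ∀ N ≥ N0,
    ∀ B : Finset ((Fin N → Bool) → Bool), B.card ≤ 2 ^ (N ^ k) →
      ∃ (F : Finset (Finset (Fin N × Bool))) (μ : (Fin N → Bool) → ℝ),
        F.card ≤ N ^ k' ∧ (∀ c ∈ F, c.card ≤ k' * Nat.log 2 N) ∧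
        (∀ z, ∃ c ∈ F, cp c z = false) ∧
        Good μ (↑B : Set ((Fin N → Bool) → Bool)) {f | ∃ c ∈ F, f = cp c} (N ^ (k + 2))
          (2 ^ (-((N : ℝ) / 10000000))) := by
  obtain ⟨C, hC⟩ : ∃ C, C = 4 * k + 12 := ⟨_, rfl⟩
  obtain ⟨l0, hl0⟩ := ev_sq (10000000 * (16 * C))
  refine ⟨1 + 32 * C, 2 ^ (max l0 5000000), fun N hN B hB => ?_⟩
  have hNpos : N ≠ 0 := (lt_of_lt_of_le (pow_pos two_pos _) hN).ne'
  have hlge : max l0 5000000 ≤ Nat.log 2 N :=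
    (Nat.le_log_iff_pow_le (by norm_num) hNpos).mpr hN
  have hl1 : l0 ≤ Nat.log 2 N := (le_max_left _ _).trans hlge
  have hl2 : 5000000 ≤ Nat.log 2 N := (le_max_right _ _).trans hlge
  clear hN hlge
  have hlow0 : 2 ^ (Nat.log 2 N) ≤ N := Nat.pow_log_le_self 2 hNpos
  have hup0 : N < 2 ^ (Nat.log 2 N + 1) := Nat.lt_pow_succ_log_self (by norm_num) N
  generalize Nat.log 2 N = l at *
  have hlow : 2 ^ l ≤ N := hlow0
  have hup : N < 2 ^ (l + 1) := hup0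
  have hbig : 10000000 * (16 * C) * (l + 4) ^ 2 ≤ N := (hl0 l hl1).trans hlow
  obtain ⟨κ', hκ⟩ : ∃ κ', κ' = C * (l + 1) := ⟨_, rfl⟩
  have hC12 : 12 ≤ C := by omega
  have hκbig : 5000000 ≤ κ' := by
    rw [hκ]
    calc 5000000 ≤ l + 1 := by omega
      _ = 1 * (l + 1) := by ring
      _ ≤ C * (l + 1) := Nat.mul_le_mul_right _ (by omega)
  have hκN : 10000000 * (16 * κ' * (l + 3)) ≤ N := by
    refine le_trans ?_ hbig
    calc 10000000 * (16 * κ' * (l + 3)) = 10000000 * (16 * C) * ((l + 1) * (l + 3)) := by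
          rw [hκ]; ring
      _ ≤ 10000000 * (16 * C) * (l + 4) ^ 2 := by
          apply Nat.mul_le_mul_left
          nlinarith
  have hκN2 : 10000000 * (2 + 2 * κ') ≤ N := by
    refine le_trans ?_ hκN
    apply Nat.mul_le_mul_left
    nlinarith
  obtain ⟨n, hn⟩ : ∃ n, n = N / (2 * κ') := ⟨_, rfl⟩
  have h2κ : 0 < 2 * κ' := by omega
  have hn1 : n * (2 * κ') ≤ N := by rw [hn]; exact Nat.div_mul_le_self N (2 * κ')
  have hn2 : N ≤ (n + 1) * (2 * κ') := by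
    have := Nat.lt_div_mul_add (a := N) h2κ
    rw [add_mul, one_mul, hn]
    exact this.le
  have hnpos : 0 < n := by rw [hn]; exact Nat.div_pos (by omega) h2κ
  have hnN : n ≤ N := by rw [hn]; exact Nat.div_le_self _ _
  have hN1 : 5000000 ≤ N := hl2.trans ((Nat.lt_two_pow_self).le.trans hlow)
  have hN2 : 2 ≤ N := by omega
  have hNC : N ^ C ≤ 2 ^ κ' := by
    calc N ^ C ≤ (2 ^ (l + 1)) ^ C := Nat.pow_le_pow_left hup.le C
      _ = 2 ^ κ' := by rw [← pow_mul, hκ, mul_comm]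
  -- the embedding
  have hcard : Fintype.card (Fin n × Fin (2 * κ')) ≤ Fintype.card (Fin N) := by
    rw [Fintype.card_prod, Fintype.card_fin, Fintype.card_fin, Fintype.card_fin]
    exact hn1
  obtain ⟨e⟩ := Function.Embedding.nonempty_of_card_le hcard
  -- the error parameter
  obtain ⟨θ, hθ⟩ : ∃ θ : ℝ, θ = (N : ℝ) ^ (2 * k + 6) := ⟨_, rfl⟩
  have hNR : (1 : ℝ) ≤ N := by exact_mod_cast (by omega : 1 ≤ N)
  have hθ1 : 1 ≤ θ := by rw [hθ]; exact one_le_pow₀ hNR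
  have hNCR : (N : ℝ) ^ C ≤ 2 ^ κ' := by exact_mod_cast hNC
  have hθL : θ ≤ 2 ^ κ' := by
    refine le_trans ?_ hNCR
    rw [hθ]
    exact pow_le_pow_right₀ hNR (by omega)
  have hθ2 : θ ^ 2 ≤ 2 ^ κ' := by
    refine le_trans ?_ hNCR
    rw [hθ, ← pow_mul]
    exact pow_le_pow_right₀ hNR (by omega)
  have hL0 : (0 : ℝ) < 2 ^ κ' := by positivity
  have hnL : 4 * (n * Real.sqrt (θ / 2 ^ κ')) ≤ 1 := by
    have h1 : 16 * (n : ℝ) ^ 2 * θ ≤ 2 ^ κ' := by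
      refine le_trans ?_ hNCR
      have h2 : (16 : ℝ) ≤ (N : ℝ) ^ 2 := by
        have : (4 : ℝ) ≤ N := by exact_mod_cast (by omega : 4 ≤ N)
        nlinarith
      have h3 : (n : ℝ) ^ 2 ≤ (N : ℝ) ^ 2 :=
        pow_le_pow_left₀ (by positivity) (by exact_mod_cast hnN) 2
      calc 16 * (n : ℝ) ^ 2 * θ ≤ (N : ℝ) ^ 2 * (N : ℝ) ^ 2 * θ := by
            apply mul_le_mul_of_nonneg_right _ (by positivity)
            exact mul_le_mul h2 h3 (by positivity) (by positivity)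
        _ = (N : ℝ) ^ (2 * k + 10) := by rw [hθ]; ring
        _ ≤ (N : ℝ) ^ C := pow_le_pow_right₀ hNR (by omega)
    have h2 : (4 * (n * Real.sqrt (θ / 2 ^ κ'))) ^ 2 ≤ 1 := by
      rw [mul_pow, mul_pow, Real.sq_sqrt (by positivity)]
      have h3 : (4 : ℝ) ^ 2 * ((n : ℝ) ^ 2 * (θ / 2 ^ κ')) = (16 * (n : ℝ) ^ 2 * θ) / 2 ^ κ' := by
        ring
      rw [h3]
      exact (div_le_one hL0).mpr h1
    have h3 : 0 ≤ 4 * (n * Real.sqrt (θ / 2 ^ κ')) := by positivity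
    nlinarith
  -- the count
  have hB2 : (2 * (B.card + (2 * N + 1) ^ (8 * (2 * κ'))) + 1) ^ (N ^ (k + 2)) ≤
      2 ^ (N ^ (2 * k + 4)) := by
    have h1 : (2 * N + 1) ^ (8 * (2 * κ')) ≤ 2 ^ N := by
      have h2 : 2 * N + 1 ≤ 2 ^ (l + 3) := by
        have : 2 ^ (l + 3) = 4 * 2 ^ (l + 1) := by ring
        omega
      calc (2 * N + 1) ^ (8 * (2 * κ')) ≤ (2 ^ (l + 3)) ^ (8 * (2 * κ')) :=
            Nat.pow_le_pow_left h2 _
        _ = 2 ^ (16 * κ' * (l + 3)) := by rw [← pow_mul]; congr 1; ring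
        _ ≤ 2 ^ N := by
            apply Nat.pow_le_pow_right (by norm_num)
            omega
    have h3 : 2 * (B.card + (2 * N + 1) ^ (8 * (2 * κ'))) + 1 ≤ 2 ^ (N ^ k + N + 3) := by
      have h4 : 2 ^ (N ^ k + N + 3) = 8 * (2 ^ (N ^ k) * 2 ^ N) := by
        rw [pow_add, pow_add]; ring
      have h5 : 1 ≤ 2 ^ (N ^ k) := Nat.one_le_two_pow
      have h6 : 1 ≤ 2 ^ N := Nat.one_le_two_pow
      rw [h4]
      nlinarith
    calc (2 * (B.card + (2 * N + 1) ^ (8 * (2 * κ'))) + 1) ^ (N ^ (k + 2))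
        ≤ (2 ^ (N ^ k + N + 3)) ^ (N ^ (k + 2)) := Nat.pow_le_pow_left h3 _
      _ = 2 ^ ((N ^ k + N + 3) * N ^ (k + 2)) := by rw [← pow_mul]
      _ ≤ 2 ^ (N ^ (2 * k + 4)) := by
          apply Nat.pow_le_pow_right (by norm_num)
          have h7 : N ^ (2 * k + 4) = N ^ (k + 2) * N ^ (k + 2) := by
            rw [← pow_add]; congr 1; ring
          rw [h7]
          apply Nat.mul_le_mul_right
          have h8 : N ^ (k + 2) = N ^ k * N * N := by ring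
          have h9 : 1 ≤ N ^ k := Nat.one_le_pow _ _ (by omega)
          rw [h8]
          have h10 : N ^ k + N + 3 ≤ N ^ k * (N + 4) := by nlinarith
          refine h10.trans ?_
          rw [mul_assoc]
          apply Nat.mul_le_mul_left
          nlinarith
  have hcount := count_le (N := N) (n := n) (κ' := κ') (a := N ^ (2 * k + 4))
    (by rw [mul_comm]; exact hn1) hnN (2 ^ (N ^ (2 * k + 4))) rfl θ (by
      rw [hθ]
      push_cast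
      have h1 : (1 : ℝ) ≤ (N : ℝ) ^ (2 * k + 3) := one_le_pow₀ hNR
      have h2 : (N : ℝ) ^ (2 * k + 4) = (N : ℝ) ^ (2 * k + 3) * N := by ring
      have h3 : (N : ℝ) ^ (2 * k + 6) = (N : ℝ) ^ (2 * k + 3) * N * N ^ 2 := by ring
      have h4 : (5000000 : ℝ) ≤ N := by exact_mod_cast hN1
      rw [h2, h3]
      have h5 : (N : ℝ) ≤ (N : ℝ) ^ (2 * k + 3) * N := by nlinarith
      have h6 : (1 : ℝ) ≤ (N : ℝ) ^ (2 * k + 3) * N := by nlinarith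
      have h7 : 2 * ((N : ℝ) ^ (2 * k + 3) * N + 4 * N + 4) ≤
          18 * ((N : ℝ) ^ (2 * k + 3) * N) := by linarith
      refine h7.trans ?_
      rw [mul_comm (18 : ℝ)]
      apply mul_le_mul_of_nonneg_left _ (by positivity)
      nlinarith)
  obtain ⟨F, μ, hF1, hF2, hF3, hF4⟩ := pm_core (q := N ^ (k + 2)) hnpos e B
    (2 ^ (N ^ (2 * k + 4))) hB2 θ hθ1 hθL hnL hcount
  refine ⟨F, μ, ?_, ?_, hF3, hF4.mono_eta ?_⟩
  · refine hF1.trans ?_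
    have h1 : n + 1 ≤ N := by
      have : n * 2 ≤ N := by
        calc n * 2 ≤ n * (2 * κ') := Nat.mul_le_mul_left _ (by omega)
          _ ≤ N := hn1
      omega
    have h2 : (2 ^ (2 * κ')) ^ 8 ≤ N ^ (32 * C) := by
      have h3 : 2 ^ (l + 1) ≤ N ^ 2 := by
        have : 2 ^ (l + 1) = 2 * 2 ^ l := by ring
        nlinarith
      calc (2 ^ (2 * κ')) ^ 8 = (2 ^ (l + 1)) ^ (16 * C) := by
            rw [← pow_mul, ← pow_mul, hκ]; congr 1; ring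
        _ ≤ (N ^ 2) ^ (16 * C) := Nat.pow_le_pow_left h3 _
        _ = N ^ (32 * C) := by rw [← pow_mul]; congr 1; ring
    calc (n + 1) * (2 ^ (2 * κ')) ^ 8 ≤ N * N ^ (32 * C) := Nat.mul_le_mul h1 h2
      _ = N ^ (1 + 32 * C) := by rw [pow_add, pow_one]
  · intro c hc
    refine (hF2 c hc).trans ?_
    rw [hκ]
    have : 8 * (2 * (C * (l + 1))) ≤ 32 * C * l := by
      have : 16 * (l + 1) ≤ 32 * l := by omega
      calc 8 * (2 * (C * (l + 1))) = C * (16 * (l + 1)) := by ring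
        _ ≤ C * (32 * l) := Nat.mul_le_mul_left _ this
        _ = 32 * C * l := by ring
    refine this.trans ?_
    apply Nat.mul_le_mul_right
    omega
  · apply eta_le (r2 := n / 320000 / 2 / 2) (by linarith) hθ2 hθL hn1 hn2 _ hκbig hκN2
    · exact Nat.mul_div_le _ _
    · rw [Nat.div_div_eq_div_mul, Nat.div_div_eq_div_mul]
      have := Nat.lt_mul_div_succ n (show 0 < 320000 * 2 * 2 by norm_num)
      omega

end H542PM
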