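import Mathlib

/-!
Choice of the parameters.
-/

namespace H542

open Filter

theorem ev_pow (a b K : ℝ) (hab : a < b) : ∀ᶠ x : ℝ in atTop, K * x ^ a ≤ x ^ b := by
  have h1 : Tendsto (fun x : ℝ => x ^ (b - a)) atTop atTop := tendsto_rpow_atTop (by linarith)
  filter_upwards [h1.eventually_ge_atTop K, eventually_gt_atTop 0] with x hx hx0
  calc K * x ^ a ≤ x ^ (b - a) * x ^ a :=
        mul_le_mul_of_nonneg_right hx (Real.rpow_nonneg hx0.le a)
    _ = x ^ b := by rw [← Real.rpow_add hx0]; congr 1; ring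

/-- the counting inequality -/
theorem count_ineq (N s m d0 : ℕ) (t x y E : ℝ) (hx : x = (N : ℝ)) (hxpos : 0 < x)
    (hm1 : 2 * s * Real.log (2 * x + 3) < m) (hE : E ≤ 1) (htd : y + 3 + t ≤ t * d0) :
    (((2 * N + 3) ^ (2 * s) : ℕ) : ℝ) * (Real.exp (1 + t) * Real.exp (-(t * d0)) *
        Real.exp E) ^ m < (Real.exp (-y)) ^ m := by
  have h1 : (((2 * N + 3) ^ (2 * s) : ℕ) : ℝ) < Real.exp m := by
    push_cast
    rw [← hx]
    have h2 : (2 * x + 3) ^ (2 * s) = Real.exp (2 * s * Real.log (2 * x + 3)) := by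
      have h3 : (2 * (s : ℝ)) * Real.log (2 * x + 3) =
          ((2 * s : ℕ) : ℝ) * Real.log (2 * x + 3) := by push_cast; ring
      rw [h3, Real.exp_nat_mul, Real.exp_log (by linarith)]
    rw [h2]
    exact Real.exp_lt_exp.mpr hm1
  have h2 : Real.exp (1 + t) * Real.exp (-(t * d0)) * Real.exp E ≤ Real.exp (-y - 1) := by
    rw [← Real.exp_add, ← Real.exp_add]
    apply Real.exp_le_exp.mpr
    linarith
  calc (((2 * N + 3) ^ (2 * s) : ℕ) : ℝ) * (Real.exp (1 + t) * Real.exp (-(t * d0)) *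
      Real.exp E) ^ m
      ≤ (((2 * N + 3) ^ (2 * s) : ℕ) : ℝ) * (Real.exp (-y - 1)) ^ m := by
        apply mul_le_mul_of_nonneg_left _ (by positivity)
        exact pow_le_pow_left₀ (by positivity) h2 m
    _ < Real.exp m * (Real.exp (-y - 1)) ^ m :=
        mul_lt_mul_of_pos_right h1 (by positivity)
    _ = (Real.exp (-y)) ^ m := by
        rw [← Real.exp_nat_mul, ← Real.exp_nat_mul, ← Real.exp_add]
        congr 1
        ring

/-- All the parameters and the inequalities between them. -/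
theorem numeric (p t C : ℝ) (hp : 0 < p) (hp1 : 64 * p ≤ 1 / 2) (ht : 0 < t) (hC : 0 < C) :
    ∃ N0 : ℕ, ∀ N : ℕ, N0 ≤ N → ∃ (n k κ s d0 m : ℕ), 0 < n ∧ 0 < k ∧
      n * k + n * κ ≤ N ∧ κ = 2 * (Nat.log 2 N + 1) ∧
      (∀ s' : ℕ, (s' : ℝ) ≤ (N : ℝ) ^ (3 / 2 - 64 * p) → s' ≤ s) ∧
      C * s / (k : ℝ) ^ (3 / 2 - 16 * p) ≤ 1 ∧
      (((2 * N + 3) ^ (2 * s) : ℕ) : ℝ) * (Real.exp (1 + t) * Real.exp (-(t * d0)) *
        Real.exp ((n : ℝ) * ((2 * Real.exp t - 1) * m / 2 ^ κ))) ^ m <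
        (Real.exp (-(N : ℝ) ^ (2 * p))) ^ m ∧
      (∀ a r : ℕ, (a : ℝ) ≤ (N : ℝ) ^ p → (r : ℝ) ≤ (N : ℝ) ^ p →
        (a + 1) * (r * d0) + 8 ≤ 2 * (n / 320000)) ∧
      (∀ r : ℕ, ∀ S : ℝ, 0 ≤ S → (r : ℝ) ≤ (N : ℝ) ^ p → S < Real.exp ((N : ℝ) ^ p) →
        (S * r) * Real.exp (-(N : ℝ) ^ (2 * p)) ≤ 1) ∧
      (n + 1) * (2 ^ κ * 2) ^ 8 ≤ N ^ 18 := by
  have hall : ∀ᶠ x : ℝ in atTop, (2 : ℝ) ^ 24 ≤ x ∧ 4 * x ^ (0 : ℝ) ≤ x ^ p ∧
      8 * x ^ (8 * p) ≤ x ^ (1 : ℝ) ∧ 28 * x ^ (8 * p + 1 / 4) ≤ x ^ (1 : ℝ) ∧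
      (C * 4 ^ (3 / 2 - 16 * p)) * x ^ (3 / 2 - 64 * p) ≤ x ^ ((1 - 8 * p) * (3 / 2 - 16 * p)) ∧
      (2 * Real.exp t * (4 / p + 1)) * x ^ (3 / 2 - 55 * p) ≤ x ^ (2 : ℝ) ∧
      ((4 + 2 * t) / t) * x ^ (2 * p) ≤ x ^ (3 * p) ∧
      2000000 * x ^ (5 * p) ≤ x ^ (8 * p) := by
    filter_upwards [eventually_ge_atTop ((2 : ℝ) ^ 24), ev_pow 0 p 4 hp,
      ev_pow (8 * p) 1 8 (by linarith), ev_pow (8 * p + 1 / 4) 1 28 (by linarith),
      ev_pow (3 / 2 - 64 * p) ((1 - 8 * p) * (3 / 2 - 16 * p)) (C * 4 ^ (3 / 2 - 16 * p))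
        (by nlinarith),
      ev_pow (3 / 2 - 55 * p) 2 (2 * Real.exp t * (4 / p + 1)) (by linarith),
      ev_pow (2 * p) (3 * p) ((4 + 2 * t) / t) (by linarith),
      ev_pow (5 * p) (8 * p) 2000000 (by linarith)] with x h1 h2 h3 h4 h5 h6 h7 h8
    exact ⟨h1, h2, h3, h4, h5, h6, h7, h8⟩
  rw [eventually_atTop] at hall
  obtain ⟨x0, hx0⟩ := hall
  obtain ⟨N0, hN0⟩ := exists_nat_ge x0
  refine ⟨N0, fun N hN => ?_⟩
  have hNx : x0 ≤ (N : ℝ) := hN0.trans (by exact_mod_cast hN)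
  obtain ⟨e1, e2, e3, e4, e5, e6, e7, e8⟩ := hx0 (N : ℝ) hNx
  set x : ℝ := (N : ℝ) with hx
  have hx1 : (1 : ℝ) ≤ x := le_trans (by norm_num) e1
  have hxpos : (0 : ℝ) < x := by linarith
  rw [Real.rpow_zero, mul_one] at e2
  rw [Real.rpow_one] at e3 e4
  have hmono : ∀ {a b : ℝ}, a ≤ b → x ^ a ≤ x ^ b := fun h => Real.rpow_le_rpow_of_exponent_le hx1 h
  have hone : ∀ {a : ℝ}, 0 ≤ a → 1 ≤ x ^ a := fun h => Real.one_le_rpow hx1 h
  -- n
  obtain ⟨n, hn⟩ : ∃ n : ℕ, n = ⌊x ^ (8 * p)⌋₊ := ⟨_, rfl⟩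
  have h8p : x ^ p ≤ x ^ (8 * p) := hmono (by linarith)
  have hn1 : (n : ℝ) ≤ x ^ (8 * p) := by rw [hn]; exact Nat.floor_le (by positivity)
  have hn2 : x ^ (8 * p) < n + 1 := by rw [hn]; exact Nat.lt_floor_add_one _
  have hnpos : 0 < n := by
    have : (0 : ℝ) < n := by linarith
    exact_mod_cast this
  have hnR : (1 : ℝ) ≤ n := by exact_mod_cast hnpos
  -- k
  obtain ⟨k, hk⟩ : ∃ k : ℕ, k = N / (2 * n) := ⟨_, rfl⟩
  have hk1 : x < (k + 1) * (2 * n) := by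
    have h1 : N < 2 * n * (N / (2 * n) + 1) := Nat.lt_mul_div_succ N (by omega)
    rw [← hk] at h1
    have h2 : (N : ℝ) < 2 * n * (k + 1) := by exact_mod_cast h1
    rw [← hx] at h2
    linarith
  have hkge : x ^ (1 - 8 * p) / 4 ≤ k := by
    have h1 : x = x ^ (8 * p) * x ^ (1 - 8 * p) := by
      rw [← Real.rpow_add hxpos]
      have : 8 * p + (1 - 8 * p) = 1 := by ring
      rw [this, Real.rpow_one]
    have hq : 0 < x ^ (8 * p) := by positivity
    have h2 : x < (k + 1) * (2 * x ^ (8 * p)) := by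
      refine hk1.trans_le ?_
      apply mul_le_mul_of_nonneg_left _ (by positivity)
      linarith
    have h3 : x ^ (8 * p) * x ^ (1 - 8 * p) < x ^ (8 * p) * (2 * (k + 1)) := by
      rw [← h1]
      linarith
    have h4 : x ^ (1 - 8 * p) < 2 * (k + 1) := lt_of_mul_lt_mul_left h3 hq.le
    have h5 : 8 ≤ x ^ (1 - 8 * p) := by
      have : x ^ (8 * p) * 8 ≤ x ^ (8 * p) * x ^ (1 - 8 * p) := by
        rw [← h1]
        linarith
      exact le_of_mul_le_mul_left this hq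
    linarith
  have hkpos : 0 < k := by
    have : (0 : ℝ) < k := by
      have : 0 < x ^ (1 - 8 * p) / 4 := by positivity
      linarith
    exact_mod_cast this
  have hkR : (0 : ℝ) < k := by exact_mod_cast hkpos
  -- κ
  obtain ⟨κ, hκ⟩ : ∃ κ, κ = 2 * (Nat.log 2 N + 1) := ⟨_, rfl⟩
  have hNne : N ≠ 0 := by
    intro h
    rw [h] at hx
    simp at hx
    linarith
  have hlog : (Nat.log 2 N : ℝ) ≤ 3 / 2 * Real.log x := by
    have h1 : 2 ^ Nat.log 2 N ≤ N := Nat.pow_log_le_self 2 hNne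
    have h2 : ((2 : ℝ) ^ Nat.log 2 N) ≤ x := by
      rw [hx]
      exact_mod_cast h1
    have h3 := Real.log_le_log (by positivity) h2
    rw [Real.log_pow] at h3
    have h4 := Real.log_two_gt_d9
    have h5 : (0 : ℝ) ≤ Nat.log 2 N := by positivity
    have h6 : (Nat.log 2 N : ℝ) * (2 / 3) ≤ Nat.log 2 N * Real.log 2 :=
      mul_le_mul_of_nonneg_left (by linarith) h5
    linarith
  have hlog4 : Real.log x ≤ 4 * x ^ (1 / 4 : ℝ) := by
    have := Real.log_le_rpow_div hxpos.le (show (0 : ℝ) < 1 / 4 by norm_num)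
    linarith
  have hnκ : (n : ℝ) * κ ≤ x / 2 := by
    have h1 : (κ : ℝ) ≤ 14 * x ^ (1 / 4 : ℝ) := by
      rw [hκ]
      push_cast
      have : 1 ≤ x ^ (1 / 4 : ℝ) := hone (by norm_num)
      linarith
    calc (n : ℝ) * κ ≤ x ^ (8 * p) * (14 * x ^ (1 / 4 : ℝ)) :=
          mul_le_mul hn1 h1 (by positivity) (by positivity)
      _ = (28 * x ^ (8 * p + 1 / 4)) / 2 := by
          rw [Real.rpow_add hxpos]; ring
      _ ≤ x / 2 := by linarith
  have hsum : n * k + n * κ ≤ N := by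
    have h1 : (n : ℝ) * k ≤ x / 2 := by
      have h2 : 2 * n * k ≤ N := by rw [hk]; exact Nat.mul_div_le N (2 * n)
      have h3 : (2 : ℝ) * n * k ≤ x := by rw [hx]; exact_mod_cast h2
      linarith
    have h2 : ((n * k + n * κ : ℕ) : ℝ) ≤ N := by
      push_cast
      rw [← hx]
      linarith
    exact_mod_cast h2
  -- s
  obtain ⟨s, hs⟩ : ∃ s : ℕ, s = ⌊x ^ (3 / 2 - 64 * p)⌋₊ := ⟨_, rfl⟩
  have hs1 : (s : ℝ) ≤ x ^ (3 / 2 - 64 * p) := by rw [hs]; exact Nat.floor_le (by positivity)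
  have hCs : C * s / (k : ℝ) ^ (3 / 2 - 16 * p) ≤ 1 := by
    have hβ : 0 ≤ 3 / 2 - 16 * p := by linarith
    rw [div_le_one (by positivity)]
    have h1 : (x ^ (1 - 8 * p) / 4) ^ (3 / 2 - 16 * p) ≤ (k : ℝ) ^ (3 / 2 - 16 * p) :=
      Real.rpow_le_rpow (by positivity) hkge hβ
    refine le_trans ?_ h1
    rw [Real.div_rpow (by positivity) (by norm_num), le_div_iff₀ (by positivity),
      ← Real.rpow_mul hxpos.le]
    refine le_trans ?_ e5
    have h2 : C * s ≤ C * x ^ (3 / 2 - 64 * p) := mul_le_mul_of_nonneg_left hs1 hC.le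
    have h3 : (0 : ℝ) ≤ 4 ^ (3 / 2 - 16 * p) := by positivity
    calc C * s * 4 ^ (3 / 2 - 16 * p) ≤ C * x ^ (3 / 2 - 64 * p) * 4 ^ (3 / 2 - 16 * p) :=
          mul_le_mul_of_nonneg_right h2 h3
      _ = _ := by ring
  -- m
  obtain ⟨m, hm⟩ : ∃ m : ℕ, m = ⌊2 * s * Real.log (2 * x + 3)⌋₊ + 1 := ⟨_, rfl⟩
  have hlog2x : 0 ≤ Real.log (2 * x + 3) := Real.log_nonneg (by linarith)
  have hm1 : 2 * s * Real.log (2 * x + 3) < m := by
    rw [hm]; push_cast; exact Nat.lt_floor_add_one _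
  have hm2 : (m : ℝ) ≤ 2 * s * Real.log (2 * x + 3) + 1 := by
    rw [hm]; push_cast
    have := Nat.floor_le (show 0 ≤ 2 * s * Real.log (2 * x + 3) by positivity)
    linarith
  have hm0 : 0 < m := by rw [hm]; omega
  have hlogx : Real.log (2 * x + 3) ≤ 2 * (x ^ p / p) := by
    have h1 : 2 * x + 3 ≤ x ^ 2 := by
      have h0 : 2 ^ 24 * x ≤ x * x := mul_le_mul_of_nonneg_right e1 hxpos.le
      rw [sq]
      linarith
    have h2 := Real.log_le_log (by linarith) h1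
    rw [Real.log_pow] at h2
    have h3 := Real.log_le_rpow_div hxpos.le hp
    push_cast at h2
    linarith
  have hmle : (m : ℝ) ≤ (4 / p + 1) * x ^ (3 / 2 - 63 * p) := by
    have h1 : 2 * (s : ℝ) * Real.log (2 * x + 3) ≤
        2 * x ^ (3 / 2 - 64 * p) * (2 * (x ^ p / p)) :=
      mul_le_mul (by linarith) hlogx hlog2x (by positivity)
    have h2 : 2 * x ^ (3 / 2 - 64 * p) * (2 * (x ^ p / p)) = 4 / p * x ^ (3 / 2 - 63 * p) := by
      have h3 : x ^ (3 / 2 - 63 * p) = x ^ (3 / 2 - 64 * p) * x ^ p := by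
        rw [← Real.rpow_add hxpos]; congr 1; ring
      rw [h3]
      ring
    have h3 : 1 ≤ x ^ (3 / 2 - 63 * p) := hone (by linarith)
    rw [h2] at h1
    linarith
  have h2κ : x ^ 2 ≤ 2 ^ κ := by
    have h1 : N < 2 ^ (Nat.log 2 N + 1) := Nat.lt_pow_succ_log_self (by norm_num) N
    have h2 : x ≤ 2 ^ (Nat.log 2 N + 1) := by rw [hx]; exact_mod_cast h1.le
    rw [hκ, mul_comm 2, pow_mul]
    exact pow_le_pow_left₀ hxpos.le h2 2
  have hE : (n : ℝ) * ((2 * Real.exp t - 1) * m / 2 ^ κ) ≤ 1 := by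
    have hk2 : (0 : ℝ) < 2 ^ κ := by positivity
    rw [← mul_div_assoc, div_le_one hk2]
    refine le_trans ?_ h2κ
    have h0 : 2 * Real.exp t - 1 ≤ 2 * Real.exp t := by linarith
    have h0' : 0 ≤ 2 * Real.exp t - 1 := by
      have := Real.one_le_exp ht.le
      linarith
    calc (n : ℝ) * ((2 * Real.exp t - 1) * m)
        ≤ x ^ (8 * p) * ((2 * Real.exp t) * ((4 / p + 1) * x ^ (3 / 2 - 63 * p))) := by
          apply mul_le_mul hn1 _ (by positivity) (by positivity)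
          exact mul_le_mul h0 hmle (by positivity) (by positivity)
      _ = (2 * Real.exp t * (4 / p + 1)) * x ^ (3 / 2 - 55 * p) := by
          have h3 : x ^ (3 / 2 - 55 * p) = x ^ (8 * p) * x ^ (3 / 2 - 63 * p) := by
            rw [← Real.rpow_add hxpos]; congr 1; ring
          rw [h3]; ring
      _ ≤ x ^ (2 : ℝ) := e6
      _ = x ^ 2 := by norm_num
  -- d0
  obtain ⟨d0, hd0⟩ : ∃ d0 : ℕ, d0 = ⌊x ^ (3 * p)⌋₊ := ⟨_, rfl⟩
  have hd1 : (d0 : ℝ) ≤ x ^ (3 * p) := by rw [hd0]; exact Nat.floor_le (by positivity)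
  have hd2 : x ^ (3 * p) < d0 + 1 := by rw [hd0]; exact Nat.lt_floor_add_one _
  have htd : x ^ (2 * p) + 3 + t ≤ t * d0 := by
    have h1 : (4 + 2 * t) * x ^ (2 * p) ≤ t * x ^ (3 * p) := by
      have := mul_le_mul_of_nonneg_left e7 ht.le
      calc (4 + 2 * t) * x ^ (2 * p) = t * ((4 + 2 * t) / t * x ^ (2 * p)) := by
            field_simp
        _ ≤ _ := this
    have h2 : 1 ≤ x ^ (2 * p) := hone (by linarith)
    have h3 : t * x ^ (3 * p) ≤ t * (d0 + 1) := mul_le_mul_of_nonneg_left hd2.le ht.le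
    have h4 : t * 1 ≤ t * x ^ (2 * p) := mul_le_mul_of_nonneg_left h2 ht.le
    linarith
  refine ⟨n, k, κ, s, d0, m, hnpos, hkpos, hsum, hκ, ?_, hCs, ?_, ?_, ?_, ?_⟩
  · intro s' hs'
    rw [hs]
    exact Nat.le_floor hs'
  · exact count_ineq N s m d0 t x _ _ hx hxpos hm1 hE htd
  · intro a r ha hr
    have h1 : ((a + 1 : ℕ) : ℝ) * (r * d0) ≤ 2 * x ^ (5 * p) := by
      have h2 : ((a + 1 : ℕ) : ℝ) ≤ 2 * x ^ p := by
        push_cast
        have : 1 ≤ x ^ p := by linarith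
        linarith
      have h3 : (r : ℝ) * d0 ≤ x ^ p * x ^ (3 * p) :=
        mul_le_mul hr hd1 (by positivity) (by positivity)
      calc ((a + 1 : ℕ) : ℝ) * (r * d0) ≤ (2 * x ^ p) * (x ^ p * x ^ (3 * p)) :=
            mul_le_mul h2 h3 (by positivity) (by positivity)
        _ = 2 * x ^ (5 * p) := by
            have : x ^ (5 * p) = x ^ p * (x ^ p * x ^ (3 * p)) := by
              rw [← Real.rpow_add hxpos, ← Real.rpow_add hxpos]; congr 1; ring
            rw [this]; ring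
    have h5 : 1 ≤ x ^ (5 * p) := hone (by linarith)
    have h6 : (n : ℝ) < 320000 * ((n / 320000 : ℕ) + 1) := by
      have : n < 320000 * (n / 320000 + 1) := Nat.lt_mul_div_succ n (by norm_num)
      exact_mod_cast this
    have h7 : (((a + 1) * (r * d0) + 8 : ℕ) : ℝ) ≤ ((2 * (n / 320000) : ℕ) : ℝ) := by
      push_cast at h1 ⊢
      linarith
    exact_mod_cast h7
  · intro r S hS0 hr hS
    have h1 : (r : ℝ) ≤ Real.exp (x ^ p) := by
      have := Real.add_one_le_exp (x ^ p)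
      linarith
    have h2 : x ^ (2 * p) = x ^ p * x ^ p := by
      rw [← Real.rpow_add hxpos]; congr 1; ring
    calc (S * r) * Real.exp (-x ^ (2 * p))
        ≤ (Real.exp (x ^ p) * Real.exp (x ^ p)) * Real.exp (-x ^ (2 * p)) := by
          apply mul_le_mul_of_nonneg_right _ (Real.exp_pos _).le
          exact mul_le_mul hS.le h1 (by positivity) (Real.exp_pos _).le
      _ = Real.exp (x ^ p + x ^ p + -x ^ (2 * p)) := by rw [Real.exp_add, Real.exp_add]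
      _ ≤ Real.exp 0 := by
          apply Real.exp_le_exp.mpr
          rw [h2]
          have h3 : 4 * x ^ p ≤ x ^ p * x ^ p := mul_le_mul_of_nonneg_right e2 (by positivity)
          have h4 : 0 ≤ x ^ p := by positivity
          linarith
      _ = 1 := Real.exp_zero
  · have h1 : 2 ^ κ ≤ (2 * N) ^ 2 := by
      have h2 : 2 ^ (Nat.log 2 N + 1) ≤ 2 * N := by
        rw [pow_succ, mul_comm]
        exact Nat.mul_le_mul_left 2 (Nat.pow_log_le_self 2 hNne)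
      rw [hκ, mul_comm 2 (Nat.log 2 N + 1), pow_mul]
      exact Nat.pow_le_pow_left h2 2
    have h2 : n + 1 ≤ N := by
      have h3 : ((n + 1 : ℕ) : ℝ) ≤ N := by
        push_cast
        rw [← hx]
        linarith
      exact_mod_cast h3
    have h3 : 2 ^ 24 ≤ N := by
      have : ((2 ^ 24 : ℕ) : ℝ) ≤ N := by
        rw [← hx]
        push_cast
        linarith
      exact_mod_cast this
    calc (n + 1) * (2 ^ κ * 2) ^ 8 ≤ N * ((2 * N) ^ 2 * 2) ^ 8 := by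
          apply Nat.mul_le_mul h2
          exact Nat.pow_le_pow_left (Nat.mul_le_mul_right 2 h1) 8
      _ = 2 ^ 24 * N ^ 17 := by ring
      _ ≤ N * N ^ 17 := Nat.mul_le_mul_right _ h3
      _ = N ^ 18 := by ring

end H542
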